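import Pool.Agent.Work.MP_69fea5_lc.TJ.Stmts
import Pool.Agent.Work.MP_69fea5_lc.S4.Stmts

set_option autoImplicit false

/-! No `Σ⁰₅` solutions: definitions. The proof is note 4268 on MP_69fea5_lc. -/

namespace Pool.Agent.Work.MP_69fea5_lc.S5

open Pool.Agent.Work.MP_69fea5_lc.DJ (bits lo hi dec)
open Pool.Agent.Work.MP_69fea5_lc.TJ (A fT eT R1 spl FT node opn Dec join)
open Pool.Agent.Work.MP_69fea5_lc.S4 (gg co lst Lst)

/-! ### The painter -/

/-- The number of elements whose sum is tested (quadruples, `840 = lcm(1, .., 8)` of them). -/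
def N₀ : ℕ := 4 * 840

section painter

variable (g : ℕ → ℕ → Bool) (δ : ℕ → ℕ → ℕ)

/-- The value of the last child of the root (the last maximum of the word), when its children are
marked. -/
def tp (w : List ℕ) : ℕ → A :=
  match spl g w with
  | none => 0
  | some (_, _, v) => TJ.M g δ v

/-- The statistic of a word. -/
def sta (w : List ℕ) : Bool := decide (¬ R1 (fT (tp g δ w 0)))

/-- The register `d` has the value `eT a`, the others have the value `0` (tail sums). -/
def pt (d : ℕ) (a : Fin 8) (q : ℕ) : A := if q ≤ d then eT a else 0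

/-- The changes that the table detects. -/
def Dlt (x : A) : Prop := (∃ a b : Fin 8, a ≠ b ∧ x = eT a - eT b) ∨ ∃ r, R1 r ∧ x = eT r

/-- `G` arises from `G'` by a change of one register that the table detects. -/
def Adj (G G' : ℕ → A) : Prop := ∃ d x, Dlt x ∧ ∀ q, G q = G' q + (if q ≤ d then x else 0)

/-- A family: blocks `w a`, joints `c a` (after the block `w a`), depths `κ a`. -/
structure Fm (w : ℕ → List ℕ) (c κ : ℕ → ℕ) : Prop where
  hc : ∀ a b, a < b → g (c a) (c b) = true ∧ δ (c a) (c b) = κ a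
  hw : ∀ a b, a < b → ∀ x ∈ w b, g (c a) x = true

/-- `X` lies after the joint with number `z + 1`, is followed by the joint with number `b`, and has
an odd number of path letters. -/
def Blk (c : ℕ → ℕ) (z b : ℕ) (X : List ℕ) : Prop :=
  z + 1 < b ∧ (∀ x ∈ X, g (c (z + 1)) x = true) ∧ Odd (opn g (c b) X)

/-- What is known about such an `X`. -/
structure BkP (c κ : ℕ → ℕ) (z b : ℕ) (X : List ℕ) (Φ : (ℕ → A) → ℕ → A) : Prop where
  app : ∀ W, (∀ x ∈ W, g (c b) x = true) → tp g δ (X ++ c b :: W) = Φ (node g δ (c b) W)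
  zero : Φ 0 = tp g δ X
  adj : ∀ G G', Adj G G' → Adj (Φ G) (Φ G')
  shal : ∀ ζ, ζ ≤ κ (z + 1) → ∀ G, ∀ q ≤ ζ,
    Φ G q - Φ G ζ = (tp g δ X q - tp g δ X ζ) + (G q - G ζ)
  exact : ∀ G, (∀ q, κ (z + 1) < q → G q = 0) → Φ G = tp g δ X + G
  nod : ∀ a, a ≤ z → node g δ (c a) X = FT (κ a) (tp g δ X)
  nodW : ∀ a, a ≤ z → ∀ W, (∀ x ∈ W, g (c b) x = true) →
    node g δ (c a) (X ++ c b :: W) = FT (κ a) (tp g δ (X ++ c b :: W))

/-- The parities of the numbers of path letters. -/
def par (w : ℕ → List ℕ) (c : ℕ → ℕ) (a : ℕ) : ℕ := opn g (c a) (w a) % 2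

/-- The pair of blocks. -/
def pr2 (w : ℕ → List ℕ) (c : ℕ → ℕ) (a b : ℕ) : List ℕ := w a ++ c a :: w b

/-- The quadruple of blocks. -/
def pr4 (w : ℕ → List ℕ) (c : ℕ → ℕ) (a₁ a₂ a₃ a₄ : ℕ) : List ℕ :=
  pr2 w c a₁ a₂ ++ c a₂ :: pr2 w c a₃ a₄

end painter

/-- A chain of quadruples with the property `Q`, after `z`. -/
inductive Chn (Q : ℕ → ℕ → ℕ → ℕ → ℕ → Prop) : ℕ → ℕ → List ℕ → Prop
  | nil (z : ℕ) : Chn Q z 0 []
  | cons (z n a₁ a₂ a₃ a₄ : ℕ) (s : List ℕ) : z + 1 < a₁ → a₁ + 1 < a₂ → a₂ + 1 < a₃ →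
      a₃ + 1 < a₄ → Q z a₁ a₂ a₃ a₄ → Chn Q a₄ n s → Chn Q z (n + 1) (a₁ :: a₂ :: a₃ :: a₄ :: s)

theorem Chn.len {Q : ℕ → ℕ → ℕ → ℕ → ℕ → Prop} {z n : ℕ} {s : List ℕ} (h : Chn Q z n s) :
    s.length = 4 * n := by
  induction h with
  | nil z => rfl
  | cons z n a₁ a₂ a₃ a₄ s _ _ _ _ _ _ ih =>
    simp only [List.length_cons, ih]
    omega

theorem Chn.sorted {Q : ℕ → ℕ → ℕ → ℕ → ℕ → Prop} {z n : ℕ} {s : List ℕ} (h : Chn Q z n s) :
    (z :: s).Pairwise (· < ·) := by
  induction h with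
  | nil z => simp
  | cons z n a₁ a₂ a₃ a₄ s h1 h2 h3 h4 _ _ ih =>
    rw [List.pairwise_cons] at ih
    obtain ⟨i1, i2⟩ := ih
    simp only [List.pairwise_cons, List.mem_cons]
    refine ⟨?_, ?_, ?_, ?_, fun x hx => i1 x hx, i2⟩
    · rintro x (rfl | rfl | rfl | rfl | hx)
      · omega
      · omega
      · omega
      · omega
      · have := i1 x hx
        omega
    · rintro x (rfl | rfl | rfl | hx)
      · omega
      · omega
      · omega
      · have := i1 x hx
        omega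
    · rintro x (rfl | rfl | hx)
      · omega
      · omega
      · have := i1 x hx
        omega
    · rintro x (rfl | hx)
      · omega
      · have := i1 x hx
        omega

theorem Chn.mono {Q Q' : ℕ → ℕ → ℕ → ℕ → ℕ → Prop}
    (hQ : ∀ z a₁ a₂ a₃ a₄, Q z a₁ a₂ a₃ a₄ → Q' z a₁ a₂ a₃ a₄) {z n : ℕ} {s : List ℕ}
    (h : Chn Q z n s) : Chn Q' z n s := by
  induction h with
  | nil z => exact Chn.nil z
  | cons z n a₁ a₂ a₃ a₄ s h1 h2 h3 h4 hq _ ih =>
    exact Chn.cons z n a₁ a₂ a₃ a₄ s h1 h2 h3 h4 (hQ _ _ _ _ _ hq) ih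

/-! ### Letters: finite lists in the lexicographic order, coded by numbers -/

/-- The coordinate `j` of a list: positive, and `0` beyond the end. -/
def vl (l : List ℕ) (j : ℕ) : ℕ := (l.map Nat.succ).getD j 0

/-- The first coordinate in which two lists differ. -/
def dL (l l' : List ℕ) : ℕ :=
  ((List.range (l.length + 1)).find? (fun j => decide (vl l j ≠ vl l' j))).getD 0

/-- `l` is to the left of `l'`. -/
def lf (l l' : List ℕ) : Bool := decide (vl l (dL l l') < vl l' (dL l l'))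

/-- The order of the letters: left is large. -/
def gt (x y : ℕ) : Bool := lf (dec x) (dec y)

/-- The scale of two letters. -/
def dl (x y : ℕ) : ℕ := dL (dec x) (dec y)

section nodes

variable (h : ℕ → ℕ → ℕ → ℕ)

/-- The environment is nondecreasing. -/
def Mo : Prop := ∀ p b t t', t ≤ t' → h p b t ≤ h p b t'

/-- The test succeeds: for all `p` there is `b` with `h p b` unbounded. -/
def Gd : Prop := ∀ p, ∃ b, ∀ B, ∃ t, B < h p b t

/-- The number of members of `H` that extend `σ`. -/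
def cn (H : List (List ℕ)) (σ : List ℕ) : ℕ :=
  (H.filter (fun τ => decide (τ.take σ.length = σ))).length

/-- The next coordinate at the node `σ`. -/
def nxt (H : List (List ℕ)) (σ : List ℕ) : ℕ :=
  ((List.range H.length).find? (fun b =>
    decide (cn H (σ ++ [b + 1]) < h σ.length b H.length))).getD H.length + 1

/-- One step down. A new node is closed by `0`. -/
def stp (H : List (List ℕ)) (σ : List ℕ) : List ℕ :=
  if 0 ∈ σ then σ else if cn H σ = 0 then σ ++ [0] else σ ++ [nxt h H σ]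

/-- The history: the list of the nodes of the stages `< s`. -/
def his : ℕ → List (List ℕ)
  | 0 => []
  | s + 1 => his s ++ [(stp h (his s))^[s + 1] []]

/-- The node of the stage `s`. -/
def nu (s : ℕ) : List ℕ := (stp h (his h s))^[s + 1] []

/-- Its code. -/
def cd (s : ℕ) : ℕ := Encodable.encode (nu h s)

/-- The letter of the gap `(a, b)`: the leftmost node of the stages `s` with `a < s ≤ b`. -/
def ltr (a b : ℕ) : ℕ :=
  (List.range b).foldl (fun m s => if a < s ∧ gt (cd h s) m = true then cd h s else m) (cd h b)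

/-- The word of a list of positions. -/
def wrd : List ℕ → List ℕ
  | [] => []
  | [_] => []
  | a :: b :: L => ltr h a b :: wrd (b :: L)

/-- The statistic of a number. -/
def stat (n : ℕ) : Bool := sta gt dl (wrd h (bits n))

/-- `e` is the leftmost node of the stages after `a`. -/
def Best (a e : ℕ) : Prop := (∃ s, a < s ∧ e = cd h s) ∧
  ∀ s, a < s → cd h s = e ∨ gt e (cd h s) = true

end nodes

/-! ### The colouring -/

/-- The environment of the test `(e, k)`. -/
def hh (e k p b t : ℕ) : ℕ := gg e (Nat.pair k p) b t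

/-- The least `k` for which the statistic of the test `(e, k)` at `Z` says that the test
succeeds. -/
def tau (e Z : ℕ) : ℕ := ((List.range Z).find? (fun k => stat (hh e k) Z)).getD 0

/-- The target of the number `m = 2 ^ e + i`, `i < 2 ^ e`. -/
def tgt (m Z : ℕ) : ℕ :=
  if m = 0 then 0 else (lst (tau (Nat.log2 m) Z)).getD (m - 2 ^ Nat.log2 m) 0

/-- The colouring without `Σ⁰₅` solutions. -/
def c5 (N : ℕ) : Bool := co tgt N

/-- The lists of `N₀` elements of `Y` that are far away. -/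
def Far (Y : Set ℕ) (B : ℕ) (L : List ℕ) : Prop := L.length = N₀ ∧ (∀ y ∈ L, y ∈ Y) ∧
  (∀ y ∈ L, 0 < y) ∧ (∀ y ∈ L, 2 ^ B ∣ y) ∧ L.Pairwise (fun a b => 2 ^ a ∣ b)

/-- The hypothesis on `X` and `Y` in the key theorem. -/
def Env (X Y : Set ℕ) : Prop := (∀ x ∈ X, 0 < x) ∧ X.Infinite ∧
  (∀ B, ∃ y ∈ Y, 0 < y ∧ 2 ^ B ∣ y) ∧
  ∀ x ∈ X, ∃ B, ∀ L, Far Y B L → c5 (x + L.sum) = c5 L.sum

end Pool.Agent.Work.MP_69fea5_lc.S5
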