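import Pool.Agent.Work.MP_69fea5_lc.S5.Stmts

set_option autoImplicit false

/-! Item AD: adjacency of tail sum vectors. -/

namespace Pool.Agent.Work.MP_69fea5_lc.S5

open Pool.Agent.Work.MP_69fea5_lc.TJ (A fT eT R1 FT)

namespace AD_aux

lemma dlt_ne {d : A} (hd : Dlt d) (x : A) : fT (x + d) ≠ fT x := by
  rcases hd with ⟨a, b, hab, rfl⟩ | ⟨r, hr, rfl⟩
  · exact TJ.table_a _ a b hab
  · exact TJ.table_b _ r hr

lemma adj_col {G G' : ℕ → A} (h : Adj G G') : fT (G 0) ≠ fT (G' 0) := by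
  obtain ⟨p, d, hd, h⟩ := h
  rw [h 0, if_pos (Nat.zero_le p)]
  exact dlt_ne hd _

lemma adj_add {G G' : ℕ → A} (H : ℕ → A) (h : Adj G G') : Adj (H + G) (H + G') := by
  obtain ⟨p, d, hd, h⟩ := h
  refine ⟨p, d, hd, fun q => ?_⟩
  rw [Pi.add_apply, Pi.add_apply, h q, add_assoc]

lemma adj_FT {G G' : ℕ → A} (P : ℕ) (h : Adj G G') : Adj (FT P G) (FT P G') := by
  obtain ⟨p, d, hd, h⟩ := h
  by_cases hP : P + 1 ≤ p
  · refine ⟨P, eT (fT (G' (P + 1) + d)) - eT (fT (G' (P + 1))), Or.inl ⟨_, _, dlt_ne hd _, rfl⟩,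
      fun q => ?_⟩
    by_cases hq : q ≤ P
    · simp only [FT, if_pos hq]
      rw [h q, h (P + 1), if_pos hP, if_pos (by omega : q ≤ p)]
      abel
    · simp only [FT, if_neg hq, add_zero]
  · refine ⟨p, d, hd, fun q => ?_⟩
    by_cases hq : q ≤ P
    · simp only [FT, if_pos hq]
      rw [h q, h (P + 1), if_neg hP, add_zero]
      abel
    · simp only [FT, if_neg hq]
      rw [if_neg (by omega : ¬ q ≤ p), add_zero]

lemma adj_pt (d : ℕ) (a b : Fin 8) (hab : a ≠ b) : Adj (pt d a) (pt d b) := by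
  refine ⟨d, eT a - eT b, Or.inl ⟨a, b, hab, rfl⟩, fun q => ?_⟩
  by_cases hq : q ≤ d
  · simp only [pt, if_pos hq]
    abel
  · simp only [pt, if_neg hq, add_zero]

lemma adj_zero (d : ℕ) (r : Fin 8) (hr : R1 r) : Adj (pt d r) 0 := by
  refine ⟨d, eT r, Or.inr ⟨r, hr, rfl⟩, fun q => ?_⟩
  rw [Pi.zero_apply, zero_add, pt]

end AD_aux

open AD_aux in
theorem iAD : StAD :=
  ⟨fun _ _ h => adj_col h, fun p _ _ h => adj_FT p h, fun H _ _ h => adj_add H h, adj_pt, adj_zero⟩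

end Pool.Agent.Work.MP_69fea5_lc.S5
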