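import Pool.Agent.Work.MP_69fea5_lc.S5.Stmts

set_option autoImplicit false

/-! BK: the data of a block. -/

namespace Pool.Agent.Work.MP_69fea5_lc.S5

open Pool.Agent.Work.MP_69fea5_lc.DJ (bits lo hi dec)
open Pool.Agent.Work.MP_69fea5_lc.TJ (A fT eT R1 spl FT node opn Dec join)

namespace BK_aux

variable {g : ℕ → ℕ → Bool} {δ : ℕ → ℕ → ℕ}

/-- The value of the last child of the root. -/
lemma tp_eq {w u v : List ℕ} {y : ℕ} (h : spl g w = some (u, y, v)) :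
    tp g δ w = TJ.M g δ v := by
  unfold tp
  rw [h]

open Classical in
/-- The function of the block `X` and the joint `c b`. -/
noncomputable def Ph (g : ℕ → ℕ → Bool) (δ : ℕ → ℕ → ℕ) (hP : StPH) (hg : TJ.Good g δ) (c : ℕ → ℕ)
    (b : ℕ) (X : List ℕ) : (ℕ → A) → ℕ → A :=
  match spl g X with
  | none => fun _ => 0
  | some (_, _, v) => if h : Even (opn g (c b) v) then (hP g δ hg v (c b) h).choose else fun _ => 0

lemma Ph_eq (hP : StPH) (hg : TJ.Good g δ) (c : ℕ → ℕ) (b : ℕ) (X u v : List ℕ) (y : ℕ)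
    (hs : spl g X = some (u, y, v)) (h : Even (opn g (c b) v)) :
    Ph g δ hP hg c b X = (hP g δ hg v (c b) h).choose := by
  unfold Ph
  rw [hs]
  simp only
  rw [dif_pos h]

end BK_aux

open BK_aux in
theorem iBK (hA : TJ.StPA) (hO : TJ.StPO) (hP : StPH) : StBK := by
  intro g δ hg w c κ F hκ
  obtain ⟨hA1, -, -, -, -, -, -, hA8⟩ := hA g δ hg
  obtain ⟨-, hO2, hO3, hO4, -, hO6, -⟩ := hO g δ hg
  refine ⟨Ph g δ hP hg c, fun z b X hB => ?_⟩
  obtain ⟨hzb, hX, hodd⟩ := hB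
  -- the splitting
  obtain ⟨u, y, v, hD, hy⟩ : ∃ u y v, Dec g X u y v ∧ g y (c b) = true := by
    rcases hO4 (c b) X with h | h
    · rw [hO2 _ _ h] at hodd
      exact absurd hodd (by decide)
    · exact h
  have hev : Even (opn g (c b) v) := by
    rw [hO3 (c b) X u y v hD hy] at hodd
    rcases hodd with ⟨m, hm⟩
    exact ⟨m, by omega⟩
  have hs : spl g X = some (u, y, v) := (hA1 _ _ _ _).2 hD
  have hyX : y ∈ X := by
    rw [hD.1]
    simp
  have hvX : ∀ x ∈ v, x ∈ X := by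
    intro x hx
    rw [hD.1]
    simp [hx]
  have htX : tp g δ X = TJ.M g δ v := tp_eq hs
  have hDW : ∀ W, (∀ x ∈ W, g (c b) x = true) → Dec g (X ++ c b :: W) u y (v ++ c b :: W) :=
    fun W hW => hO6 _ _ _ _ _ _ hW hD hy
  have htW : ∀ W, (∀ x ∈ W, g (c b) x = true) →
      tp g δ (X ++ c b :: W) = TJ.M g δ (v ++ c b :: W) :=
    fun W hW => tp_eq ((hA1 _ _ _ _).2 (hDW W hW))
  -- the scales
  have hcz := F.hc (z + 1) b hzb
  have hsc : ∀ x ∈ X, g x (c b) = true → κ (z + 1) ≤ δ (c (z + 1)) x ∧ κ (z + 1) ≤ δ x (c b) := by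
    intro x hx hxc
    have h1 := hg.scale _ _ _ (hX x hx) hxc
    rw [hcz.2] at h1
    exact ⟨h1.le.trans (min_le_left _ _), h1.le.trans (min_le_right _ _)⟩
  have hsv : ∀ x ∈ v, g x (c b) = true → κ (z + 1) ≤ δ x (c b) :=
    fun x hx hxc => (hsc x (hvX x hx) hxc).2
  have hca : ∀ a, a ≤ z → δ (c a) y = κ a := by
    intro a ha
    have h1 := F.hc a (z + 1) (by omega)
    rw [hg.scale _ _ _ h1.1 (hX y hyX), h1.2]
    exact min_eq_left ((hκ (by omega : a ≤ z + 1)).trans (hsc y hyX hy).1)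
  obtain ⟨hΦ1, hΦ2, hΦ3, hΦ4, hΦ5⟩ := (hP g δ hg v (c b) hev).choose_spec
  have hPh : Ph g δ hP hg c b X = (hP g δ hg v (c b) hev).choose :=
    Ph_eq hP hg c b X u v y hs hev
  rw [hPh]
  refine ⟨fun W hW => ?_, ?_, hΦ3, fun ζ hζ G q hq => ?_, fun G hG => ?_, fun a ha => ?_,
    fun a ha W hW => ?_⟩
  · rw [htW W hW]
    exact hΦ1 W hW
  · rw [htX]
    exact hΦ2
  · rw [htX]
    exact hΦ4 ζ (fun x hx hxc => hζ.trans (hsv x hx hxc)) G q hq
  · rw [htX]
    exact hΦ5 (κ (z + 1)) hsv G hG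
  · rw [hA8 (c a) X u y v hD, hca a ha, htX]
  · rw [hA8 (c a) _ u y _ (hDW W hW), hca a ha, htW W hW]

end Pool.Agent.Work.MP_69fea5_lc.S5
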