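import Pool.Agent.Work.MP_69fea5_lc.S5.Stmts

set_option autoImplicit false

namespace Pool.Agent.Work.MP_69fea5_lc.S5

open Pool.Agent.Work.MP_69fea5_lc.DJ (bits lo hi dec)
open Pool.Agent.Work.MP_69fea5_lc.TJ (A fT eT R1 spl FT node opn Dec join)

namespace BL_aux

variable {g : ℕ → ℕ → Bool} {δ : ℕ → ℕ → ℕ} {w : ℕ → List ℕ} {c κ : ℕ → ℕ}

lemma mem_join (hG : TJ.Good g δ) (hF : Fm g δ w c κ) : ∀ (s : List ℕ) (a b : ℕ), a < b →
    (b :: s).Pairwise (· < ·) → ∀ x ∈ join w c (b :: s), g (c a) x = true := by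
  intro s
  induction s with
  | nil =>
    intro a b hab _ x hx
    exact hF.hw a b hab x hx
  | cons d s ih =>
    intro a b hab hs x hx
    rw [List.pairwise_cons] at hs
    have hbd : b < d := hs.1 d (by simp)
    rw [join, List.mem_append, List.mem_cons] at hx
    rcases hx with hx | hx | hx
    · exact hF.hw a b hab x hx
    · rw [hx]
      exact (hF.hc a b hab).1
    · exact hG.trans _ _ _ (hF.hc a b hab).1 (ih b d hbd hs.2 x hx)

end BL_aux

theorem iBL (hO : TJ.StPO) : StBL := by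
  intro g δ hG w c κ hF
  have h7 := (hO g δ hG).2.2.2.2.2.2
  refine ⟨?_, ?_, ?_, ?_, fun a b s hab hs => BL_aux.mem_join hG hF s a b hab hs⟩
  · intro z a b hza hab hp
    have hzb : z + 1 < b := hza.trans hab
    refine ⟨hzb, ?_, ?_⟩
    · intro x hx
      rw [pr2, List.mem_append, List.mem_cons] at hx
      rcases hx with hx | hx | hx
      · exact hF.hw _ _ hza x hx
      · rw [hx]
        exact (hF.hc _ _ hza).1
      · exact hF.hw _ _ hzb x hx
    · rw [pr2, h7 (c a) (c b) (w a) (w b) (hF.hc a b hab).1 (hF.hw a b hab)]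
      unfold par at hp
      rw [Nat.odd_iff]
      omega
  · intro z b b' X Y hX hY
    obtain ⟨x1, x2, x3⟩ := hX
    obtain ⟨y1, y2, y3⟩ := hY
    have hbb' : b < b' := by omega
    refine ⟨by omega, ?_, ?_⟩
    · intro x hx
      rw [List.mem_append, List.mem_cons] at hx
      rcases hx with hx | hx | hx
      · exact x2 x hx
      · rw [hx]
        exact (hF.hc _ _ x1).1
      · exact hG.trans _ _ _ (hF.hc (z + 1) (b + 1) (by omega)).1 (y2 x hx)
    · rw [h7 (c b) (c b') X Y (hF.hc b b' hbb').1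
        (fun x hx => hG.trans _ _ _ (hF.hc b (b + 1) (by omega)).1 (y2 x hx))]
      rw [Nat.odd_iff] at x3 y3 ⊢
      omega
  · intro a₁ a₂ a₃ a₄ b s
    simp [join, pr4, pr2]
  · intro a₁ a₂ a₃ a₄
    simp [join, pr4, pr2]

end Pool.Agent.Work.MP_69fea5_lc.S5
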