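import Pool.Agent.Work.MP_69fea5_lc.S5.Stmts

set_option autoImplicit false

/-! Item C: finitely many tests can be answered correctly by one sum of `N₀` elements. -/

namespace Pool.Agent.Work.MP_69fea5_lc.S5

open Pool.Agent.Work.MP_69fea5_lc.DJ (bits lo hi dec chi)
open Pool.Agent.Work.MP_69fea5_lc.TJ (A fT eT R1 spl FT node opn Dec join)
open Pool.Agent.Work.MP_69fea5_lc.S4 (gg co lst Lst)

theorem iC (hT : StPT) (hA : StLA) (hS : StSQ) : StC := by
  intro K h hM Y hY B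
  obtain ⟨y, c, κ, h1, h2, h3⟩ := hS K h hM Y hY B
  obtain ⟨s, s1, s2, s3⟩ := hT gt dl hA.1 K (fun k a => wrd (h k) (bits (y a))) c κ fun k hk => by
    obtain ⟨a1, a2, -⟩ := h3 k hk
    refine ⟨a1, ?_⟩
    rcases a2 with ⟨-, a2⟩ | ⟨-, a2⟩
    · exact Or.inr a2
    · exact Or.inl a2
  have hne : s ≠ [] := by
    rintro rfl
    have : (0 : ℕ) = N₀ := s1
    unfold N₀ at this
    omega
  refine ⟨s.map y, ⟨by rw [List.length_map, s1], ?_, ?_, ?_, ?_⟩, fun k hk => ?_⟩
  · intro x hx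
    obtain ⟨a, -, rfl⟩ := List.mem_map.1 hx
    exact (h1 a).1
  · intro x hx
    obtain ⟨a, -, rfl⟩ := List.mem_map.1 hx
    exact (h1 a).2.1
  · intro x hx
    obtain ⟨a, -, rfl⟩ := List.mem_map.1 hx
    exact (h1 a).2.2
  · rw [List.pairwise_map]
    exact s2.imp fun {a b} hab => h2 a b hab
  · obtain ⟨-, a2, a3⟩ := h3 k hk
    have e : stat (h k) (s.map y).sum =
        sta gt dl (join (fun a => wrd (h k) (bits (y a))) (c k) s) := by
      unfold stat
      rw [a3 s hne s2]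
    rw [e, s3 k hk]
    rcases a2 with ⟨a2, a4⟩ | ⟨a2, a4⟩
    · exact ⟨fun _ => a2, fun _ => a4⟩
    · refine ⟨fun hm => ?_, fun hg => absurd hg a2⟩
      have h01 : κ k 0 < κ k 1 := hm Nat.zero_lt_one
      rw [a4 1] at h01
      exact absurd h01 (lt_irrefl _)

end Pool.Agent.Work.MP_69fea5_lc.S5
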