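import Pool.Agent.Work.MP_69fea5_lc.S5.Stmts

set_option autoImplicit false

/-! Item EI: the value of a chain, strictly increasing depth. -/

namespace Pool.Agent.Work.MP_69fea5_lc.S5

open Pool.Agent.Work.MP_69fea5_lc.DJ (bits lo hi dec chi)
open Pool.Agent.Work.MP_69fea5_lc.TJ (A fT eT R1 spl FT node opn Dec join)
open Pool.Agent.Work.MP_69fea5_lc.S4 (gg co lst Lst)

namespace EI_aux

variable {g : ℕ → ℕ → Bool} {δ : ℕ → ℕ → ℕ} {w : ℕ → List ℕ} {c κ : ℕ → ℕ}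
  {Ph : ℕ → List ℕ → (ℕ → A) → ℕ → A} {q₁ : Fin 8} {P : Fin 8 → Fin 8}

/-- The blocks of a quadruple. -/
lemma blks (hL : StBL) (hg : TJ.Good g δ) (hf : Fm g δ w c κ) {z a₁ a₂ a₃ a₄ : ℕ}
    (h1 : z + 1 < a₁) (h2 : a₁ + 1 < a₂) (h3 : a₂ + 1 < a₃) (h4 : a₃ + 1 < a₄)
    (hq : QI g δ w c κ Ph q₁ P z a₁ a₂ a₃ a₄) :
    Blk g c z a₂ (pr2 w c a₁ a₂) ∧ Blk g c a₂ a₄ (pr2 w c a₃ a₄) ∧
      Blk g c z a₄ (pr4 w c a₁ a₂ a₃ a₄) := by
  obtain ⟨p1, p2, -, -, -⟩ := hL g δ hg w c κ hf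
  obtain ⟨e1, e2, e3, -⟩ := hq
  have b1 := p1 z a₁ a₂ h1 (by omega) e1
  have b2 := p1 a₂ a₃ a₄ h3 (by omega) e3
  exact ⟨b1, b2, p2 _ _ _ _ _ b1 b2⟩

/-- The letters of a late block are smaller than the earlier joints. -/
lemma blk_lt (hg : TJ.Good g δ) (hf : Fm g δ w c κ) {z b : ℕ} {X : List ℕ}
    (hB : Blk g c z b X) : ∀ x ∈ X, g (c z) x = true := fun x hx =>
  hg.trans _ _ _ (hf.hc z (z + 1) (by omega)).1 (hB.2.1 x hx)

/-- (i) The shallow registers of a quadruple are empty. -/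
lemma quad (hL : StBL) (hg : TJ.Good g δ) (hf : Fm g δ w c κ) (hκ : StrictMono κ)
    (hPh : ∀ z b X, Blk g c z b X → BkP g δ c κ z b X (Ph b X)) {z a₁ a₂ a₃ a₄ : ℕ}
    (h1 : z + 1 < a₁) (h2 : a₁ + 1 < a₂) (h3 : a₂ + 1 < a₃) (h4 : a₃ + 1 < a₄)
    (hq : QI g δ w c κ Ph q₁ P z a₁ a₂ a₃ a₄) :
    ∀ q ≤ κ z + 1, tp g δ (pr4 w c a₁ a₂ a₃ a₄) q = tp g δ (pr4 w c a₁ a₂ a₃ a₄) (κ z + 1) := by
  intro q hqz
  obtain ⟨b1, b2, -⟩ := blks hL hg hf h1 h2 h3 h4 hq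
  obtain ⟨-, -, -, -, -, e⟩ := hq
  have k1 : κ z + 1 ≤ κ (z + 1) := hκ (Nat.lt_succ_self z)
  have k2 : κ (z + 1) ≤ κ a₂ := hκ.monotone (by omega)
  have B1 := hPh _ _ _ b1
  have B2 := hPh _ _ _ b2
  have ea := B1.app (pr2 w c a₃ a₄) (blk_lt hg hf b2)
  rw [B2.nod a₂ le_rfl] at ea
  have es := B1.shal (κ z + 1) k1 (FT (κ a₂) (tp g δ (pr2 w c a₃ a₄))) q hqz
  have e' := e q hqz
  change tp g δ (pr2 w c a₁ a₂ ++ c a₂ :: pr2 w c a₃ a₄) q
    = tp g δ (pr2 w c a₁ a₂ ++ c a₂ :: pr2 w c a₃ a₄) (κ z + 1)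
  rw [ea]
  refine sub_eq_zero.1 ?_
  rw [es, e']
  have f1 : FT (κ a₂) (tp g δ (pr2 w c a₃ a₄)) q - FT (κ a₂) (tp g δ (pr2 w c a₃ a₄)) (κ z + 1)
      = tp g δ (pr2 w c a₃ a₄) q - tp g δ (pr2 w c a₃ a₄) (κ z + 1) := by
    unfold FT
    rw [if_pos (by omega), if_pos (by omega)]
    abel
  rw [f1]
  exact TJ.table_2 _

/-- (ii) The values of a chain. -/
lemma chain (hL : StBL) (hg : TJ.Good g δ) (hf : Fm g δ w c κ) (hκ : StrictMono κ)
    (hPh : ∀ z b X, Blk g c z b X → BkP g δ c κ z b X (Ph b X)) {z n : ℕ} {s : List ℕ}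
    (h : Chn (QI g δ w c κ Ph q₁ P) z n s) : ∀ m, n = m + 1 →
      (∀ q ≤ κ z + 1, tp g δ (join w c s) q = tp g δ (join w c s) (κ z + 1)) ∧
      fT (tp g δ (join w c s) 0) = P^[m] q₁ ∧
      (∀ x ∈ join w c s, g (c z) x = true) ∧
      ∀ a, a ≤ z → node g δ (c a) (join w c s) = FT (κ a) (tp g δ (join w c s)) := by
  induction h with
  | nil z => intro m hm; omega
  | cons z n a₁ a₂ a₃ a₄ s h1 h2 h3 h4 hq hs ih =>
    intro m hm
    obtain rfl : n = m := by omega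
    obtain ⟨-, -, p3, p4, p5⟩ := hL g δ hg w c κ hf
    obtain ⟨b1, b2, b3⟩ := blks hL hg hf h1 h2 h3 h4 hq
    have hi := quad hL hg hf hκ hPh h1 h2 h3 h4 hq
    have B3 := hPh _ _ _ b3
    have k1 : κ z + 1 ≤ κ (z + 1) := hκ (Nat.lt_succ_self z)
    have k2 : κ (z + 1) ≤ κ a₄ := hκ.monotone (by omega)
    have hsort : (a₁ :: a₂ :: a₃ :: a₄ :: s).Pairwise (· < ·) :=
      (List.pairwise_cons.1 (Chn.sorted (Chn.cons z n a₁ a₂ a₃ a₄ s h1 h2 h3 h4 hq hs))).2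
    have hlt : ∀ x ∈ join w c (a₁ :: a₂ :: a₃ :: a₄ :: s), g (c z) x = true :=
      p5 z a₁ (a₂ :: a₃ :: a₄ :: s) (by omega) hsort
    cases s with
    | nil =>
      have hn : n = 0 := by
        have := hs.len
        simp only [List.length_nil] at this
        omega
      subst hn
      rw [p4] at hlt ⊢
      refine ⟨hi, hq.2.2.2.1, hlt, fun a ha => B3.nod a ha⟩
    | cons b s =>
      have hn : ∃ k, n = k + 1 := by
        have := hs.len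
        simp only [List.length_cons] at this
        exact ⟨n - 1, by omega⟩
      obtain ⟨k, rfl⟩ := hn
      obtain ⟨i1, i2, i3, i4⟩ := ih k rfl
      rw [p3] at hlt ⊢
      have hG : node g δ (c a₄) (join w c (b :: s)) = pt (κ a₄) (P^[k] q₁) := by
        rw [i4 a₄ le_rfl]
        funext q
        unfold FT pt
        split_ifs with hq'
        · rw [i1 q (by omega), sub_self, zero_add, ← i1 0 (by omega), i2]
        · rfl
      have ea := B3.app (join w c (b :: s)) i3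
      rw [hG] at ea
      refine ⟨fun q hqz => ?_, ?_, hlt, fun a ha => B3.nodW a ha _ i3⟩
      · have es := B3.shal (κ z + 1) k1 (pt (κ a₄) (P^[k] q₁)) q hqz
        rw [ea]
        refine sub_eq_zero.1 ?_
        rw [es, hi q hqz, sub_self, zero_add]
        unfold pt
        rw [if_pos (by omega), if_pos (by omega), sub_self]
      · rw [ea, hq.2.2.2.2.1, Function.iterate_succ_apply']

end EI_aux

open EI_aux

theorem iEI (hD : StAD) (hL : StBL) (hM : StPM) : StEI := by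
  intro g δ hg w c κ hf hκ Ph hPh q₁ P z n s hs hn hn0 hR
  obtain ⟨m, rfl⟩ : ∃ m, n = m + 1 := ⟨n - 1, by omega⟩
  obtain ⟨-, hv, -, -⟩ := chain hL hg hf hκ hPh hs m rfl
  obtain ⟨d1, -, -, d4, d5⟩ := hD
  cases hs with
  | cons z n a₁ a₂ a₃ a₄ s h1 h2 h3 h4 hq hs =>
    obtain ⟨-, -, b3⟩ := blks hL hg hf h1 h2 h3 h4 hq
    have B3 := hPh _ _ _ b3
    obtain ⟨-, -, -, e4, e5, -⟩ := hq
    have hinj : Function.Injective P := by
      intro a b hab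
      by_contra hne
      refine d1 _ _ (B3.adj _ _ (d4 (κ a₄) a b hne)) ?_
      rw [e5, e5, hab]
    have hper : P (P^[m] q₁) = q₁ := by
      rw [← Function.iterate_succ_apply' P m q₁]
      exact hM P hinj (m + 1) hn q₁
    rw [hv] at hR
    refine d1 _ _ (B3.adj _ _ (d5 (κ a₄) _ hR)) ?_
    rw [e5, hper, B3.zero, e4]

end Pool.Agent.Work.MP_69fea5_lc.S5
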