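import Pool.Agent.Work.MP_69fea5_lc.S5.Stmts

set_option autoImplicit false

/-! GN: the nodes are primitive recursive. -/

namespace Pool.Agent.Work.MP_69fea5_lc.S5

open Pool.Agent.Work.MP_69fea5_lc.DJ
open Pool.Agent.Work.MP_69fea5_lc.S4 (gg)
open Primrec

namespace GN_aux

section

variable {γ β : Type*} [Primcodable γ] [Primcodable β]

lemma filt {f : γ → List β} (hf : Primrec f) {p : γ → β → Prop}
    (hp : PrimrecPred fun t : γ × β => p t.1 t.2) [∀ a x, Decidable (p a x)] :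
    Primrec fun a => (f a).filter (fun x => decide (p a x)) := by
  have hg : Primrec₂ fun (a : γ) (x : β) => if p a x then some x else none :=
    Primrec.ite (c := fun t : γ × β => p t.1 t.2) hp (option_some.comp snd) (const none)
  refine (listFilterMap hf hg).of_eq (fun a => ?_)
  rw [← List.filterMap_eq_filter]
  congr 1
  funext x
  simp [Option.guard]

lemma find {f : γ → List β} (hf : Primrec f) {p : γ → β → Prop}
    (hp : PrimrecPred fun t : γ × β => p t.1 t.2) [∀ a x, Decidable (p a x)] :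
    Primrec fun a => (f a).find? (fun x => decide (p a x)) := by
  refine (list_head?.comp (filt hf hp)).of_eq (fun a => ?_)
  rw [List.head?_filter]

end

lemma pr_vl : Primrec₂ vl := by
  have h1 : Primrec fun t : List ℕ × ℕ => t.1.map Nat.succ :=
    list_map fst (succ.comp snd)
  exact ((Primrec.list_getD 0).comp h1 snd).of_eq (fun t => rfl)

lemma pr_dL : Primrec₂ dL := by
  have hp : PrimrecPred fun t : (List ℕ × List ℕ) × ℕ => vl t.1.1 t.2 ≠ vl t.1.2 t.2 :=
    (Primrec.eq.comp (pr_vl.comp (fst.comp fst) snd) (pr_vl.comp (snd.comp fst) snd)).not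
  have h1 := find (f := fun t : List ℕ × List ℕ => List.range (t.1.length + 1))
    (p := fun t j => vl t.1 j ≠ vl t.2 j) (list_range.comp (succ.comp (list_length.comp fst))) hp
  exact (option_getD.comp h1 (const 0)).of_eq (fun t => rfl)

lemma pr_lf : Primrec₂ lf := by
  have h : PrimrecPred fun t : List ℕ × List ℕ => vl t.1 (dL t.1 t.2) < vl t.2 (dL t.1 t.2) :=
    nat_lt.comp (pr_vl.comp fst pr_dL) (pr_vl.comp snd pr_dL)
  exact (h.decide).of_eq (fun t => rfl)

lemma pr_cn : Primrec₂ cn := by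
  have hp : PrimrecPred fun t : (List (List ℕ) × List ℕ) × List ℕ =>
      t.2.take t.1.2.length = t.1.2 :=
    Primrec.eq.comp (list_take.comp (list_length.comp (snd.comp fst)) snd) (snd.comp fst)
  have h1 := filt (f := fun t : List (List ℕ) × List ℕ => t.1)
    (p := fun t τ => τ.take t.2.length = t.2) fst hp
  exact (list_length.comp h1).of_eq (fun t => rfl)

section

variable {γ : Type*} [Primcodable γ]

lemma pr_nxt {h : γ → ℕ → ℕ → ℕ → ℕ}
    (hh : Primrec fun t : γ × ℕ × ℕ × ℕ => h t.1 t.2.1 t.2.2.1 t.2.2.2) :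
    Primrec fun t : γ × List (List ℕ) × List ℕ => nxt (h t.1) t.2.1 t.2.2 := by
  have hp : PrimrecPred fun t : (γ × List (List ℕ) × List ℕ) × ℕ =>
      cn t.1.2.1 (t.1.2.2 ++ [t.2 + 1]) < h t.1.1 t.1.2.2.length t.2 t.1.2.1.length := by
    refine nat_lt.comp ?_ ?_
    · exact pr_cn.comp (fst.comp (snd.comp fst))
        (list_concat.comp (snd.comp (snd.comp fst)) (succ.comp snd))
    · exact hh.comp ((fst.comp fst).pair ((list_length.comp (snd.comp (snd.comp fst))).pair
        (snd.pair (list_length.comp (fst.comp (snd.comp fst))))))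
  have h1 := find (f := fun t : γ × List (List ℕ) × List ℕ => List.range t.2.1.length)
    (p := fun t b => cn t.2.1 (t.2.2 ++ [b + 1]) < h t.1 t.2.2.length b t.2.1.length)
    (list_range.comp (list_length.comp (fst.comp snd))) hp
  exact (succ.comp (option_getD.comp h1 (list_length.comp (fst.comp snd)))).of_eq (fun t => rfl)

lemma pr_mem0 : PrimrecPred fun σ : List ℕ => 0 ∈ σ := by
  have hp : PrimrecPred fun t : List ℕ × ℕ => t.2 = 0 := Primrec.eq.comp snd (const 0)
  have h1 := find (f := fun t : List ℕ => t) (p := fun _ x => x = 0) Primrec.id hp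
  have h2 : PrimrecPred fun σ : List ℕ => (σ.find? (fun x => decide (x = 0))) = some 0 :=
    Primrec.eq.comp h1 (const (some 0))
  refine h2.of_eq (fun σ => ?_)
  constructor
  · intro h
    exact List.mem_of_find?_eq_some h
  · intro h
    cases hf : σ.find? (fun x => decide (x = 0)) with
    | none =>
      rw [List.find?_eq_none] at hf
      exact absurd (by simp) (hf 0 h)
    | some x =>
      have := List.find?_some hf
      simp only [decide_eq_true_eq] at this
      rw [this]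

lemma pr_stp {h : γ → ℕ → ℕ → ℕ → ℕ}
    (hh : Primrec fun t : γ × ℕ × ℕ × ℕ => h t.1 t.2.1 t.2.2.1 t.2.2.2) :
    Primrec fun t : γ × List (List ℕ) × List ℕ => stp (h t.1) t.2.1 t.2.2 := by
  have h1 : PrimrecPred fun t : γ × List (List ℕ) × List ℕ => 0 ∈ t.2.2 :=
    pr_mem0.comp (snd.comp snd)
  have h2 : PrimrecPred fun t : γ × List (List ℕ) × List ℕ => cn t.2.1 t.2.2 = 0 :=
    Primrec.eq.comp (pr_cn.comp (fst.comp snd) (snd.comp snd)) (const 0)
  have h3 : Primrec fun t : γ × List (List ℕ) × List ℕ => t.2.2 ++ [0] :=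
    list_concat.comp (snd.comp snd) (const 0)
  have h4 : Primrec fun t : γ × List (List ℕ) × List ℕ => t.2.2 ++ [nxt (h t.1) t.2.1 t.2.2] :=
    list_concat.comp (snd.comp snd) (pr_nxt hh)
  exact (Primrec.ite h1 (snd.comp snd) (Primrec.ite h2 h3 h4)).of_eq (fun t => rfl)

lemma pr_it {h : γ → ℕ → ℕ → ℕ → ℕ}
    (hh : Primrec fun t : γ × ℕ × ℕ × ℕ => h t.1 t.2.1 t.2.2.1 t.2.2.2) :
    Primrec fun t : γ × List (List ℕ) × ℕ => (stp (h t.1) t.2.1)^[t.2.2 + 1] [] := by
  have h1 : Primrec₂ fun (t : γ × List (List ℕ) × ℕ) (σ : List ℕ) => stp (h t.1) t.2.1 σ :=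
    (pr_stp hh).comp ((fst.comp fst).pair ((fst.comp (snd.comp fst)).pair snd))
  exact nat_iterate (succ.comp (snd.comp snd)) (const []) h1

lemma pr_his {h : γ → ℕ → ℕ → ℕ → ℕ}
    (hh : Primrec fun t : γ × ℕ × ℕ × ℕ => h t.1 t.2.1 t.2.2.1 t.2.2.2) :
    Primrec₂ fun (c : γ) (s : ℕ) => his (h c) s := by
  have hstep : Primrec₂ fun (c : γ) (t : ℕ × List (List ℕ)) =>
      t.2 ++ [(stp (h c) t.2)^[t.1 + 1] []] :=
    list_concat.comp (snd.comp snd)
      ((pr_it hh).comp (fst.pair ((snd.comp snd).pair (fst.comp snd))))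
  have h2 := nat_rec (f := fun _ : γ => ([] : List (List ℕ))) (const []) hstep
  refine h2.of_eq (fun c s => ?_)
  change Nat.rec [] (fun n IH => IH ++ [(stp (h c) IH)^[n + 1] []]) s = his (h c) s
  induction s with
  | zero => rfl
  | succ s ih =>
    rw [his, ← ih]

lemma pr_nu {h : γ → ℕ → ℕ → ℕ → ℕ}
    (hh : Primrec fun t : γ × ℕ × ℕ × ℕ => h t.1 t.2.1 t.2.2.1 t.2.2.2) :
    Primrec fun t : γ × ℕ => nu (h t.1) t.2 := by
  have h1 : Primrec fun t : γ × ℕ => his (h t.1) t.2 := pr_his hh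
  exact ((pr_it hh).comp (fst.pair (h1.pair snd))).of_eq (fun t => rfl)

end

end GN_aux

theorem iGN (g1 : S4.G1) : StGN := by
  refine ⟨?_, ?_, ?_⟩
  · exact (GN_aux.pr_lf.comp (pr_dec.comp fst) (pr_dec.comp snd)).of_eq (fun t => rfl)
  · exact (GN_aux.pr_dL.comp (pr_dec.comp fst) (pr_dec.comp snd)).of_eq (fun t => rfl)
  · have hg : Primrec fun t : (ℕ × ℕ) × ℕ × ℕ × ℕ => hh t.1.1 t.1.2 t.2.1 t.2.2.1 t.2.2.2 := by
      have h1 : Primrec fun t : (ℕ × ℕ) × ℕ × ℕ × ℕ =>
          gg t.1.1 (Nat.pair t.1.2 t.2.1) t.2.2.1 t.2.2.2 :=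
        Primrec.comp (f := fun t : (ℕ × ℕ) × ℕ × ℕ => gg t.1.1 t.1.2 t.2.1 t.2.2)
          (g := fun t : (ℕ × ℕ) × ℕ × ℕ × ℕ =>
            ((t.1.1, Nat.pair t.1.2 t.2.1), (t.2.2.1, t.2.2.2))) g1
          (((fst.comp fst).pair (Primrec₂.natPair.comp (snd.comp fst) (fst.comp snd))).pair
            ((fst.comp (snd.comp snd)).pair (snd.comp (snd.comp snd))))
      exact h1.of_eq (fun t => rfl)
    exact (GN_aux.pr_nu (γ := ℕ × ℕ) (h := fun c => hh c.1 c.2) hg).of_eq (fun t => rfl)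

end Pool.Agent.Work.MP_69fea5_lc.S5
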