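import Pool.Agent.Work.MP_69fea5_lc.S5.Stmts

set_option autoImplicit false

/-! GS: the statistic is primitive recursive. -/

namespace Pool.Agent.Work.MP_69fea5_lc.S5

open Pool.Agent.Work.MP_69fea5_lc.DJ
open Pool.Agent.Work.MP_69fea5_lc.TJ (A fT eT R1 spl FT node opn Dec join)
open Primrec

namespace GS_aux

lemma fold_pr {γ : Type*} [Primcodable γ] {C : γ → ℕ → ℕ} (hC : Primrec₂ C)
    {G : ℕ → ℕ → Bool} (hG : Primrec₂ G) :
    Primrec fun t : γ × ℕ × ℕ => (List.range t.2.2).foldl
      (fun m s => if t.2.1 < s ∧ G (C t.1 s) m = true then C t.1 s else m) (C t.1 t.2.2) := by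
  have hp : PrimrecPred fun u : (γ × ℕ × ℕ) × ℕ × ℕ =>
      u.1.2.1 < u.2.2 ∧ G (C u.1.1 u.2.2) u.2.1 = true := by
    refine PrimrecPred.and ?_ ?_
    · exact nat_lt.comp (fst.comp (snd.comp fst)) (snd.comp snd)
    · exact pp_bool (hG.comp (hC.comp (fst.comp fst) (snd.comp snd)) (fst.comp snd))
  have hstep : Primrec₂ fun (t : γ × ℕ × ℕ) (p : ℕ × ℕ) =>
      if t.2.1 < p.2 ∧ G (C t.1 p.2) p.1 = true then C t.1 p.2 else p.1 :=
    Primrec.ite hp (hC.comp (fst.comp fst) (snd.comp snd)) (fst.comp snd)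
  exact list_foldl (f := fun t : γ × ℕ × ℕ => List.range t.2.2)
    (g := fun t => C t.1 t.2.2) (list_range.comp (snd.comp snd))
    (hC.comp fst (snd.comp snd)) hstep

/-- The code of the node of the test `e` at stage `s`. -/
def cc (e : ℕ × ℕ) (s : ℕ) : ℕ := cd (hh e.1 e.2) s

/-- The letter of the test `e`. -/
def ll (e : ℕ × ℕ) (a b : ℕ) : ℕ := ltr (hh e.1 e.2) a b

lemma cc_pr (hN : StGN) : Primrec₂ cc := by
  have h1 : Primrec fun t : (ℕ × ℕ) × ℕ => Encodable.encode (nu (hh t.1.1 t.1.2) t.2) :=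
    Primrec.encode.comp hN.2.2
  exact h1

lemma ll_eq (e : ℕ × ℕ) (a b : ℕ) : ll e a b = (List.range b).foldl
      (fun m s => if a < s ∧ gt (cc e s) m = true then cc e s else m) (cc e b) := rfl

lemma ll_pr (hN : StGN) : Primrec fun t : (ℕ × ℕ) × ℕ × ℕ => ll t.1 t.2.1 t.2.2 :=
  (fold_pr (cc_pr hN) hN.1).of_eq (fun t => (ll_eq t.1 t.2.1 t.2.2).symm)

lemma wrd_rec (h : ℕ → ℕ → ℕ → ℕ) (L : List ℕ) :
    wrd h L = List.rec (motive := fun _ => List ℕ) []
      (fun a l IH => (l.head?).casesOn [] (fun b => ltr h a b :: IH)) L := by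
  induction L with
  | nil => rfl
  | cons a L ih =>
    cases L with
    | nil => rfl
    | cons b L =>
      rw [wrd, ih]
      rfl

lemma wrd_pr' {γ : Type*} [Primcodable γ] {W : γ → ℕ → ℕ → ℕ}
    (hW : Primrec fun t : γ × ℕ × ℕ => W t.1 t.2.1 t.2.2)
    {f : γ → List ℕ} (hf : Primrec f) : Primrec fun c => (List.rec (motive := fun _ => List ℕ) []
      (fun a l IH => (l.head?).casesOn [] (fun b => W c a b :: IH)) (f c) : List ℕ) := by
  have hstep : Primrec₂ fun (c : γ) (t : ℕ × List ℕ × List ℕ) =>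
      (Option.casesOn (t.2.1.head?) [] (fun b => W c t.1 b :: t.2.2) : List ℕ) := by
    refine option_casesOn (list_head?.comp (fst.comp (snd.comp snd))) (const []) ?_
    have h1 : Primrec fun (u : (γ × ℕ × List ℕ × List ℕ) × ℕ) => W u.1.1 u.1.2.1 u.2 :=
      hW.comp ((fst.comp fst).pair ((fst.comp (snd.comp fst)).pair snd))
    exact list_cons.comp h1 (snd.comp (snd.comp (snd.comp fst)))
  exact list_rec (f := f) (g := fun _ => ([] : List ℕ)) hf (const []) hstep

/-- The word of the test `e`. -/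
def ww (e : ℕ × ℕ) (L : List ℕ) : List ℕ := wrd (hh e.1 e.2) L

lemma ww_pr (hN : StGN) : Primrec fun t : (ℕ × ℕ) × ℕ => ww t.1 (bits t.2) := by
  have h1 : Primrec fun u : ((ℕ × ℕ) × ℕ) × ℕ × ℕ => ll u.1.1 u.2.1 u.2.2 :=
    (ll_pr hN).comp ((fst.comp fst).pair snd)
  have h2 := wrd_pr' (W := fun (t : (ℕ × ℕ) × ℕ) a b => ll t.1 a b) h1
    (f := fun t : (ℕ × ℕ) × ℕ => bits t.2) (pr_bits.comp snd)
  refine h2.of_eq (fun t => ?_)
  exact (wrd_rec (hh t.1.1 t.1.2) (bits t.2)).symm

lemma spl_rec (g : ℕ → ℕ → Bool) (L : List ℕ) :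
    spl g L = List.rec (motive := fun _ => Option (List ℕ × ℕ × List ℕ)) none
      (fun a l IH => IH.casesOn (some ([], a, []))
        (fun z => if g a z.2.1 = true then some ([], a, l) else some (a :: z.1, z.2.1, z.2.2))) L := by
  induction L with
  | nil => rfl
  | cons a L ih =>
    show _ = (Option.casesOn (List.rec (motive := fun _ => Option (List ℕ × ℕ × List ℕ)) none
      (fun a l IH => IH.casesOn (some ([], a, []))
        (fun z => if g a z.2.1 = true then some ([], a, l)
          else some (a :: z.1, z.2.1, z.2.2))) L) (some ([], a, []))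
        (fun z => if g a z.2.1 = true then some ([], a, L) else some (a :: z.1, z.2.1, z.2.2)) :
        Option (List ℕ × ℕ × List ℕ))
    rw [← ih, spl]
    cases spl g L with
    | none => rfl
    | some z => rfl

lemma spl_pr {g : ℕ → ℕ → Bool} (hg : Primrec₂ g) : Primrec fun L : List ℕ => spl g L := by
  have hstep : Primrec₂ fun (_ : List ℕ) (t : ℕ × List ℕ × Option (List ℕ × ℕ × List ℕ)) =>
      (Option.casesOn t.2.2 (some ([], t.1, []))
        (fun z => if g t.1 z.2.1 = true then some ([], t.1, t.2.1)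
          else some (t.1 :: z.1, z.2.1, z.2.2)) : Option (List ℕ × ℕ × List ℕ)) := by
    refine option_casesOn (snd.comp (snd.comp snd)) ?_ ?_
    · exact option_some.comp ((const []).pair ((fst.comp snd).pair (const [])))
    · have hp : PrimrecPred fun u : (List ℕ × ℕ × List ℕ × Option (List ℕ × ℕ × List ℕ)) ×
          (List ℕ × ℕ × List ℕ) => g u.1.2.1 u.2.2.1 = true :=
        pp_bool (hg.comp (fst.comp (snd.comp fst)) (fst.comp (snd.comp snd)))
      refine Primrec.ite hp ?_ ?_
      · exact option_some.comp ((const []).pair ((fst.comp (snd.comp fst)).pair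
          (fst.comp (snd.comp (snd.comp fst)))))
      · exact option_some.comp ((list_cons.comp (fst.comp (snd.comp fst)) (fst.comp snd)).pair
          ((fst.comp (snd.comp snd)).pair (snd.comp (snd.comp snd))))
  have h2 := list_rec (f := fun L : List ℕ => L) (g := fun _ => (none :
    Option (List ℕ × ℕ × List ℕ))) Primrec.id (const none) hstep
  refine h2.of_eq (fun n => ?_)
  rw [spl_rec]

lemma tp_pr (hP : TJ.StPR1) {g : ℕ → ℕ → Bool} {δ : ℕ → ℕ → ℕ} (hg : Primrec₂ g)
    (hδ : Primrec₂ δ) : Primrec fun w : List ℕ => tp g δ w 0 := by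
  have hM := (hP g δ hg hδ).1
  have h1 : Primrec fun w : List ℕ => (Option.casesOn (spl g w) (0 : A)
      (fun z => TJ.M g δ z.2.2 0) : A) := by
    refine option_casesOn (spl_pr hg) (const 0) ?_
    exact hM.comp ((snd.comp (snd.comp snd)).pair (const 0))
  refine h1.of_eq (fun w => ?_)
  unfold tp
  cases spl g w with
  | none => rfl
  | some z => rfl

/-- The statistic of a word. -/
def st (w : List ℕ) : Bool := sta gt dl w

lemma st_pr (hP : TJ.StPR1) (hN : StGN) : Primrec st := by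
  have hd : Primrec fun x : A => decide (¬ R1 (fT x)) := Primrec.dom_finite _
  exact (hd.comp (tp_pr hP hN.1 hN.2.1)).of_eq (fun w => rfl)

end GS_aux

theorem iGS (hP : TJ.StPR1) (hN : StGN) : StGS := by
  unfold StGS
  have h := (GS_aux.st_pr hP hN).comp (GS_aux.ww_pr hN)
  exact h.of_eq (fun t => rfl)

end Pool.Agent.Work.MP_69fea5_lc.S5
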