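import Pool.Agent.Work.MP_69fea5_lc.S5.Stmts
import Pool.Agent.Work.MP_69fea5_lc.Prim
import Pool.Agent.Work.MP_69fea5_lc.S4.I_G3

set_option autoImplicit false

/-! GT: the colouring is primitive recursive. -/

namespace Pool.Agent.Work.MP_69fea5_lc.S5

open Pool.Agent.Work.MP_69fea5_lc.DJ
open Pool.Agent.Work.MP_69fea5_lc.S4 (gg co lst Lst pr_lst pr_log2)

namespace GT_aux

theorem pr_tau (hS : StGS) : Primrec₂ tau := by
  unfold StGS at hS
  generalize hst : (fun (e k Z : ℕ) => stat (hh e k) Z) = st at *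
  have hst' : ∀ e k Z, stat (hh e k) Z = st e k Z := fun e k Z => by rw [← hst]
  simp only [hst'] at hS
  have hp : PrimrecPred fun t : (ℕ × ℕ) × ℕ => st t.1.1 t.2 t.1.2 = true := by
    have h1 : Primrec fun t : (ℕ × ℕ) × ℕ => st t.1.1 t.2 t.1.2 :=
      hS.comp
        (Primrec.pair (Primrec.pair (Primrec.fst.comp Primrec.fst) Primrec.snd)
          (Primrec.snd.comp Primrec.fst))
    exact Primrec.eq.comp h1 (Primrec.const true)
  have hf : Primrec fun c : ℕ × ℕ => (List.range c.2).filter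
      (fun k => decide (st c.1 k c.2 = true)) :=
    pr_filter (γ := ℕ × ℕ) (f := fun c => List.range c.2) (Primrec.list_range.comp Primrec.snd)
      (p := fun c k => st c.1 k c.2 = true) hp
  have h2 : Primrec fun c : ℕ × ℕ => (((List.range c.2).filter
      (fun k => decide (st c.1 k c.2 = true))).head?).getD 0 :=
    Primrec.option_getD.comp (Primrec.list_head?.comp hf) (Primrec.const 0)
  refine h2.of_eq ?_
  intro c
  rw [List.head?_filter]
  simp only [Bool.decide_eq_true, tau, hst']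

theorem pr_tgt (hS : StGS) : Primrec₂ tgt := by
  have h1 : Primrec fun c : ℕ × ℕ => lst (tau (Nat.log2 c.1) c.2) :=
    pr_lst.comp ((pr_tau hS).comp (pr_log2.comp Primrec.fst) Primrec.snd)
  have h2 : Primrec fun c : ℕ × ℕ => c.1 - 2 ^ Nat.log2 c.1 :=
    Primrec.nat_sub.comp Primrec.fst
      (pr_pow.comp (Primrec.const 2) (pr_log2.comp Primrec.fst))
  have h3 : Primrec fun c : ℕ × ℕ =>
      (lst (tau (Nat.log2 c.1) c.2)).getD (c.1 - 2 ^ Nat.log2 c.1) 0 :=
    (Primrec.list_getD 0).comp h1 h2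
  have h4 : PrimrecPred fun c : ℕ × ℕ => c.1 = 0 := Primrec.eq.comp Primrec.fst (Primrec.const 0)
  exact Primrec.ite h4 (Primrec.const 0) h3

end GT_aux

theorem iGT (hS : StGS) (g4 : S4.G4) : StGT :=
  g4 tgt (GT_aux.pr_tgt hS)

end Pool.Agent.Work.MP_69fea5_lc.S5
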