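import Pool.Agent.Work.MP_69fea5_lc.S5.Stmts

set_option autoImplicit false

/-! The key theorem. -/

namespace Pool.Agent.Work.MP_69fea5_lc.S5

open Pool.Agent.Work.MP_69fea5_lc.DJ (bits lo hi dec)
open Pool.Agent.Work.MP_69fea5_lc.S4 (gg co lst Lst)

theorem H_aux.low {Z : ℕ} (hZ : 0 < Z) : ∃ b, 2 ^ b ∣ Z ∧ Z.testBit b = true ∧
    ∀ B, 2 ^ B ∣ Z → B ≤ b := by
  obtain ⟨b, m, hm, rfl⟩ := Nat.exists_eq_two_pow_mul_odd hZ.ne'
  refine ⟨b, dvd_mul_right _ _, ?_, ?_⟩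
  · rw [Nat.testBit_two_pow_mul]
    simp only [ge_iff_le, le_refl, decide_true, Nat.sub_self, Bool.true_and, Nat.testBit_zero,
      decide_eq_true_eq]
    exact Nat.odd_iff.mp hm
  · intro B hB
    have hc : Nat.Coprime (2 ^ B) m := Nat.Coprime.pow_left _ (Nat.coprime_two_left.mpr hm)
    have h1 : 2 ^ B ∣ 2 ^ b := hc.dvd_of_dvd_mul_right hB
    exact (Nat.pow_dvd_pow_iff_le_right (by norm_num)).mp h1

theorem iH (hC : StC) (e_ : S4.E) (f1 : S4.F1) : StH := by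
  intro X Y hE e hex
  obtain ⟨hX, _, hY, hXY⟩ := hE
  classical
  by_contra hcon
  push Not at hcon
  obtain ⟨ks, hks, hmin⟩ : ∃ ks, Gd (hh e ks) ∧ ∀ k < ks, ¬ Gd (hh e k) :=
    ⟨Nat.find hex, Nat.find_spec hex, fun k hk => Nat.find_min hex hk⟩
  have hL : Lst X e ks := hcon ks hks
  have hxX : ∀ i < 2 ^ e, (lst ks).getD i 0 ∈ X := fun i hi => (hL i hi).1
  choose! Bf hBf using hXY
  have hle : ∀ i < 2 ^ e, Bf ((lst ks).getD i 0) + (lst ks).getD i 0 ≤
      ∑ i ∈ Finset.range (2 ^ e), (Bf ((lst ks).getD i 0) + (lst ks).getD i 0) := by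
    intro i hi
    exact Finset.single_le_sum (f := fun i => Bf ((lst ks).getD i 0) + (lst ks).getD i 0)
      (fun _ _ => Nat.zero_le _) (Finset.mem_range.mpr hi)
  obtain ⟨S, hS⟩ : ∃ S, S =
    ∑ i ∈ Finset.range (2 ^ e), (Bf ((lst ks).getD i 0) + (lst ks).getD i 0) := ⟨_, rfl⟩
  rw [← hS] at hle
  obtain ⟨B, hB⟩ : ∃ B, B = S + e + ks + 1 := ⟨_, rfl⟩
  have hMo : ∀ k, Mo (hh e k) := fun k p b t t' htt => f1 e (Nat.pair k p) b t t' htt
  obtain ⟨L, hFar, hcnt⟩ := hC (ks + 1) (fun k => hh e k) hMo Y hY B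
  obtain ⟨hlen, hLY, hpos, hdvd, hpw⟩ := hFar
  obtain ⟨Z, hZ⟩ : ∃ Z, Z = L.sum := ⟨_, rfl⟩
  have hBZ : 2 ^ B ∣ Z := by
    rw [hZ]; exact List.dvd_sum hdvd
  have hZpos : 0 < Z := by
    have hne : L ≠ [] := by
      intro h0
      rw [h0] at hlen
      simp [N₀] at hlen
    obtain ⟨y, hy⟩ := List.exists_mem_of_ne_nil L hne
    have h1 : y ≤ L.sum := List.single_le_sum (fun _ _ => Nat.zero_le _) y hy
    have h2 := hpos y hy
    omega
  have hBle : B < Z := (Nat.lt_two_pow_self).trans_le (Nat.le_of_dvd hZpos hBZ)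
  obtain ⟨b, hb1, hb2, hb3⟩ := H_aux.low hZpos
  have hBb : B ≤ b := hb3 B hBZ
  rw [← hZ] at hcnt
  have htau : tau e Z = ks := by
    unfold tau
    have h1 : (List.range Z).find? (fun k => stat (hh e k) Z) = some ks := by
      rw [List.find?_range_eq_some]
      refine ⟨?_, ?_, ?_⟩
      · exact (hcnt ks (by omega)).mpr hks
      · rw [List.mem_range]
        omega
      · intro k hk
        have h2 := hcnt k (by omega)
        have h3 := hmin k hk
        cases h4 : stat (hh e k) Z with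
        | false => rfl
        | true => exact absurd (h2.mp h4) h3
    rw [h1]
    rfl
  have ht0 : tgt 0 Z = 0 := by simp [tgt]
  have hti : ∀ i < 2 ^ e, tgt (2 ^ e + i) Z = (lst ks).getD i 0 := by
    intro i hi
    have hp : 0 < 2 ^ e := by positivity
    have hlog : Nat.log2 (2 ^ e + i) = e := by
      rw [Nat.log2_eq_iff (by omega)]
      refine ⟨by omega, ?_⟩
      rw [pow_succ]; omega
    unfold tgt
    rw [if_neg (by omega), hlog, htau]
    congr 1
    omega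
  obtain ⟨i, hi, hflip⟩ := e_ tgt e b Z (fun i => (lst ks).getD i 0) hb1 hb2 (by omega) ht0
    (by
      intro i hi
      have h1 := hle i hi
      have h2 : (lst ks).getD i 0 ≤ b := by omega
      exact ⟨hX _ (hxX i hi), h2.trans_lt Nat.lt_two_pow_self, hti i hi⟩)
    (fun i hi j hj hij => (hL i hi).2 j hj hij)
  have h1 := hle i hi
  have h3 := hBf _ (hxX i hi) L ⟨hlen, hLY, hpos, fun y hy =>
    (pow_dvd_pow 2 (show Bf ((lst ks).getD i 0) ≤ B by omega)).trans (hdvd y hy), hpw⟩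
  rw [← hZ] at h3
  unfold c5 at h3
  rw [h3] at hflip
  simp at hflip

end Pool.Agent.Work.MP_69fea5_lc.S5
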