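import Pool.Agent.Work.MP_69fea5_lc.S5.Stmts
import Pool.Agent.Work.MP_69fea5_lc.S4.I_I

set_option autoImplicit false

/-! Item I: the lists from a `Σ⁰₅` set. -/

namespace Pool.Agent.Work.MP_69fea5_lc.S5

open Pool.Agent.Work.MP_69fea5_lc.DJ
open Pool.Agent.Work.MP_69fea5_lc.S4 (gg lst Lst)

namespace I_aux

open Pool.Agent.Work.MP_69fea5_lc.S4.ItemI (pr_log2 Dif pr_getD0 pp_Dif)

/-- Components of the argument. -/
def ce (v : ℕ) : ℕ := v.unpair.1
def ck (v : ℕ) : ℕ := v.unpair.2.unpair.1.unpair.1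
def cp (v : ℕ) : ℕ := v.unpair.2.unpair.1.unpair.2
def cb (v : ℕ) : ℕ := v.unpair.2.unpair.2.unpair.1
def cu (v : ℕ) : ℕ := v.unpair.2.unpair.2.unpair.2.unpair.1
def cl (v : ℕ) : ℕ := v.unpair.2.unpair.2.unpair.2.unpair.2

lemma pr_ce : Primrec ce := pr_u1
lemma pr_ck : Primrec ck := pr_u1.comp (pr_u1.comp pr_u2)
lemma pr_cp : Primrec cp := pr_u2.comp (pr_u1.comp pr_u2)
lemma pr_cb : Primrec cb := pr_u1.comp (pr_u2.comp pr_u2)
lemma pr_cu : Primrec cu := pr_u1.comp (pr_u2.comp (pr_u2.comp pr_u2))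
lemma pr_cl : Primrec cl := pr_u2.comp (pr_u2.comp (pr_u2.comp pr_u2))

open Classical in
/-- The first test. -/
noncomputable def b1 (v : ℕ) : Bool := decide (Dif (ce v) (ck v).unpair.1)

lemma pr_b1 : Primrec b1 := by
  classical
  have h : PrimrecPred fun v : ℕ => Dif (ce v) (ck v).unpair.1 :=
    PrimrecPred.comp pp_Dif (pr_ce.pair (pr_u1.comp pr_ck))
  have h2 := h.decide
  refine h2.of_eq (fun v => ?_)
  unfold b1
  congr

/-- The second test. -/
def b2 (v : ℕ) : Bool := decide ((cp v).unpair.1 < 2 ^ (ce v))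

lemma pr_b2 : Primrec b2 := by
  have h : PrimrecPred fun v : ℕ => (cp v).unpair.1 < 2 ^ (ce v) :=
    Primrec.nat_lt.comp (pr_u1.comp pr_cp) (pr_pow.comp (Primrec.const 2) pr_ce)
  exact h.decide.of_eq (fun v => rfl)

/-- The arguments of `R`. -/
def arg (v : ℕ) : ℕ × ℕ × ℕ × ℕ × ℕ × ℕ :=
  ((dec (ck v).unpair.1).getD (cp v).unpair.1 0, (dec (ck v).unpair.2).getD (cp v).unpair.1 0,
    (cp v).unpair.2, cb v, cu v, cl v)

lemma pr_arg : Primrec arg := by
  have g1 : Primrec fun v : ℕ => (dec (ck v).unpair.1).getD (cp v).unpair.1 0 :=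
    pr_getD0.comp (pr_dec.comp (pr_u1.comp pr_ck)) (pr_u1.comp pr_cp)
  have g2 : Primrec fun v : ℕ => (dec (ck v).unpair.2).getD (cp v).unpair.1 0 :=
    pr_getD0.comp (pr_dec.comp (pr_u2.comp pr_ck)) (pr_u1.comp pr_cp)
  have g3 : Primrec fun v : ℕ => (cp v).unpair.2 := pr_u2.comp pr_cp
  exact g1.pair (g2.pair (g3.pair (pr_cb.pair (pr_cu.pair pr_cl))))

/-- The meaning of a test given by a computable function. -/
lemma gd_iff (f2 : S4.F2) (e : ℕ) (f : ℕ → ℕ)
    (he : (Denumerable.ofNat Nat.Partrec.Code e).eval = fun v => Part.some (f v)) (k : ℕ) :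
    Gd (hh e k) ↔ ∀ p, ∃ b, ∀ u, ∃ l,
      f (Nat.pair e (Nat.pair (Nat.pair k p) (Nat.pair b (Nat.pair u l)))) = 0 := by
  unfold Gd hh
  refine forall_congr' (fun p => exists_congr (fun b => ?_))
  have h := not_congr (f2 e (Nat.pair k p) b f he)
  push Not at h
  exact h

end I_aux

open I_aux in
open Pool.Agent.Work.MP_69fea5_lc.S4.ItemI (Dif) in
theorem iI (f2 : S4.F2) : StI := by
  classical
  intro X hX hpos R hR hXR
  -- the computable function
  let g : ℕ → Bool := fun v =>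
    b1 v && (!(b2 v) || R (arg v).1 (arg v).2.1 (arg v).2.2.1 (arg v).2.2.2.1 (arg v).2.2.2.2.1
      (arg v).2.2.2.2.2)
  have hg : Computable g := by
    have h3 : Computable fun v : ℕ =>
        R (arg v).1 (arg v).2.1 (arg v).2.2.1 (arg v).2.2.2.1 (arg v).2.2.2.2.1
          (arg v).2.2.2.2.2 :=
      Computable.comp (f := fun t : ℕ × ℕ × ℕ × ℕ × ℕ × ℕ =>
        R t.1 t.2.1 t.2.2.1 t.2.2.2.1 t.2.2.2.2.1 t.2.2.2.2.2)
        (g := arg) hR pr_arg.to_comp
    have h2 : Computable fun v : ℕ => !(b2 v) := (Primrec.not.comp pr_b2).to_comp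
    have h1 : Computable fun v : ℕ => b1 v := pr_b1.to_comp
    exact Primrec.and.to_comp.comp h1 (Primrec.or.to_comp.comp h2 h3)
  let f : ℕ → ℕ := fun v => bif g v then 0 else 1
  have hf : Computable f := Computable.cond hg (Computable.const 0) (Computable.const 1)
  have hf0 : ∀ v, f v = 0 ↔ g v = true := by
    intro v
    simp only [f]
    cases g v <;> simp
  obtain ⟨cd, hcd⟩ := Nat.Partrec.Code.exists_code.mp (Partrec.nat_iff.mp hf.partrec)
  let e := Encodable.encode cd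
  have he : (Denumerable.ofNat Nat.Partrec.Code e).eval = fun v => Part.some (f v) := by
    rw [Denumerable.ofNat_encode, hcd]
    rfl
  -- the meaning of the test
  have hG : ∀ k, Gd (hh e k) ↔ ∀ p, ∃ b, ∀ u, ∃ l,
      g (Nat.pair e (Nat.pair (Nat.pair k p) (Nat.pair b (Nat.pair u l)))) = true := by
    intro k
    rw [gd_iff f2 e f he k]
    exact forall_congr' fun p => exists_congr fun b => forall_congr' fun u =>
      exists_congr fun l => hf0 _
  have hgv : ∀ k p b u l,
      g (Nat.pair e (Nat.pair (Nat.pair k p) (Nat.pair b (Nat.pair u l)))) = true ↔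
      (Dif e k.unpair.1 ∧ (p.unpair.1 < 2 ^ e →
        R ((dec k.unpair.1).getD p.unpair.1 0) ((dec k.unpair.2).getD p.unpair.1 0)
          p.unpair.2 b u l = true)) := by
    intro k p b u l
    have q1 : ce (Nat.pair e (Nat.pair (Nat.pair k p) (Nat.pair b (Nat.pair u l)))) = e := by
      simp only [ce, Nat.unpair_pair]
    have q2 : ck (Nat.pair e (Nat.pair (Nat.pair k p) (Nat.pair b (Nat.pair u l)))) = k := by
      simp only [ck, Nat.unpair_pair]
    have q3 : cp (Nat.pair e (Nat.pair (Nat.pair k p) (Nat.pair b (Nat.pair u l)))) = p := by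
      simp only [cp, Nat.unpair_pair]
    have q4 : cb (Nat.pair e (Nat.pair (Nat.pair k p) (Nat.pair b (Nat.pair u l)))) = b := by
      simp only [cb, Nat.unpair_pair]
    have q5 : cu (Nat.pair e (Nat.pair (Nat.pair k p) (Nat.pair b (Nat.pair u l)))) = u := by
      simp only [cu, Nat.unpair_pair]
    have q6 : cl (Nat.pair e (Nat.pair (Nat.pair k p) (Nat.pair b (Nat.pair u l)))) = l := by
      simp only [cl, Nat.unpair_pair]
    simp only [g, b1, b2, arg, q1, q2, q3, q4, q5, q6, Bool.and_eq_true, Bool.or_eq_true,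
      decide_eq_true_eq, Bool.not_eq_true', decide_eq_false_iff_not]
    constructor
    · rintro ⟨h1, h2⟩
      refine ⟨h1, fun h3 => ?_⟩
      rcases h2 with h2 | h2
      · exact absurd h3 h2
      · exact h2
    · rintro ⟨h1, h2⟩
      refine ⟨h1, ?_⟩
      by_cases h3 : p.unpair.1 < 2 ^ e
      · exact Or.inr (h2 h3)
      · exact Or.inl h3
  refine ⟨e, ?_, ?_⟩
  · -- existence
    have hinf : (Nat.log2 '' X).Infinite := by
      intro hfin
      apply hX
      obtain ⟨B, hB⟩ := hfin.bddAbove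
      refine (Set.finite_Iio (2 ^ (B + 1))).subset (fun n hn => ?_)
      have h0 : n ≠ 0 := (hpos n hn).ne'
      have h1 : Nat.log2 n ≤ B := hB ⟨n, hn, rfl⟩
      exact (Nat.log2_lt h0).1 (Nat.lt_succ_of_le h1)
    let φ := hinf.natEmbedding
    have hx : ∀ q, ∃ x ∈ X, Nat.log2 x = (φ q).val := fun q => (φ q).2
    choose x hxX hxl using hx
    have hw : ∀ q, ∃ i, ∀ p, ∃ b, ∀ u, ∃ l, R (x q) i p b u l = true :=
      fun q => (hXR _).1 (hxX q)
    choose w hw using hw
    have hget : ∀ (z : ℕ → ℕ) (N q : ℕ), q < N → ((List.range N).map z).getD q 0 = z q := by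
      intro z N q hq
      rw [List.getD_eq_getElem?_getD, List.getElem?_map, List.getElem?_range hq]
      rfl
    refine ⟨Nat.pair (Encodable.encode ((List.range (2 ^ e)).map x))
      (Encodable.encode ((List.range (2 ^ e)).map w)), ?_⟩
    rw [hG]
    intro p
    have hD : Dif e (Encodable.encode ((List.range (2 ^ e)).map x)) := by
      intro i hi i' hi' hne
      rw [dec_encode, hget x _ i hi, hget x _ i' hi', hxl, hxl]
      intro h
      exact hne (φ.injective (Subtype.ext h))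
    by_cases hp : p.unpair.1 < 2 ^ e
    · obtain ⟨b, hb⟩ := hw p.unpair.1 p.unpair.2
      refine ⟨b, fun u => ?_⟩
      obtain ⟨l, hl⟩ := hb u
      refine ⟨l, ?_⟩
      rw [hgv, Nat.unpair_pair]
      refine ⟨hD, fun _ => ?_⟩
      simp only [dec_encode]
      rw [hget x _ _ hp, hget w _ _ hp]
      exact hl
    · refine ⟨0, fun u => ⟨0, ?_⟩⟩
      rw [hgv, Nat.unpair_pair]
      exact ⟨hD, fun h => absurd h hp⟩
  · intro k hk
    rw [hG] at hk
    have hD : Dif e k.unpair.1 := by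
      obtain ⟨b, hb⟩ := hk 0
      obtain ⟨l, hl⟩ := hb 0
      exact ((hgv _ _ _ _ _).1 hl).1
    intro i hi
    refine ⟨?_, fun j hj hij => hD i hi j hj hij⟩
    rw [hXR]
    refine ⟨(dec k.unpair.2).getD i 0, fun p => ?_⟩
    obtain ⟨b, hb⟩ := hk (Nat.pair i p)
    refine ⟨b, fun u => ?_⟩
    obtain ⟨l, hl⟩ := hb u
    refine ⟨l, ?_⟩
    have h1 := ((hgv _ _ _ _ _).1 hl).2
    rw [Nat.unpair_pair] at h1
    exact h1 hi

end Pool.Agent.Work.MP_69fea5_lc.S5
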