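import Pool.Agent.Work.MP_69fea5_lc.S5.Stmts

set_option autoImplicit false

/-! Indices for the sections of a `Σ⁰₅` relation. -/

namespace Pool.Agent.Work.MP_69fea5_lc.S5

open Nat.Partrec (Code)
open Pool.Agent.Work.MP_69fea5_lc.S4 (gg)

namespace J_aux

/-- The relation, as a function of the pair of `n` and the argument of the code: `0` iff the
relation holds. -/
def jF (R : ℕ → ℕ → ℕ → ℕ → ℕ → ℕ → ℕ → Bool) (q : ℕ) : ℕ :=
  bif R q.unpair.1
    q.unpair.2.unpair.2.unpair.1.unpair.1.unpair.1
    q.unpair.2.unpair.2.unpair.1.unpair.1.unpair.2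
    q.unpair.2.unpair.2.unpair.1.unpair.2
    q.unpair.2.unpair.2.unpair.2.unpair.1
    q.unpair.2.unpair.2.unpair.2.unpair.2.unpair.1
    q.unpair.2.unpair.2.unpair.2.unpair.2.unpair.2 then 0 else 1

theorem jF_computable (R : ℕ → ℕ → ℕ → ℕ → ℕ → ℕ → ℕ → Bool)
    (hR : Computable fun t : ℕ × ℕ × ℕ × ℕ × ℕ × ℕ × ℕ =>
      R t.1 t.2.1 t.2.2.1 t.2.2.2.1 t.2.2.2.2.1 t.2.2.2.2.2.1 t.2.2.2.2.2.2) :
    Computable (jF R) := by
  have u1 : Computable fun p : ℕ => p.unpair.1 := Computable.fst.comp Computable.unpair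
  have u2 : Computable fun p : ℕ => p.unpair.2 := Computable.snd.comp Computable.unpair
  have a2 : Computable fun p : ℕ => p.unpair.2.unpair.2 := u2.comp u2
  have kp : Computable fun p : ℕ => p.unpair.2.unpair.2.unpair.1 := u1.comp a2
  have k : Computable fun p : ℕ => p.unpair.2.unpair.2.unpair.1.unpair.1 := u1.comp kp
  have k1 : Computable fun p : ℕ => p.unpair.2.unpair.2.unpair.1.unpair.1.unpair.1 := u1.comp k
  have k2 : Computable fun p : ℕ => p.unpair.2.unpair.2.unpair.1.unpair.1.unpair.2 := u2.comp k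
  have pp : Computable fun p : ℕ => p.unpair.2.unpair.2.unpair.1.unpair.2 := u2.comp kp
  have a3 : Computable fun p : ℕ => p.unpair.2.unpair.2.unpair.2 := u2.comp a2
  have j : Computable fun p : ℕ => p.unpair.2.unpair.2.unpair.2.unpair.1 := u1.comp a3
  have a4 : Computable fun p : ℕ => p.unpair.2.unpair.2.unpair.2.unpair.2 := u2.comp a3
  have u : Computable fun p : ℕ => p.unpair.2.unpair.2.unpair.2.unpair.2.unpair.1 := u1.comp a4
  have l : Computable fun p : ℕ => p.unpair.2.unpair.2.unpair.2.unpair.2.unpair.2 := u2.comp a4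
  have h := hR.comp (u1.pair (k1.pair (k2.pair (pp.pair (j.pair (u.pair l))))))
  dsimp only at h
  unfold jF
  exact Computable.cond h (Computable.const 0) (Computable.const 1)

end J_aux

open J_aux in
theorem iJ (f2 : S4.F2) : StJ := by
  intro R hR
  have hF : Computable (jF R) := jF_computable R hR
  obtain ⟨cd, hcd⟩ := Nat.Partrec.Code.exists_code.1 (Partrec.nat_iff.1 hF.partrec)
  have hE : Primrec fun n : ℕ => Encodable.encode (Code.curry cd n) :=
    Primrec.encode.comp (Nat.Partrec.Code.primrec₂_curry.comp (Primrec.const cd) Primrec.id)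
  refine ⟨fun n => Encodable.encode (Code.curry cd n), hE, ?_⟩
  intro n y i
  have hev : (Denumerable.ofNat Nat.Partrec.Code (Encodable.encode (Code.curry cd n))).eval
      = fun v => Part.some (jF R (Nat.pair n v)) := by
    rw [Denumerable.ofNat_encode]
    funext v
    rw [Nat.Partrec.Code.eval_curry, hcd]
    rfl
  have hk := fun p b => f2 (Encodable.encode (Code.curry cd n)) (Nat.pair (Nat.pair y i) p) b
    (fun v => jF R (Nat.pair n v)) hev
  unfold Gd
  refine forall_congr' fun p => exists_congr fun b => ?_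
  have h1 : (∀ B, ∃ t, B < hh (Encodable.encode (Code.curry cd n)) (Nat.pair y i) p b t) ↔
      ¬ ∃ B, ∀ t, gg (Encodable.encode (Code.curry cd n)) (Nat.pair (Nat.pair y i) p) b t ≤ B := by
    unfold hh
    push Not
    exact Iff.rfl
  rw [h1, hk p b]
  push Not
  refine forall_congr' fun u => exists_congr fun l => ?_
  simp only [jF, Nat.unpair_pair]
  cases R n y i p b u l <;> simp

end Pool.Agent.Work.MP_69fea5_lc.S5
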