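import Pool.Agent.Work.MP_69fea5_lc.S5.Stmts

set_option autoImplicit false

/-! A set which is homogeneous for sums of at most `N₀ + 1` terms is an environment for itself. -/

namespace Pool.Agent.Work.MP_69fea5_lc.S5

namespace K_aux

theorem two_pow_dvd_lt {a b : ℕ} (hb : 0 < b) (h : 2 ^ a ∣ b) : a < b :=
  lt_of_lt_of_le Nat.lt_two_pow_self (Nat.le_of_dvd hb h)

theorem nodup_of_far {L : List ℕ} (hpos : ∀ y ∈ L, 0 < y)
    (hp : L.Pairwise (fun a b => 2 ^ a ∣ b)) : L.Nodup := by
  refine List.Pairwise.imp_of_mem ?_ hp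
  intro a b _ hb hab
  exact (two_pow_dvd_lt (hpos b hb) hab).ne

end K_aux

theorem iK : StK := by
  intro X hX hpos hdv hb
  obtain ⟨b, hb⟩ := hb
  refine ⟨hpos, hX, hdv, ?_⟩
  intro x hx
  refine ⟨x, fun L hL => ?_⟩
  obtain ⟨hlen, hmem, hposL, hdvd, hpw⟩ := hL
  have hnd : L.Nodup := K_aux.nodup_of_far hposL hpw
  have hN : 0 < N₀ := by unfold N₀; norm_num
  have hsum : ∑ z ∈ L.toFinset, z = L.sum := by
    rw [List.sum_toFinset (fun z => z) hnd]
    simp
  have hcard : L.toFinset.card = N₀ := by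
    rw [List.toFinset_card_of_nodup hnd, hlen]
  have hxL : x ∉ L.toFinset := by
    rw [List.mem_toFinset]
    intro hxm
    exact absurd (K_aux.two_pow_dvd_lt (hposL x hxm) (hdvd x hxm)) (lt_irrefl x)
  have hsub : (↑L.toFinset : Set ℕ) ⊆ X := by
    intro z hz
    rw [Finset.mem_coe, List.mem_toFinset] at hz
    exact hmem z hz
  have e1 := hb L.toFinset (Finset.card_pos.1 (by rw [hcard]; exact hN))
    (by rw [hcard]; exact Nat.le_succ N₀) hsub
  have e2 := hb (insert x L.toFinset) (Finset.insert_nonempty _ _)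
    (by rw [Finset.card_insert_of_notMem hxL, hcard]) (by
      intro z hz
      rw [Finset.mem_coe, Finset.mem_insert] at hz
      rcases hz with rfl | hz
      · exact hx
      · exact hsub (Finset.mem_coe.2 hz))
  rw [Finset.sum_insert hxL, hsum] at e2
  rw [hsum] at e1
  rw [e2, e1]

end Pool.Agent.Work.MP_69fea5_lc.S5
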