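import Pool.Agent.Work.MP_69fea5_lc.S5.Stmts

set_option autoImplicit false

/-! LA: the order of the letters. -/

namespace Pool.Agent.Work.MP_69fea5_lc.S5

open Pool.Agent.Work.MP_69fea5_lc.DJ (bits lo hi dec chi)

namespace LA_aux

lemma vl_lt {l : List ℕ} {j : ℕ} (h : j < l.length) : vl l j = l[j] + 1 := by
  unfold vl
  rw [List.getD_eq_getElem _ _ (by simpa using h), List.getElem_map]

lemma vl_ge {l : List ℕ} {j : ℕ} (h : l.length ≤ j) : vl l j = 0 := by
  unfold vl
  rw [List.getD_eq_default _ _ (by simpa using h)]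

lemma vl_ext {l l' : List ℕ} (h : ∀ j, vl l j = vl l' j) : l = l' := by
  have hlen : l.length = l'.length := by
    rcases lt_trichotomy l.length l'.length with h1 | h1 | h1
    · have := h l.length
      rw [vl_ge le_rfl, vl_lt h1] at this
      omega
    · exact h1
    · have := h l'.length
      rw [vl_ge (le_refl l'.length), vl_lt h1] at this
      omega
  refine List.ext_getElem hlen fun n h1 h2 => ?_
  have := h n
  rw [vl_lt h1, vl_lt h2] at this
  omega

/-- The first difference. -/
lemma dL_eq {l l' : List ℕ} {j : ℕ} (hj : vl l j ≠ vl l' j) (hi : ∀ i < j, vl l i = vl l' i) :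
    dL l l' = j := by
  have hle : j ≤ l.length := by
    by_contra hcon
    push Not at hcon
    have h1 := hi l.length hcon
    rw [vl_ge le_rfl] at h1
    have h2 : l'.length ≤ l.length := by
      by_contra h3
      push Not at h3
      rw [vl_lt h3] at h1
      omega
    exact hj (by rw [vl_ge hcon.le, vl_ge (h2.trans hcon.le)])
  unfold dL
  have : (List.range (l.length + 1)).find? (fun j => decide (vl l j ≠ vl l' j)) = some j := by
    rw [List.find?_range_eq_some]
    refine ⟨by simpa using hj, by simpa using Nat.lt_succ_of_le hle, ?_⟩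
    intro i hij
    simpa using hi i hij
  rw [this]
  rfl

lemma exists_diff {l l' : List ℕ} (h : l ≠ l') :
    ∃ j, vl l j ≠ vl l' j ∧ ∀ i < j, vl l i = vl l' i := by
  classical
  have hex : ∃ j, vl l j ≠ vl l' j := by
    by_contra hcon
    push Not at hcon
    exact h (vl_ext hcon)
  exact ⟨Nat.find hex, Nat.find_spec hex, fun i hi => by
    have := Nat.find_min hex hi
    simpa using this⟩

lemma lf_iff (l l' : List ℕ) :
    lf l l' = true ↔ ∃ j, vl l j < vl l' j ∧ ∀ i < j, vl l i = vl l' i := by
  constructor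
  · intro h
    by_cases hl : l = l'
    · subst hl
      unfold lf at h
      simp at h
    · obtain ⟨j, hj, hi⟩ := exists_diff hl
      unfold lf at h
      rw [dL_eq hj hi] at h
      exact ⟨j, by simpa using h, hi⟩
  · rintro ⟨j, hj, hi⟩
    unfold lf
    rw [dL_eq (Nat.ne_of_lt hj) hi]
    simpa using hj

lemma encode_dec (x : ℕ) : Encodable.encode (dec x) = x := by
  unfold Pool.Agent.Work.MP_69fea5_lc.DJ.dec
  rw [Denumerable.decode_eq_ofNat, Option.getD_some, Denumerable.encode_ofNat]

lemma good : TJ.Good gt dl where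
  irrefl a := by
    by_contra h
    rw [Bool.not_eq_false] at h
    unfold gt at h
    rw [lf_iff] at h
    obtain ⟨j, hj, _⟩ := h
    exact lt_irrefl _ hj
  trans a b c hab hbc := by
    unfold gt at *
    rw [lf_iff] at *
    obtain ⟨j, hj, hi⟩ := hab
    obtain ⟨k, hk, hi'⟩ := hbc
    rcases lt_trichotomy j k with h | h | h
    · exact ⟨j, by rw [← hi' j h]; exact hj, fun i hij => (hi i hij).trans (hi' i (hij.trans h))⟩
    · subst h
      exact ⟨j, hj.trans hk, fun i hij => (hi i hij).trans (hi' i hij)⟩
    · exact ⟨k, by rw [hi k h]; exact hk, fun i hik => (hi i (hik.trans h)).trans (hi' i hik)⟩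
  total a b hab := by
    have hne : dec a ≠ dec b := by
      intro h
      apply hab
      rw [← encode_dec a, ← encode_dec b, h]
    obtain ⟨j, hj, hi⟩ := exists_diff hne
    unfold gt
    rw [lf_iff, lf_iff]
    rcases lt_or_gt_of_ne hj with h | h
    · exact Or.inl ⟨j, h, hi⟩
    · exact Or.inr ⟨j, h, fun i hij => (hi i hij).symm⟩
  scale a b c hab hbc := by
    unfold gt at *
    rw [lf_iff] at *
    unfold dl
    obtain ⟨j, hj, hi⟩ := hab
    obtain ⟨k, hk, hi'⟩ := hbc
    rw [dL_eq (Nat.ne_of_lt hj) hi, dL_eq (Nat.ne_of_lt hk) hi']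
    rcases lt_trichotomy j k with h | h | h
    · rw [min_eq_left h.le]
      exact dL_eq (by rw [← hi' j h]; exact Nat.ne_of_lt hj)
        fun i hij => (hi i hij).trans (hi' i (hij.trans h))
    · subst h
      rw [min_self]
      exact dL_eq (Nat.ne_of_lt (hj.trans hk)) fun i hij => (hi i hij).trans (hi' i hij)
    · rw [min_eq_right h.le]
      exact dL_eq (by rw [hi k h]; exact Nat.ne_of_lt hk)
        fun i hik => (hi i (hik.trans h)).trans (hi' i hik)

end LA_aux

open LA_aux in
/-- LA. -/
theorem iLA : StLA :=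
  ⟨good, lf_iff, fun _ _ _ hj hi => dL_eq hj hi, fun _ _ h => vl_ext h,
    fun l => Pool.Agent.Work.MP_69fea5_lc.DJ.dec_encode l, encode_dec⟩

end Pool.Agent.Work.MP_69fea5_lc.S5
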