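import Pool.Agent.Work.MP_69fea5_lc.S5.Stmts

/-! LD: the recursion of the nodes. -/

set_option autoImplicit false

namespace Pool.Agent.Work.MP_69fea5_lc.S5

namespace LD_aux

variable (h : ℕ → ℕ → ℕ → ℕ)

theorem take_iff (σ l : List ℕ) : l.take σ.length = σ ↔ σ <+: l :=
  ⟨fun e => List.prefix_iff_eq_take.2 e.symm, fun e => (List.prefix_iff_eq_take.1 e).symm⟩

theorem his_eq (s : ℕ) : his h s = (List.range s).map (nu h) := by
  induction s with
  | zero => rfl
  | succ s ih =>
    rw [List.range_succ, List.map_append, ← ih]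
    rfl

theorem his_len (s : ℕ) : (his h s).length = s := by
  rw [his_eq, List.length_map, List.length_range]

theorem cn_his (s : ℕ) (σ : List ℕ) : cn (his h s) σ = vs h s σ := by
  unfold cn vs
  rw [his_eq, List.filter_map, List.length_map]
  rfl

theorem vs_zero {s : ℕ} {σ : List ℕ} : vs h s σ = 0 ↔ ∀ s' < s, ¬ σ <+: nu h s' := by
  unfold vs
  rw [List.length_eq_zero_iff, List.filter_eq_nil_iff]
  constructor
  · intro H s' hs' hp
    exact H s' (List.mem_range.2 hs') (decide_eq_true ((take_iff _ _).2 hp))
  · intro H s' hs' hp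
    exact H s' (List.mem_range.1 hs') ((take_iff _ _).1 (of_decide_eq_true hp))

theorem pre_app {τ u : List ℕ} {x : ℕ} (hp : τ <+: u ++ [x]) : τ = u ++ [x] ∨ τ <+: u := by
  rcases List.prefix_concat_iff.1 hp with h1 | h1
  · exact Or.inl h1
  · exact Or.inr h1

/-- The invariant of the descent, open case. -/
def Op (s : ℕ) (u : List ℕ) : Prop := 0 ∉ u ∧ (∀ τ, τ <+: u → τ ≠ u → cn (his h s) τ ≠ 0) ∧
  ∀ τ v, τ ++ [v] <+: u → v = nxt h (his h s) τ

theorem op_or (s j : ℕ) : (Op h s ((stp h (his h s))^[j] []) ∧
      ((stp h (his h s))^[j] []).length = j) ∨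
    ∃ σ, (stp h (his h s))^[j] [] = σ ++ [0] ∧ σ.length < j ∧ Op h s σ ∧ cn (his h s) σ = 0 := by
  induction j with
  | zero =>
    refine Or.inl ⟨⟨by simp, ?_, ?_⟩, rfl⟩
    · intro τ hτ hne
      exact absurd (List.prefix_nil.1 hτ) hne
    · intro τ v hv
      have := List.prefix_nil.1 hv
      simp at this
  | succ j ih =>
    rw [Function.iterate_succ_apply']
    rcases ih with ⟨hO, hl⟩ | ⟨σ, e, hl, hO, h0⟩
    · generalize (stp h (his h s))^[j] [] = u at hO hl ⊢
      obtain ⟨o1, o2, o3⟩ := hO
      by_cases hc : cn (his h s) u = 0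
      · refine Or.inr ⟨u, ?_, by omega, ⟨o1, o2, o3⟩, hc⟩
        unfold stp
        rw [if_neg o1, if_pos hc]
      · have e : stp h (his h s) u = u ++ [nxt h (his h s) u] := by
          unfold stp
          rw [if_neg o1, if_neg hc]
        rw [e]
        refine Or.inl ⟨⟨?_, ?_, ?_⟩, ?_⟩
        · intro hm
          rcases List.mem_append.1 hm with hm | hm
          · exact o1 hm
          · have h1 := List.mem_singleton.1 hm
            unfold nxt at h1
            omega
        · intro τ hτ hne
          rcases pre_app hτ with h1 | h1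
          · exact absurd h1 hne
          · by_cases h2 : τ = u
            · rw [h2]
              exact hc
            · exact o2 τ h1 h2
        · intro τ v hv
          rcases pre_app hv with h1 | h1
          · obtain ⟨h2, h3⟩ := List.append_inj' h1 rfl
            rw [h2]
            simpa using h3
          · exact o3 τ v h1
        · rw [List.length_append, hl]
          rfl
    · refine Or.inr ⟨σ, ?_, by omega, hO, h0⟩
      rw [e]
      unfold stp
      rw [if_pos (by simp)]

theorem closed (s : ℕ) : ∃ σ, nu h s = σ ++ [0] ∧ σ.length ≤ s ∧ Op h s σ ∧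
    cn (his h s) σ = 0 := by
  induction s using Nat.strong_induction_on with
  | _ s ih =>
    rcases op_or h s (s + 1) with ⟨⟨o1, o2, _⟩, hl⟩ | ⟨σ, e, hl, hO, h0⟩
    · exfalso
      generalize (stp h (his h s))^[s + 1] [] = u at o1 o2 hl
      have hp : u.take s <+: u := List.take_prefix s u
      have hlen : (u.take s).length = s := by
        rw [List.length_take, hl]
        omega
      have hne : u.take s ≠ u := by
        intro h1
        rw [h1] at hlen
        omega
      have h1 := o2 _ hp hne
      rw [cn_his] at h1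
      have h2 : ∃ s' < s, u.take s <+: nu h s' := by
        by_contra hcon
        push Not at hcon
        exact h1 ((vs_zero h).2 hcon)
      obtain ⟨s', hs', hp'⟩ := h2
      obtain ⟨σ', e', hl', _, _⟩ := ih s' hs'
      rw [e'] at hp'
      rcases pre_app hp' with h3 | h3
      · apply o1
        apply hp.subset
        rw [h3]
        simp
      · have := h3.length_le
        omega
    · exact ⟨σ, e, by omega, hO, h0⟩

end LD_aux

open LD_aux in
theorem iLD : StLD := by
  intro h s
  obtain ⟨σ, e, hl, ⟨o1, o2, o3⟩, h0⟩ := closed h s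
  refine ⟨σ, e, o1, hl, ?_, ?_, ?_⟩
  · rw [cn_his] at h0
    exact (vs_zero h).1 h0
  · intro τ hτ hne
    have h1 := o2 τ hτ hne
    rw [cn_his] at h1
    by_contra hcon
    push Not at hcon
    exact h1 ((vs_zero h).2 hcon)
  · intro τ v hv
    have hv' := o3 τ v hv
    unfold nxt at hv'
    simp only [his_len, cn_his] at hv'
    rcases hf : (List.range s).find? (fun b =>
      decide (vs h s (τ ++ [b + 1]) < h τ.length b s)) with _ | b
    · right
      rw [hf] at hv'
      refine ⟨by simpa using hv', ?_⟩
      intro b' hb'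
      have := List.find?_eq_none.1 hf b' (List.mem_range.2 hb')
      simpa using this
    · left
      rw [hf] at hv'
      have h1 := List.find?_range_eq_some.1 hf
      obtain ⟨h2, h3, h4⟩ := h1
      refine ⟨b, List.mem_range.1 h3, by simpa using hv', of_decide_eq_true h2, ?_⟩
      intro b' hb'
      have := h4 b' hb'
      simpa using this

end Pool.Agent.Work.MP_69fea5_lc.S5
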