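import Pool.Agent.Work.MP_69fea5_lc.S5.Stmts

set_option autoImplicit false

/-! Item LE: visits of the nodes. -/

namespace Pool.Agent.Work.MP_69fea5_lc.S5

namespace LE_aux

variable {h : ℕ → ℕ → ℕ → ℕ}

theorem take_iff (σ l : List ℕ) : l.take σ.length = σ ↔ σ <+: l := by
  constructor
  · intro e
    rw [← e]
    exact List.take_prefix _ _
  · rintro ⟨t, rfl⟩
    simp

theorem vs_succ (s : ℕ) (σ : List ℕ) :
    vs h (s + 1) σ = vs h s σ + (if σ <+: nu h s then 1 else 0) := by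
  unfold vs
  rw [List.range_succ, List.filter_append, List.length_append]
  congr 1
  by_cases hp : σ <+: nu h s
  · rw [if_pos hp]
    rw [List.filter_cons_of_pos (by simpa [take_iff] using hp)]
    rfl
  · rw [if_neg hp]
    rw [List.filter_cons_of_neg (by simpa [take_iff] using hp)]
    rfl

theorem vs_mono (σ : List ℕ) : Monotone (fun s => vs h s σ) := by
  apply monotone_nat_of_le_succ
  intro s
  rw [vs_succ]
  omega

theorem vs_unb {σ : List ℕ} (hI : IV h σ) : ∀ B, ∃ s, B ≤ vs h s σ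
  | 0 => ⟨0, Nat.zero_le _⟩
  | B + 1 => by
    obtain ⟨s, hs⟩ := vs_unb hI B
    obtain ⟨s', h1, h2⟩ := hI s
    refine ⟨s' + 1, ?_⟩
    rw [vs_succ, if_pos h2]
    have : vs h s σ ≤ vs h s' σ := vs_mono σ h1
    omega

theorem vs_const {σ : List ℕ} {S : ℕ} (hS : ∀ s, S ≤ s → ¬ σ <+: nu h s) :
    ∀ n, vs h (S + n) σ = vs h S σ
  | 0 => rfl
  | n + 1 => by
    rw [← add_assoc, vs_succ, if_neg (hS _ (by omega)), vs_const hS n]
    rfl

theorem vs_le {σ : List ℕ} {S : ℕ} (hS : ∀ s, S ≤ s → ¬ σ <+: nu h s) (s : ℕ) :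
    vs h s σ ≤ vs h S σ := by
  have h1 : vs h s σ ≤ vs h (S + s) σ := vs_mono σ (by omega)
  rwa [vs_const hS s] at h1

theorem not_FV {σ : List ℕ} (hF : ¬ FV h σ) : IV h σ := by
  intro S
  by_contra hc
  push Not at hc
  exact hF ⟨S, hc⟩

/-- prefixes of `ρ ++ [0]` -/
theorem pre_zero {σ ρ : List ℕ} (hp : σ <+: ρ ++ [0]) : σ = ρ ++ [0] ∨ σ <+: ρ := by
  rw [List.prefix_concat_iff] at hp
  exact hp

theorem part1 (hD : StLD) (σ : List ℕ) : FV h (σ ++ [0]) := by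
  by_cases hc : ∃ s, σ ++ [0] <+: nu h s
  · obtain ⟨s, hs⟩ := hc
    have key : ∀ s, σ ++ [0] <+: nu h s → nu h s = σ ++ [0] ∧ ∀ s' < s, ¬ σ <+: nu h s' := by
      intro s hs
      obtain ⟨ρ, h1, h2, _, h4, _⟩ := hD h s
      rw [h1] at hs
      rcases pre_zero hs with h5 | h5
      · have h6 : σ = ρ := List.append_cancel_right h5
        rw [h6]
        exact ⟨h1, h4⟩
      · exact absurd (h5.subset (by simp : (0 : ℕ) ∈ σ ++ [0])) h2
    refine ⟨s + 1, fun s' hs' hp => ?_⟩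
    refine (key s' hp).2 s (by omega) ?_
    rw [(key s hs).1]
    exact List.prefix_append _ _
  · push Not at hc
    exact ⟨0, fun s _ => hc s⟩

theorem part2 (hD : StLD) (σ : List ℕ) (b : ℕ) (hB : ∃ B, ∀ t, h σ.length b t ≤ B) :
    FV h (σ ++ [b + 1]) := by
  obtain ⟨B, hB⟩ := hB
  by_contra hF
  have hI := not_FV hF
  obtain ⟨S, hS⟩ := vs_unb hI (B + 1)
  obtain ⟨s, hs1, hs2⟩ := hI (max S (b + 1))
  obtain ⟨ρ, h1, _, _, _, _, h6⟩ := hD h s
  rw [h1] at hs2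
  have hp : σ ++ [b + 1] <+: ρ := by
    rcases pre_zero hs2 with h5 | h5
    · have := (List.append_inj' h5 rfl).2
      simp at this
    · exact h5
  have hv : B + 1 ≤ vs h s (σ ++ [b + 1]) :=
    hS.trans (vs_mono (σ ++ [b + 1]) ((le_max_left _ _).trans hs1))
  rcases h6 σ (b + 1) hp with ⟨b2, _, e, h7, _⟩ | ⟨e, _⟩
  · have : b2 = b := by omega
    subst this
    have := hB s
    omega
  · have : b + 1 ≤ s := (le_max_right _ _).trans hs1
    omega

theorem part4 (hD : StLD) (hM : Mo h) (σ : List ℕ) (b : ℕ) (h0 : 0 ∉ σ) (hI : IV h σ)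
    (hb : ∀ b' < b, ∃ B, ∀ t, h σ.length b' t ≤ B) (hu : ∀ B, ∃ t, B < h σ.length b t) :
    IV h (σ ++ [b + 1]) := by
  apply not_FV
  rintro ⟨S0, hS0⟩
  obtain ⟨S1, hS1⟩ := part1 hD (h := h) σ
  have h2 : ∃ S2, ∀ b' < b, ∀ s, S2 ≤ s → ¬ σ ++ [b' + 1] <+: nu h s := by
    choose! f hf using fun b' (hb' : b' < b) => part2 hD σ b' (hb b' hb')
    refine ⟨(Finset.range b).sup f, fun b' hb' s hs => hf b' hb' s ?_⟩
    exact (Finset.le_sup (Finset.mem_range.2 hb')).trans hs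
  obtain ⟨S2, hS2⟩ := h2
  obtain ⟨t0, ht0⟩ := hu (vs h S0 (σ ++ [b + 1]))
  obtain ⟨s, hs1, hs2⟩ := hI (S0 + S1 + S2 + t0 + b + 1)
  obtain ⟨ρ, h1, h2, _, _, _, h6⟩ := hD h s
  have hp : σ <+: ρ := by
    rw [h1] at hs2
    rcases pre_zero hs2 with h5 | h5
    · exact absurd (by rw [h5]; simp) h0
    · exact h5
  have hne : σ ≠ ρ := by
    rintro rfl
    exact hS1 s (by omega) (by rw [h1])
  obtain ⟨r, hr⟩ := hp
  cases r with
  | nil =>
    rw [List.append_nil] at hr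
    exact hne hr
  | cons v r =>
    have hv : σ ++ [v] <+: ρ := ⟨r, by rw [← hr]; simp⟩
    have hv' : σ ++ [v] <+: nu h s := by
      rw [h1]
      exact hv.trans (List.prefix_append _ _)
    have hbig : vs h s (σ ++ [b + 1]) < h σ.length b s := by
      have h7 := vs_le hS0 s
      have h8 : h σ.length b t0 ≤ h σ.length b s := hM _ _ _ _ (by omega)
      omega
    rcases h6 σ v hv with ⟨b1, hb1, e, h7, h8⟩ | ⟨e, h8⟩
    · subst e
      rcases lt_trichotomy b1 b with h9 | h9 | h9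
      · exact hS2 b1 h9 s (by omega) hv'
      · subst h9
        exact hS0 s (by omega) hv'
      · have := h8 b h9
        omega
    · have := h8 b (by omega)
      omega

theorem part5 (hD : StLD) (σ : List ℕ) (h0 : 0 ∉ σ) (hI : IV h σ) : ∃ s, nu h s = σ ++ [0] := by
  classical
  obtain ⟨s1, _, hs1⟩ := hI 0
  have hex : ∃ s, σ <+: nu h s := ⟨s1, hs1⟩
  refine ⟨Nat.find hex, ?_⟩
  have h3 := Nat.find_spec hex
  have h4 : ∀ s' < Nat.find hex, ¬ σ <+: nu h s' := fun s' hs' => Nat.find_min hex hs'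
  obtain ⟨ρ, h1, _, _, _, h5, _⟩ := hD h (Nat.find hex)
  have hp : σ <+: ρ := by
    rw [h1] at h3
    rcases pre_zero h3 with h6 | h6
    · exact absurd (by rw [h6]; simp) h0
    · exact h6
  by_cases hne : σ = ρ
  · rw [h1, hne]
  · obtain ⟨s', h6, h7⟩ := h5 σ hp hne
    exact absurd h7 (h4 s' h6)

end LE_aux

open LE_aux in
theorem iLE (hD : StLD) : StLE := by
  intro h hM
  exact ⟨fun σ => part1 hD σ, fun σ b hB => part2 hD σ b hB, fun S => ⟨S, le_refl S, List.nil_prefix⟩,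
    fun σ b h0 hI hb hu => part4 hD hM σ b h0 hI hb hu, fun σ h0 hI => part5 hD σ h0 hI⟩

end Pool.Agent.Work.MP_69fea5_lc.S5
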