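import Pool.Agent.Work.MP_69fea5_lc.S5.Stmts

set_option autoImplicit false

/-! No `Σ⁰₅` solutions, item LF: the limits of the letters if the test fails. -/

namespace Pool.Agent.Work.MP_69fea5_lc.S5

open Pool.Agent.Work.MP_69fea5_lc.DJ (bits lo hi dec chi)

namespace LF_aux

theorem vl_prefix {σ l : List ℕ} (hp : σ <+: l) {j : ℕ} (hj : j < σ.length) : vl l j = vl σ j := by
  obtain ⟨t, rfl⟩ := hp
  unfold vl
  rw [List.map_append, List.getD_append _ _ _ _ (by simpa using hj)]

theorem vl_last (σ : List ℕ) (v : ℕ) : vl (σ ++ [v]) σ.length = v + 1 := by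
  unfold vl
  rw [List.map_append, List.getD_append_right _ _ _ _ (by simp)]
  simp

/-- The coordinates of an extension of `σ ++ [v]`. -/
theorem vl_ext {σ l : List ℕ} {v : ℕ} (hp : σ ++ [v] <+: l) :
    vl l σ.length = v + 1 ∧ ∀ j < σ.length, vl l j = vl σ j := by
  refine ⟨?_, fun j hj => ?_⟩
  · rw [vl_prefix hp (by simp), vl_last]
  · exact vl_prefix ((List.prefix_append σ [v]).trans hp) hj

section

variable {h : ℕ → ℕ → ℕ → ℕ}

theorem entry (hD : StLD) {σ : List ℕ} (h0 : 0 ∉ σ) {s : ℕ} (hp : σ <+: nu h s) :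
    ∃ v, σ ++ [v] <+: nu h s := by
  obtain ⟨σ', h1, -⟩ := hD h s
  obtain ⟨t, ht⟩ := hp
  cases t with
  | nil =>
    exfalso
    apply h0
    rw [List.append_nil] at ht
    rw [ht, h1]
    simp
  | cons v t =>
    refine ⟨v, t, ?_⟩
    rw [← ht]
    simp

theorem gt_iff (hA : StLA) (s s' : ℕ) : gt (cd h s) (cd h s') = true ↔
    ∃ j, vl (nu h s) j < vl (nu h s') j ∧ ∀ i < j, vl (nu h s) i = vl (nu h s') i := by
  obtain ⟨-, h1, -, -, h2, -⟩ := hA
  unfold gt cd
  rw [h2, h2, h1]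

theorem dl_eq (hA : StLA) (s s' j : ℕ) (hj : vl (nu h s) j ≠ vl (nu h s') j)
    (hi : ∀ i < j, vl (nu h s) i = vl (nu h s') i) : dl (cd h s) (cd h s') = j := by
  obtain ⟨-, -, h1, -, h2, -⟩ := hA
  unfold dl cd
  rw [h2, h2]
  exact h1 _ _ _ hj hi

/-- Two extensions with different coordinates. -/
theorem ext_lt (hA : StLA) {ρ : List ℕ} {m m' s s' : ℕ} (hs : ρ ++ [m] <+: nu h s)
    (hs' : ρ ++ [m'] <+: nu h s') (hm : m < m') :
    gt (cd h s) (cd h s') = true ∧ dl (cd h s) (cd h s') = ρ.length := by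
  obtain ⟨h1, h2⟩ := vl_ext hs
  obtain ⟨h3, h4⟩ := vl_ext hs'
  refine ⟨(gt_iff hA s s').2 ⟨ρ.length, by omega, fun i hi => ?_⟩, dl_eq hA s s' _ (by omega)
    fun i hi => ?_⟩
  · rw [h2 i hi, h4 i hi]
  · rw [h2 i hi, h4 i hi]

/-- `l` is to the right of `ρ`. -/
def Rt (ρ l : List ℕ) : Prop := ∃ j < ρ.length, vl ρ j < vl l j ∧ ∀ i < j, vl ρ i = vl l i

theorem rt_gt (hA : StLA) {ρ : List ℕ} {s s' : ℕ} (hs : ρ <+: nu h s) (hr : Rt ρ (nu h s')) :
    gt (cd h s) (cd h s') = true := by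
  obtain ⟨j, hj, h1, h2⟩ := hr
  refine (gt_iff hA s s').2 ⟨j, ?_, fun i hi => ?_⟩
  · rw [vl_prefix hs hj]
    exact h1
  · rw [vl_prefix hs (hi.trans hj), h2 i hi]

/-- The best stage of a finite set. -/
theorem best (hA : StLA) (F : Finset ℕ) (hF : F.Nonempty) :
    ∃ s ∈ F, ∀ s' ∈ F, cd h s' = cd h s ∨ gt (cd h s) (cd h s') = true := by
  classical
  obtain ⟨hG, -⟩ := hA
  induction hF using Finset.Nonempty.cons_induction with
  | singleton a => exact ⟨a, by simp, fun s' hs' => Or.inl (by rw [Finset.mem_singleton.1 hs'])⟩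
  | cons a F ha hF ih =>
    obtain ⟨s, hs, h1⟩ := ih
    by_cases he : cd h a = cd h s
    · refine ⟨s, Finset.mem_cons_of_mem hs, fun s' hs' => ?_⟩
      rcases Finset.mem_cons.1 hs' with rfl | h2
      · exact Or.inl he
      · exact h1 s' h2
    · rcases hG.total _ _ he with h3 | h3
      · refine ⟨a, Finset.mem_cons_self a F, fun s' hs' => ?_⟩
        rcases Finset.mem_cons.1 hs' with rfl | h2
        · exact Or.inl rfl
        · rcases h1 s' h2 with h4 | h4
          · exact Or.inr (by rw [h4]; exact h3)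
          · exact Or.inr (hG.trans _ _ _ h3 h4)
      · refine ⟨s, Finset.mem_cons_of_mem hs, fun s' hs' => ?_⟩
        rcases Finset.mem_cons.1 hs' with rfl | h2
        · exact Or.inr h3
        · exact h1 s' h2

/-- Finitely many nodes which are visited finitely often. -/
theorem fv_all {σ : List ℕ} (m : ℕ) (hf : ∀ v < m, FV h (σ ++ [v])) :
    ∃ S, ∀ s, S ≤ s → ∀ v < m, ¬ σ ++ [v] <+: nu h s := by
  induction m with
  | zero => exact ⟨0, fun s _ v hv => absurd hv (Nat.not_lt_zero v)⟩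
  | succ m ih =>
    obtain ⟨S, hS⟩ := ih fun v hv => hf v (hv.trans (Nat.lt_succ_self m))
    obtain ⟨S', hS'⟩ := hf m (Nat.lt_succ_self m)
    refine ⟨max S S', fun s hs v hv => ?_⟩
    rcases Nat.lt_succ_iff_lt_or_eq.1 hv with h1 | rfl
    · exact hS s ((le_max_left _ _).trans hs) v h1
    · exact hS' s ((le_max_right _ _).trans hs)

/-- The true node. -/
def rho (b : ℕ → ℕ) (j : ℕ) : List ℕ := (List.range j).map fun p => b p + 1

theorem rho_succ (b : ℕ → ℕ) (j : ℕ) : rho b (j + 1) = rho b j ++ [b j + 1] := by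
  unfold rho
  rw [List.range_succ, List.map_append, List.map_singleton]

theorem rho_len (b : ℕ → ℕ) (j : ℕ) : (rho b j).length = j := by
  unfold rho
  simp

theorem rho_zero (b : ℕ → ℕ) (j : ℕ) : 0 ∉ rho b j := by
  unfold rho
  simp

theorem rho_iv (hE : StLE) (hm : Mo h) (b : ℕ → ℕ) (i : ℕ)
    (hb : ∀ p < i, (∀ B, ∃ t, B < h p (b p) t) ∧ ∀ b' < b p, ∃ B, ∀ t, h p b' t ≤ B) :
    ∀ j ≤ i, IV h (rho b j) := by
  intro j
  induction j with
  | zero => exact fun _ => (hE h hm).2.2.1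
  | succ j ih =>
    intro hj
    rw [rho_succ]
    have h1 := hb j (by omega)
    refine (hE h hm).2.2.2.1 (rho b j) (b j) (rho_zero b j) (ih (by omega)) ?_ ?_
    · rw [rho_len]
      exact h1.2
    · rw [rho_len]
      exact h1.1

/-- Late stages are not to the left of the true node. -/
theorem rho_right (hD : StLD) (hE : StLE) (hm : Mo h) (b : ℕ → ℕ) (i : ℕ)
    (hb : ∀ p < i, (∀ B, ∃ t, B < h p (b p) t) ∧ ∀ b' < b p, ∃ B, ∀ t, h p b' t ≤ B) :
    ∀ j ≤ i, ∃ S, ∀ s, S ≤ s → rho b j <+: nu h s ∨ Rt (rho b j) (nu h s) := by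
  intro j
  induction j with
  | zero => exact fun _ => ⟨0, fun s _ => Or.inl (by simp [rho])⟩
  | succ j ih =>
    intro hj
    obtain ⟨S, hS⟩ := ih (by omega)
    have h1 := hb j (by omega)
    obtain ⟨S', hS'⟩ := fv_all (h := h) (σ := rho b j) (b j + 1) (by
      intro v hv
      cases v with
      | zero => exact (hE h hm).1 _
      | succ v =>
        refine (hE h hm).2.1 _ _ ?_
        rw [rho_len]
        exact h1.2 v (by omega))
    refine ⟨max S S', fun s hs => ?_⟩
    rcases hS s ((le_max_left _ _).trans hs) with h2 | ⟨j', hj', h3, h4⟩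
    · obtain ⟨v, hv⟩ := entry hD (rho_zero b j) h2
      have h5 : b j + 1 ≤ v := by
        by_contra hcon
        exact hS' s ((le_max_right _ _).trans hs) v (by omega) hv
      rcases Nat.eq_or_lt_of_le h5 with h6 | h6
      · left
        rw [rho_succ, h6]
        exact hv
      · right
        obtain ⟨h7, h8⟩ := vl_ext hv
        rw [rho_len] at h7 h8
        have h9 : vl (rho b (j + 1)) j = b j + 1 + 1 := by
          have := vl_last (rho b j) (b j + 1)
          rw [rho_len] at this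
          rw [rho_succ]
          exact this
        refine ⟨j, by rw [rho_len]; omega, by omega, fun k hk => ?_⟩
        rw [h8 k hk]
        rw [rho_succ]
        exact vl_prefix (List.prefix_append _ _) (by rw [rho_len]; exact hk)
    · right
      rw [rho_len] at hj'
      refine ⟨j', by rw [rho_len]; omega, ?_, fun k hk => ?_⟩
      · rw [rho_succ, vl_prefix (List.prefix_append _ _) (by rw [rho_len]; exact hj')]
        exact h3
      · rw [rho_succ, vl_prefix (List.prefix_append _ _) (by rw [rho_len]; omega)]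
        exact h4 k hk

end

end LF_aux

open LF_aux in
/-- **LF**: the limits of the letters if the test fails. -/
theorem iLF (hA : StLA) (hD : StLD) (hE : StLE) : StLF := by
  classical
  intro h hm hG
  have hex : ∃ p, ∀ b, ∃ B, ∀ t, h p b t ≤ B := by
    unfold Gd at hG
    push Not at hG
    exact hG
  set i := Nat.find hex with hi
  have hi1 : ∀ b, ∃ B, ∀ t, h i b t ≤ B := Nat.find_spec hex
  have hi2 : ∀ p, ∃ b, p < i → (∀ B, ∃ t, B < h p b t) ∧ ∀ b' < b, ∃ B, ∀ t, h p b' t ≤ B := by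
    intro p
    by_cases hp : p < i
    · have h1 : ∃ b, ∀ B, ∃ t, B < h p b t := by
        have := Nat.find_min hex hp
        push Not at this
        exact this
      refine ⟨Nat.find h1, fun _ => ⟨Nat.find_spec h1, fun b' hb' => ?_⟩⟩
      have := Nat.find_min h1 hb'
      push Not at this
      exact this
    · exact ⟨0, fun h1 => absurd h1 hp⟩
  choose b hb using hi2
  set ρ := rho b i with hρ
  have hlen : ρ.length = i := rho_len b i
  have h0 : 0 ∉ ρ := rho_zero b i
  have hIV : IV h ρ := rho_iv hE hm b i hb i le_rfl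
  have hFV : ∀ v, FV h (ρ ++ [v]) := by
    intro v
    cases v with
    | zero => exact (hE h hm).1 _
    | succ v =>
      refine (hE h hm).2.1 _ _ ?_
      rw [hlen]
      exact hi1 v
  obtain ⟨a₀, ha₀⟩ := rho_right hD hE hm b i hb i le_rfl
  have hP : ∀ a, ∃ s m, a < s ∧ ρ ++ [m] <+: nu h s ∧
      (∀ s', a < s' → ∀ m', ρ ++ [m'] <+: nu h s' → m ≤ m') ∧
      ∀ s', a < s' → ρ ++ [m] <+: nu h s' → cd h s' = cd h s ∨ gt (cd h s) (cd h s') = true := by
    intro a
    have h1 : ∃ m, ∃ s, a < s ∧ ρ ++ [m] <+: nu h s := by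
      obtain ⟨s, hs, h2⟩ := hIV (a + 1)
      obtain ⟨v, hv⟩ := entry hD h0 h2
      exact ⟨v, s, hs, hv⟩
    obtain ⟨S, hS⟩ := hFV (Nat.find h1)
    obtain ⟨s₁, hs₁, h2⟩ := Nat.find_spec h1
    obtain ⟨s, hs, h3⟩ := best (h := h) hA
      ((Finset.range S).filter fun s => a < s ∧ ρ ++ [Nat.find h1] <+: nu h s)
      ⟨s₁, Finset.mem_filter.2 ⟨Finset.mem_range.2 (by
        by_contra hcon
        exact hS s₁ (by omega) h2), hs₁, h2⟩⟩
    obtain ⟨-, h4, h5⟩ := Finset.mem_filter.1 hs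
    refine ⟨s, Nat.find h1, h4, h5, fun s' hs' m' hm' => Nat.find_min' h1 ⟨s', hs', hm'⟩,
      fun s' hs' h6 => h3 s' (Finset.mem_filter.2 ⟨Finset.mem_range.2 ?_, hs', h6⟩)⟩
    by_contra hcon
    exact hS s' (by omega) h6
  choose s m h1 h2 h3 h4 using hP
  refine ⟨fun a => cd h (s a), fun _ => i, a₀, i, ⟨fun a ha => ⟨⟨s a, h1 a, rfl⟩, fun s' hs' => ?_⟩,
    fun a ha => ?_⟩, fun a _ => rfl⟩
  · rcases ha₀ s' (by omega) with h5 | h5
    · obtain ⟨v, hv⟩ := entry hD h0 h5
      rcases Nat.eq_or_lt_of_le (h3 a s' hs' v hv) with h6 | h6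
      · rw [← h6] at hv
        exact h4 a s' hs' hv
      · exact Or.inr (ext_lt hA (h2 a) hv h6).1
    · exact Or.inr (rt_gt hA ((List.prefix_append ρ [m a]).trans (h2 a)) h5)
  · obtain ⟨S, hS⟩ := fv_all (h := h) (σ := ρ) (m a + 1) fun v _ => hFV v
    refine ⟨max S a₀, fun s' hs' => ⟨?_, ?_⟩⟩
    · have h7 : S ≤ s' := (le_max_left _ _).trans hs'
      rcases ha₀ s' ((le_max_right _ _).trans hs') with h5 | h5
      · obtain ⟨v, hv⟩ := entry hD h0 h5
        refine (ext_lt hA (h2 a) hv ?_).1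
        by_contra hcon
        exact hS s' h7 v (by omega) hv
      · exact rt_gt hA ((List.prefix_append ρ [m a]).trans (h2 a)) h5
    · have h7 : S ≤ s s' := ((le_max_left _ _).trans hs').trans (h1 s').le
      have h8 := (ext_lt hA (h2 a) (h2 s') (by
        by_contra hcon
        exact hS (s s') h7 (m s') (by omega) (h2 s'))).2
      rw [hlen] at h8
      exact h8

end Pool.Agent.Work.MP_69fea5_lc.S5
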