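import Pool.Agent.Work.MP_69fea5_lc.S5.I_LF

set_option autoImplicit false

/-! No `Σ⁰₅` solutions, item LG: the limits of the letters if the test succeeds. Author: helper57. -/

namespace Pool.Agent.Work.MP_69fea5_lc.S5

open Pool.Agent.Work.MP_69fea5_lc.DJ (bits lo hi dec chi)

namespace LG_aux

open LF_aux (vl_ext gt_iff dl_eq best fv_all rho rho_succ rho_len rho_zero rho_iv entry)

variable {h : ℕ → ℕ → ℕ → ℕ}

/-- The node of the stage `s` leaves the true path to the left, at depth `j`. -/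
def LL (h : ℕ → ℕ → ℕ → ℕ) (b : ℕ → ℕ) (j s : ℕ) : Prop :=
  (∀ i < j, vl (nu h s) i = b i + 2) ∧ vl (nu h s) j < b j + 2

/-- The node of the stage `s` leaves the true path to the right, at depth `j`. -/
def RR (h : ℕ → ℕ → ℕ → ℕ) (b : ℕ → ℕ) (j s : ℕ) : Prop :=
  (∀ i < j, vl (nu h s) i = b i + 2) ∧ b j + 2 < vl (nu h s) j

theorem vl_len (l : List ℕ) : vl l l.length = 0 := by
  unfold vl
  exact List.getD_eq_default _ _ (by simp)

theorem tri (b : ℕ → ℕ) (s : ℕ) : ∃ j, LL h b j s ∨ RR h b j s := by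
  classical
  have h1 : ∃ j, vl (nu h s) j ≠ b j + 2 := ⟨(nu h s).length, by rw [vl_len]; omega⟩
  refine ⟨Nat.find h1, ?_⟩
  have h2 := Nat.find_spec h1
  have h3 : ∀ i < Nat.find h1, vl (nu h s) i = b i + 2 := fun i hi => by
    have := Nat.find_min h1 hi
    push Not at this
    exact this
  rcases Nat.lt_or_gt_of_ne h2 with h4 | h4
  · exact Or.inl ⟨h3, h4⟩
  · exact Or.inr ⟨h3, h4⟩

theorem pre (hD : StLD) {b : ℕ → ℕ} {j s : ℕ} (hj : ∀ i < j, vl (nu h s) i = b i + 2) :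
    ∀ k ≤ j, rho b k <+: nu h s := by
  intro k
  induction k with
  | zero => exact fun _ => by simp [rho]
  | succ k ih =>
    intro hk
    obtain ⟨v, hv⟩ := entry hD (rho_zero b k) (ih (by omega))
    have h1 := (vl_ext hv).1
    rw [rho_len, hj k (by omega)] at h1
    have h2 : v = b k + 1 := by omega
    rw [rho_succ, ← h2]
    exact hv

theorem ll_prefix (hD : StLD) {b : ℕ → ℕ} {j s : ℕ} (hl : LL h b j s) :
    ∃ v, v < b j + 1 ∧ rho b j ++ [v] <+: nu h s := by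
  obtain ⟨v, hv⟩ := entry hD (rho_zero b j) (pre hD hl.1 j le_rfl)
  have h1 := (vl_ext hv).1
  rw [rho_len] at h1
  have h2 := hl.2
  exact ⟨v, by omega, hv⟩

theorem lt1 (hA : StLA) {b : ℕ → ℕ} {j j' s s' : ℕ} (hl : LL h b j s) (hl' : LL h b j' s')
    (hj : j < j') : gt (cd h s) (cd h s') = true ∧ dl (cd h s) (cd h s') = j := by
  have h1 := hl'.1 j hj
  have h2 := hl.2
  have h3 : ∀ i < j, vl (nu h s) i = vl (nu h s') i := fun i hi => by
    rw [hl.1 i hi, hl'.1 i (hi.trans hj)]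
  exact ⟨(gt_iff hA s s').2 ⟨j, by omega, h3⟩, dl_eq hA s s' j (by omega) h3⟩

theorem lt2 (hA : StLA) {b : ℕ → ℕ} {j j' s s' : ℕ} (hl : LL h b j s) (hr : RR h b j' s') :
    gt (cd h s) (cd h s') = true := by
  refine (gt_iff hA s s').2 ?_
  rcases lt_trichotomy j j' with h1 | h1 | h1
  · refine ⟨j, ?_, fun i hi => by rw [hl.1 i hi, hr.1 i (hi.trans h1)]⟩
    have h2 := hr.1 j h1
    have h3 := hl.2
    omega
  · subst h1
    refine ⟨j, ?_, fun i hi => by rw [hl.1 i hi, hr.1 i hi]⟩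
    have h2 := hr.2
    have h3 := hl.2
    omega
  · refine ⟨j', ?_, fun i hi => by rw [hl.1 i (hi.trans h1), hr.1 i hi]⟩
    have h2 := hr.2
    have h3 := hl.1 j' h1
    omega

/-- The path `b` is the true path. -/
def TP (h : ℕ → ℕ → ℕ → ℕ) (b : ℕ → ℕ) : Prop :=
  ∀ p, (∀ B, ∃ t, B < h p (b p) t) ∧ ∀ b' < b p, ∃ B, ∀ t, h p b' t ≤ B

theorem fin (hD : StLD) (hE : StLE) (hm : Mo h) {b : ℕ → ℕ} (hb : TP h b) (j : ℕ) :
    ∃ S, ∀ s, S ≤ s → ¬ LL h b j s := by
  obtain ⟨S, hS⟩ := fv_all (h := h) (σ := rho b j) (b j + 1) (by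
    intro v hv
    cases v with
    | zero => exact (hE h hm).1 _
    | succ v =>
      refine (hE h hm).2.1 _ _ ?_
      rw [rho_len]
      exact (hb j).2 v (by omega))
  refine ⟨S, fun s hs hl => ?_⟩
  obtain ⟨v, hv, h1⟩ := ll_prefix hD hl
  exact hS s hs v hv h1

theorem fin_all (hD : StLD) (hE : StLE) (hm : Mo h) {b : ℕ → ℕ} (hb : TP h b) :
    ∀ m, ∃ S, ∀ j < m, ∀ s, S ≤ s → ¬ LL h b j s := by
  intro m
  induction m with
  | zero => exact ⟨0, fun j hj => absurd hj (Nat.not_lt_zero j)⟩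
  | succ m ih =>
    obtain ⟨S, hS⟩ := ih
    obtain ⟨S', hS'⟩ := fin hD hE hm hb m
    refine ⟨max S S', fun j hj s hs => ?_⟩
    rcases Nat.lt_succ_iff_lt_or_eq.1 hj with h1 | rfl
    · exact hS j h1 s ((le_max_left _ _).trans hs)
    · exact hS' s ((le_max_right _ _).trans hs)

theorem inf (hE : StLE) (hm : Mo h) {b : ℕ → ℕ} (hb : TP h b) (a : ℕ) :
    ∃ j, ∃ s, a < s ∧ LL h b j s := by
  have h1 : ∀ j, ∃ s, nu h s = rho b j ++ [0] := fun j =>
    (hE h hm).2.2.2.2 _ (rho_zero b j) (rho_iv hE hm b j (fun p _ => hb p) j le_rfl)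
  choose s hs using h1
  have h2 : Function.Injective s := by
    intro j j' hj
    have h3 : (rho b j ++ [0]).length = (rho b j' ++ [0]).length := by
      rw [← hs j, ← hs j', hj]
    simpa [rho_len] using h3
  have h3 : ∃ j, a < s j := by
    by_contra hcon
    push Not at hcon
    exact not_injective_infinite_finite (fun j => (⟨s j, Nat.lt_succ_of_le (hcon j)⟩ : Fin (a + 1)))
      (fun j j' hj => h2 (by simpa using hj))
  obtain ⟨j, hj⟩ := h3
  refine ⟨j, s j, hj, ?_⟩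
  have h4 : rho b j ++ [0] <+: nu h (s j) := by rw [hs j]
  obtain ⟨h5, h6⟩ := vl_ext h4
  rw [rho_len] at h5 h6
  refine ⟨fun i hi => ?_, by omega⟩
  rw [h6 i hi]
  unfold rho vl
  rw [List.map_map, List.getD_eq_getElem _ _ (by simpa using hi)]
  simp

end LG_aux

open LG_aux in
open LF_aux (best) in
/-- **LG**: the limits of the letters if the test succeeds. -/
theorem iLG (hA : StLA) (hD : StLD) (hE : StLE) : StLG := by
  classical
  intro h hm hG
  have hex : ∀ p, ∃ b, (∀ B, ∃ t, B < h p b t) ∧ ∀ b' < b, ∃ B, ∀ t, h p b' t ≤ B := by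
    intro p
    refine ⟨Nat.find (hG p), Nat.find_spec (hG p), fun b' hb' => ?_⟩
    have := Nat.find_min (hG p) hb'
    push Not at this
    exact this
  choose b hb using hex
  have hTP : TP h b := hb
  have hP : ∀ a, ∃ d s, a < s ∧ LL h b d s ∧ (∀ j < d, ∀ s', a < s' → ¬ LL h b j s') ∧
      ∀ s', a < s' → LL h b d s' → cd h s' = cd h s ∨ gt (cd h s) (cd h s') = true := by
    intro a
    have h1 := inf hE hm hTP a
    obtain ⟨S, hS⟩ := fin hD hE hm hTP (Nat.find h1)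
    obtain ⟨s₁, hs₁, h2⟩ := Nat.find_spec h1
    obtain ⟨s, hs, h3⟩ := best (h := h) hA
      ((Finset.range S).filter fun s => a < s ∧ LL h b (Nat.find h1) s)
      ⟨s₁, Finset.mem_filter.2 ⟨Finset.mem_range.2 (by
        by_contra hcon
        exact hS s₁ (by omega) h2), hs₁, h2⟩⟩
    obtain ⟨-, h4, h5⟩ := Finset.mem_filter.1 hs
    refine ⟨Nat.find h1, s, h4, h5, fun j hj s' hs' h6 => Nat.find_min h1 hj ⟨s', hs', h6⟩,
      fun s' hs' h6 => h3 s' (Finset.mem_filter.2 ⟨Finset.mem_range.2 ?_, hs', h6⟩)⟩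
    by_contra hcon
    exact hS s' (by omega) h6
  choose d s h1 h2 h3 h4 using hP
  have hinf : ∀ m, ∃ a₁, ∀ a, a₁ ≤ a → m ≤ d a := by
    intro m
    obtain ⟨S, hS⟩ := fin_all hD hE hm hTP m
    refine ⟨S, fun a ha => ?_⟩
    by_contra hcon
    exact hS (d a) (by omega) (s a) (ha.trans (h1 a).le) (h2 a)
  refine ⟨fun a => cd h (s a), d, 0, ⟨fun a _ => ⟨⟨s a, h1 a, rfl⟩, fun s' hs' => ?_⟩,
    fun a _ => ?_⟩, hinf⟩
  · obtain ⟨j, hj | hj⟩ := tri (h := h) b s'
    · rcases lt_trichotomy j (d a) with h5 | h5 | h5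
      · exact absurd hj (h3 a j h5 s' hs')
      · subst h5
        exact h4 a s' hs' hj
      · exact Or.inr (lt1 hA (h2 a) hj h5).1
    · exact Or.inr (lt2 hA (h2 a) hj)
  · obtain ⟨S, hS⟩ := fin_all hD hE hm hTP (d a + 1)
    obtain ⟨S', hS'⟩ := hinf (d a + 1)
    refine ⟨max S S', fun s' hs' => ⟨?_, ?_⟩⟩
    · obtain ⟨j, hj | hj⟩ := tri (h := h) b s'
      · have h5 : d a < j := by
          by_contra hcon
          exact hS j (by omega) s' ((le_max_left _ _).trans hs') hj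
        exact (lt1 hA (h2 a) hj h5).1
      · exact lt2 hA (h2 a) hj
    · have h5 := hS' s' ((le_max_right _ _).trans hs')
      exact (lt1 hA (h2 a) (h2 s') (by omega)).2

end Pool.Agent.Work.MP_69fea5_lc.S5
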