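import Pool.Agent.Work.MP_69fea5_lc.S5.Stmts

set_option autoImplicit false

/-! Item M of block S5: the final theorem about one set. Author: helper24. -/

namespace Pool.Agent.Work.MP_69fea5_lc.S5

open Pool.Agent.Work.MP_69fea5_lc.DJ (chi)

theorem iM (hH : StH) (hI : StI) (hJ : StJ) (j2 : S4.J2) : StM := by
  intro X Y hE
  have hE' := hE
  obtain ⟨hpos, hinf, hY, hc⟩ := hE
  constructor
  · rintro ⟨R, hR, hX⟩
    obtain ⟨e, he, hl⟩ := hI X hinf hpos R hR hX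
    obtain ⟨k, hk, hn⟩ := hH X Y hE' e he
    exact hn (hl k hk)
  · intro R hR
    obtain ⟨E, hE, hg⟩ := hJ R hR
    obtain ⟨f, hf, hL⟩ := j2 X hinf hpos E hE
    refine ⟨f, hf, fun n hn => ?_⟩
    obtain ⟨i, hi⟩ := (hn (f n)).2 rfl
    obtain ⟨k, hk, hk2⟩ := hH X Y hE' (E n) ⟨Nat.pair (f n) i, (hg n (f n) i).2 hi⟩
    have h1 := (hn k.unpair.1).1 ⟨k.unpair.2, (hg n _ _).1 (by rwa [Nat.pair_unpair])⟩
    refine hk2 ?_
    have h2 := hL n k.unpair.2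
    rwa [← h1, Nat.pair_unpair] at h2

end Pool.Agent.Work.MP_69fea5_lc.S5
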