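import Pool.Agent.Work.MP_69fea5_lc.S5.Stmts

set_option autoImplicit false

/-! PH: the dependence of the value on the value of a late marked node. -/

namespace Pool.Agent.Work.MP_69fea5_lc.S5

open Pool.Agent.Work.MP_69fea5_lc.TJ (A fT eT R1 spl FT node opn Dec join)

namespace PH_aux

lemma FT_diff (p : ℕ) (G : ℕ → A) {q i : ℕ} (hq : q ≤ i) (hi : i ≤ p) :
    FT p G q - FT p G i = G q - G i := by
  unfold FT
  rw [if_pos (hq.trans hi), if_pos hi]
  abel

lemma FT_add (p i : ℕ) (F G : ℕ → A) (hi : i ≤ p) (hG : ∀ q, i < q → G q = 0) :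
    FT p (F + G) = FT p F + G := by
  funext q
  have h1 : G (p + 1) = 0 := hG _ (by omega)
  by_cases hq : q ≤ p
  · simp only [FT, if_pos hq, Pi.add_apply, h1, add_zero]
    abel
  · simp only [FT, if_neg hq, Pi.add_apply, zero_add]
    exact (hG q (by omega)).symm

end PH_aux

open PH_aux in
theorem iPH (hA : TJ.StPA) (hO : TJ.StPO) (hD : StAD) : StPH := by
  intro g δ hg v c
  obtain ⟨-, -, -, hM, -, -, -, hN⟩ := hA g δ hg
  obtain ⟨-, hO2, hO3, hO4, hO5, hO6, -⟩ := hO g δ hg
  obtain ⟨-, hFT, hadd, -, -⟩ := hD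
  induction hn : v.length using Nat.strong_induction_on generalizing v with
  | _ n ih =>
    intro hev
    rcases hO4 c v with hv | ⟨u, y, v', hdec, hyc⟩
    · refine ⟨fun G => TJ.M g δ v + G, fun W hW => ?_, by simp, fun G G' h => hadd _ _ _ h,
        fun i _ G q _ => ?_, fun i _ G _ => rfl⟩
      · exact hM _ _ _ _ (hO5 c v W hW hv)
      · simp only [Pi.add_apply]
        abel
    · have h1 := hO3 c v u y v' hdec hyc
      rcases hO4 c v' with hv' | ⟨u', y', v'', hdec', hyc'⟩
      · exfalso
        rw [hO2 c v' hv'] at h1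
        rw [h1] at hev
        exact absurd hev (by decide)
      · have h2 := hO3 c v' u' y' v'' hdec' hyc'
        have hev' : Even (opn g c v'') := by
          rw [h1, h2] at hev
          rw [Nat.even_add_one, Nat.not_even_iff_odd, Nat.odd_add_one, Nat.not_odd_iff_even] at hev
          exact hev
        have hl1 : v'.length < v.length := by
          rw [hdec.1]; simp; omega
        have hl2 : v''.length < v'.length := by
          rw [hdec'.1]; simp; omega
        have hy' : y' ∈ v' := by rw [hdec'.1]; simp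
        have hyy' : g y y' = true := hdec.2.2 y' hy'
        have hsub : ∀ x ∈ v'', x ∈ v := by
          intro x hx
          rw [hdec.1, hdec'.1]
          simp [hx]
        have hyv : y ∈ v := by rw [hdec.1]; simp
        obtain ⟨Φ, hΦ1, hΦ2, hΦ3, hΦ4, hΦ5⟩ := ih v''.length (by omega) v'' rfl hev'
        have hMv : TJ.M g δ v = TJ.M g δ u + FT (δ y y') (TJ.M g δ v'') := by
          rw [hM _ _ _ _ hdec, hN y v' u' y' v'' hdec']
        have hp : ∀ i, (∀ x ∈ v, g x c = true → i ≤ δ x c) → i ≤ δ y y' := by
          intro i hi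
          have h3 := hi y hyv hyc
          rw [hg.scale y y' c hyy' hyc'] at h3
          exact h3.trans (min_le_left _ _)
        refine ⟨fun G => TJ.M g δ u + FT (δ y y') (Φ G), fun W hW => ?_, ?_,
          fun G G' h => hadd _ _ _ (hFT _ _ _ (hΦ3 _ _ h)), fun i hi G q hq => ?_,
          fun i hi G hG => ?_⟩
        · rw [hM _ _ _ _ (hO6 c v W u y v' hW hdec hyc),
            hN y _ _ _ _ (hO6 c v' W u' y' v'' hW hdec' hyc'), hΦ1 W hW]
        · simp only [hΦ2, hMv]
        · have h4 := hΦ4 i (fun x hx => hi x (hsub x hx)) G q hq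
          have h5 := FT_diff (δ y y') (Φ G) hq (hp i hi)
          have h6 := FT_diff (δ y y') (TJ.M g δ v'') hq (hp i hi)
          simp only [hMv, Pi.add_apply]
          calc TJ.M g δ u q + FT (δ y y') (Φ G) q - (TJ.M g δ u i + FT (δ y y') (Φ G) i)
              = (TJ.M g δ u q - TJ.M g δ u i) +
                (FT (δ y y') (Φ G) q - FT (δ y y') (Φ G) i) := by abel
            _ = (TJ.M g δ u q - TJ.M g δ u i) +
                ((FT (δ y y') (TJ.M g δ v'') q - FT (δ y y') (TJ.M g δ v'') i) +
                  (G q - G i)) := by rw [h5, h6, h4]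
            _ = _ := by abel
        · have h4 := hΦ5 i (fun x hx => hi x (hsub x hx)) G hG
          simp only [h4, FT_add _ i _ _ (hp i hi) hG, hMv]
          abel

end Pool.Agent.Work.MP_69fea5_lc.S5
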