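import Pool.Agent.Work.MP_69fea5_lc.S5.Stmts

set_option autoImplicit false

/-! Item PM of block S5. -/

namespace Pool.Agent.Work.MP_69fea5_lc.S5

namespace PM_aux

theorem small_dvd (r : ℕ) (h1 : 1 ≤ r) (h2 : r ≤ 8) : r ∣ 840 := by
  interval_cases r <;> decide

theorem period (P : Fin 8 → Fin 8) (hP : Function.Injective P) (q : Fin 8) :
    ∃ r, 1 ≤ r ∧ r ≤ 8 ∧ P^[r] q = q := by
  obtain ⟨i, j, hij, he⟩ := Fintype.exists_ne_map_eq_of_card_lt
    (fun i : Fin 9 => P^[i.val] q) (by simp)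
  have key : ∀ a b : ℕ, a < b → b ≤ 8 → P^[a] q = P^[b] q → ∃ r, 1 ≤ r ∧ r ≤ 8 ∧ P^[r] q = q := by
    intro a b hab hb h
    refine ⟨b - a, by omega, by omega, ?_⟩
    have h2 : P^[a] (P^[b - a] q) = P^[a] q := by
      rw [← Function.iterate_add_apply, show a + (b - a) = b by omega, h]
    exact hP.iterate a h2
  rcases lt_or_gt_of_ne (fun h => hij (Fin.ext h)) with h | h
  · exact key i.val j.val h (by omega) he
  · exact key j.val i.val h (by omega) he.symm

end PM_aux

theorem iPM : StPM := by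
  intro P hP n hn q
  obtain ⟨r, h1, h2, h3⟩ := PM_aux.period P hP q
  have hp : Function.IsPeriodicPt P r q := h3
  exact hp.trans_dvd ((PM_aux.small_dvd r h1 h2).trans hn)

end Pool.Agent.Work.MP_69fea5_lc.S5
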