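import Pool.Agent.Work.MP_69fea5_lc.S5.Stmts

set_option autoImplicit false

/-! Item PT: finitely many families at once. -/

namespace Pool.Agent.Work.MP_69fea5_lc.S5

open Pool.Agent.Work.MP_69fea5_lc.DJ (bits lo hi dec)
open Pool.Agent.Work.MP_69fea5_lc.TJ (A fT eT R1 spl FT node opn Dec join)

theorem iPT (hK : StBK) (hC : StEC) (hI : StEI) (hS : StSL) : StPT := by
  intro g δ hG K w c κ hF
  have h1 : ∀ k : Fin K, ∃ Ph : ℕ → List ℕ → (ℕ → A) → ℕ → A, StrictMono (κ k) →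
      ∀ z b X, Blk g (c k) z b X → BkP g δ (c k) (κ k) z b X (Ph b X) := by
    intro k
    by_cases hm : StrictMono (κ k)
    · obtain ⟨Ph, hPh⟩ := hK g δ hG (w k) (c k) (κ k) (hF k k.2).1 hm.monotone
      exact ⟨Ph, fun _ => hPh⟩
    · exact ⟨fun _ _ _ _ => 0, fun h => absurd h hm⟩
  choose Ph hPh using h1
  have hpar : ∀ (k : ℕ) (a : ℕ), par g (w k) (c k) a < 2 := fun k a => Nat.mod_lt _ (by norm_num)
  obtain ⟨d, hd⟩ := hS (Fin K → Fin 2) (Fin K → (A × A) × (Fin 8 × (Fin 8 → Fin 8)))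
    (fun z => ∀ k : Fin K, Fin (κ k z + 2) → A) inferInstance inferInstance
    (fun z => inferInstance)
    (fun a k => ⟨par g (w k) (c k) a, hpar k a⟩)
    (fun a₁ a₂ a₃ a₄ k => ((tp g δ (pr4 (w k) (c k) a₁ a₂ a₃ a₄) 0,
      tp g δ (pr4 (w k) (c k) a₁ a₂ a₃ a₄) (κ k 0 + 1)),
      (fT (tp g δ (pr4 (w k) (c k) a₁ a₂ a₃ a₄) 0),
        fun q => fT (Ph k a₄ (pr4 (w k) (c k) a₁ a₂ a₃ a₄) (pt (κ k a₄) q) 0))))
    (fun z a b k q => tp g δ (pr2 (w k) (c k) a b) q - tp g δ (pr2 (w k) (c k) a b) (κ k z + 1))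
  obtain ⟨s, hs⟩ := hd 840 0
  refine ⟨s, ?_, ?_, ?_⟩
  · rw [hs.len, N₀]
  · exact (List.pairwise_cons.1 hs.sorted).2
  intro k hk
  have hpp : ∀ a b : ℕ, ((fun k' : Fin K => (⟨par g (w k') (c k') a, hpar k' a⟩ : Fin 2)) =
      fun k' : Fin K => (⟨par g (w k') (c k') b, hpar k' b⟩ : Fin 2)) →
      par g (w k) (c k) a = par g (w k) (c k) b := by
    intro a b hab
    have := congrFun hab ⟨k, hk⟩
    simpa using this
  unfold sta
  rw [decide_eq_true_iff]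
  obtain ⟨hfm, hcs⟩ := hF k hk
  rcases hcs with hc | hm
  · have hn : ¬ StrictMono (κ k) := by
      intro hm
      have h0 := hm (show 0 < 1 by norm_num)
      rw [hc 1] at h0
      exact lt_irrefl _ h0
    have hch : Chn (QC g δ (w k) (c k) (κ k 0) (d ⟨k, hk⟩).1.1 (d ⟨k, hk⟩).1.2) 0 840 s := by
      refine Chn.mono ?_ hs
      rintro z a₁ a₂ a₃ a₄ ⟨⟨p1, p2, p3⟩, hD, -⟩
      have hDk := congrFun hD ⟨k, hk⟩
      refine ⟨hpp _ _ p1, hpp _ _ p2, hpp _ _ p3, ?_, ?_⟩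
      · exact congrArg (fun t => t.1.1) hDk
      · exact congrArg (fun t => t.1.2) hDk
    have hR := hC g δ hG (w k) (c k) (κ k) hfm (κ k 0) hc _ _ _ _ _ hch (by decide) (by norm_num)
    exact ⟨fun h => absurd hR h, fun h => absurd h hn⟩
  · have hch : Chn (QI g δ (w k) (c k) (κ k) (Ph ⟨k, hk⟩) (d ⟨k, hk⟩).2.1 (d ⟨k, hk⟩).2.2)
        0 840 s := by
      refine Chn.mono ?_ hs
      rintro z a₁ a₂ a₃ a₄ ⟨⟨p1, p2, p3⟩, hD, hE⟩
      have hDk := congrFun hD ⟨k, hk⟩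
      have hEk := congrFun hE ⟨k, hk⟩
      refine ⟨hpp _ _ p1, hpp _ _ p2, hpp _ _ p3, ?_, ?_, ?_⟩
      · exact congrArg (fun t => t.2.1) hDk
      · intro q
        exact congrFun (congrArg (fun t => t.2.2) hDk) q
      · intro q hq
        exact congrFun hEk ⟨q, by show q < κ k z + 2; omega⟩
    have hR := hI g δ hG (w k) (c k) (κ k) hfm hm (Ph ⟨k, hk⟩) (hPh ⟨k, hk⟩ hm) _ _ _ _ _ hch
      (dvd_refl _) (by norm_num)
    exact ⟨fun _ => hm, fun _ => hR⟩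

end Pool.Agent.Work.MP_69fea5_lc.S5
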