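import Pool.Agent.Work.MP_69fea5_lc.S5.Stmts

set_option autoImplicit false

/-! SL: selection of a chain of quadruples with equal data, by one nonprincipal ultrafilter. -/

namespace Pool.Agent.Work.MP_69fea5_lc.S5

open Filter

/-- A function with finitely many values is constant almost everywhere. -/
lemma sl_const {α : Type} (hα : Finite α) (f : ℕ → α) :
    ∃ x, ∀ᶠ n in (hyperfilter ℕ : Filter ℕ), f n = x := by
  obtain ⟨x, hx⟩ := Ultrafilter.eq_pure_of_finite ((hyperfilter ℕ).map f)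
  refine ⟨x, ?_⟩
  have h1 : {x} ∈ (hyperfilter ℕ).map f := by
    rw [hx]
    exact Ultrafilter.mem_pure.2 rfl
  rw [Ultrafilter.mem_map] at h1
  exact h1

lemma sl_gt (m : ℕ) : ∀ᶠ n in (hyperfilter ℕ : Filter ℕ), m < n :=
  (eventually_gt_atTop m).filter_mono Nat.hyperfilter_le_atTop

theorem iSL : StSL := by
  intro ρ β γ hρ hβ hγ p D E
  obtain ⟨p0, hp⟩ := sl_const hρ p
  choose D3 hD3 using fun a b c => sl_const hβ (fun n => D a b c n)
  choose D2 hD2 using fun a b => sl_const hβ (fun n => D3 a b n)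
  choose D1 hD1 using fun a => sl_const hβ (fun n => D2 a n)
  obtain ⟨d, hd⟩ := sl_const hβ D1
  choose E1 hE1 using fun z a => sl_const (hγ z) (fun n => E z a n)
  choose e he using fun z => sl_const (hγ z) (fun n => E1 z n)
  refine ⟨d, fun n => ?_⟩
  induction n with
  | zero => exact fun z => ⟨[], Chn.nil z⟩
  | succ n ih =>
    intro z
    obtain ⟨a₁, h11, h12, h13, h14⟩ := (((sl_gt (z + 1)).and (hp.and ((he z).and hd)))).exists
    obtain ⟨a₂, h21, h22, h23, h24⟩ :=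
      (((sl_gt (a₁ + 1)).and (hp.and ((hE1 z a₁).and (hD1 a₁))))).exists
    obtain ⟨a₃, h31, h32, h33, h34⟩ :=
      (((sl_gt (a₂ + 1)).and (hp.and ((he z).and (hD2 a₁ a₂))))).exists
    obtain ⟨a₄, h41, h42, h43, h44⟩ :=
      (((sl_gt (a₃ + 1)).and (hp.and ((hE1 z a₃).and (hD3 a₁ a₂ a₃))))).exists
    obtain ⟨s, hs⟩ := ih a₄
    refine ⟨a₁ :: a₂ :: a₃ :: a₄ :: s, Chn.cons z n a₁ a₂ a₃ a₄ s h11 h21 h31 h41 ?_ hs⟩
    exact ⟨⟨h12.trans h22.symm, h22.trans h32.symm, h32.trans h42.symm⟩,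
      h44.trans (h34.trans (h24.trans h14)), h23.trans (h13.trans (h33.symm.trans h43.symm))⟩

end Pool.Agent.Work.MP_69fea5_lc.S5
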