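import Pool.Agent.Work.MP_69fea5_lc.S5.Stmts
import Pool.Agent.Work.MP_69fea5_lc.TJ.V_Main5

set_option autoImplicit false

/-! No `Σ⁰₅` solutions: the theorem with 96 colours, from the statements of the lemmas. -/

namespace Pool.Agent.Work.MP_69fea5_lc.S5

open Pool.Agent.Work.MP_69fea5_lc.DJ Primrec
open Pool.Agent.Work.MP_69fea5_lc.TJ (colV R₀ Two HypVn)

/-- Six colours. -/
noncomputable def e6 (n : ℕ) : ℕ := 2 * col3 (col A₀.WE) n + (c5 n).toNat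

lemma e6_lt (n : ℕ) : e6 n < 6 := by
  have h1 : col3 (col A₀.WE) n < 3 := Nat.mod_lt _ (by norm_num)
  have h2 := Bool.toNat_le (c5 n)
  unfold e6
  omega

lemma pr_e6 (h : StGT) : Primrec e6 :=
  nat_add.comp (nat_mul.comp (const 2) (pr_col3 (pr_col A₀_prim.WE)))
    ((Primrec.dom_bool Bool.toNat).comp h)

lemma e6_inj {n m : ℕ} (h : e6 n = e6 m) :
    col3 (col A₀.WE) n = col3 (col A₀.WE) m ∧ c5 n = c5 m := by
  unfold e6 at h
  cases h1 : c5 n <;> cases h2 : c5 m <;> rw [h1, h2] at h <;>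
    simp only [Bool.toNat_false, Bool.toNat_true] at h <;> first
      | exact ⟨by omega, rfl⟩
      | (exfalso; omega)

/-- The colouring with 96 colours. -/
noncomputable def e96 (n : ℕ) : ℕ := 16 * e6 n + (4 * (colV R₀ n).1.val + (colV R₀ n).2.val)

lemma e96_lt (n : ℕ) : e96 n < 96 := by
  have h1 := e6_lt n
  have h2 := (colV R₀ n).1.isLt
  have h3 := (colV R₀ n).2.isLt
  unfold e96
  omega

lemma e96_inj {n m : ℕ} (h : e96 n = e96 m) :
    col3 (col A₀.WE) n = col3 (col A₀.WE) m ∧ c5 n = c5 m ∧ colV R₀ n = colV R₀ m := by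
  have h2 := (colV R₀ n).1.isLt
  have h3 := (colV R₀ n).2.isLt
  have h4 := (colV R₀ m).1.isLt
  have h5 := (colV R₀ m).2.isLt
  unfold e96 at h
  have h6 := e6_inj (show e6 n = e6 m by omega)
  refine ⟨h6.1, h6.2, Prod.ext (Fin.ext (by omega)) (Fin.ext (by omega))⟩

lemma pr_e96 (hP : TJ.StPR2) (h1 : TJ.StF1) (hG : StGT) : Primrec e96 := by
  have h2 := TJ.pr_colV hP R₀ h1.2.1
  have h3 : Primrec fun n => ((colV R₀ n).1 : ℕ) := Primrec.fin_val.comp (Primrec.fst.comp h2)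
  have h4 : Primrec fun n => ((colV R₀ n).2 : ℕ) := Primrec.fin_val.comp (Primrec.snd.comp h2)
  exact Primrec.nat_add.comp (Primrec.nat_mul.comp (Primrec.const 16) (pr_e6 hG))
    (Primrec.nat_add.comp (Primrec.nat_mul.comp (Primrec.const 4) h3) h4)

/-- What the three colours of the base colouring give. -/
lemma base {X : Set ℕ} (hX : X.Infinite) (hpos : ∀ x ∈ X, 0 < x)
    (hc : Mono4 (col3 (col A₀.WE)) X) : Two X ∧ ∀ B, ∃ x ∈ X, B ≤ x ∧ 2 ^ B ∣ x := by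
  classical
  obtain ⟨t, h1, h2, h3, h4⟩ := hc.sums
  constructor
  · intro S R hR hS
    obtain ⟨e, he⟩ := sigma_two_reduce hR hS
    have k1 := computesK4 A₀_prim hX hpos h1 h2 h3 h4
    have k2 := comp_rec k1 (g := fun n => Nat.pair e n)
      (Primrec₂.natPair.comp (const e) Primrec.id)
    refine k2.of_eq (fun n => ?_)
    unfold chi
    simp only [he]
  · have hf := fiber_finite hpos h1 h2 h4
    intro B
    obtain ⟨y, hy, hBy, hmod⟩ := exists_next hX hpos hf B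
    exact ⟨y, hy, hBy.le, Nat.dvd_of_mod_eq_zero hmod⟩

/-- The base colouring on the sums of at most four terms. -/
lemma base_mono {X : Set ℕ} (hX : X.Infinite) {k : ℕ} (hk : 4 ≤ k)
    (hc : ∃ b, ∀ F : Finset ℕ, F.Nonempty → F.card ≤ k → (↑F : Set ℕ) ⊆ X →
      e96 (∑ x ∈ F, x) = b) : Mono4 (col3 (col A₀.WE)) X ∧ ∃ x₀ ∈ X,
    ∀ F : Finset ℕ, F.Nonempty → F.card ≤ k → (↑F : Set ℕ) ⊆ X →
      c5 (∑ x ∈ F, x) = c5 x₀ ∧ colV R₀ (∑ x ∈ F, x) = colV R₀ x₀ := by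
  classical
  obtain ⟨b, hb⟩ := hc
  obtain ⟨x₀, hx₀⟩ := hX.nonempty
  have hb₀ : e96 x₀ = b := by
    have := hb {x₀} (by simp) (by simp; omega) (by simpa using hx₀)
    simpa using this
  refine ⟨⟨col3 (col A₀.WE) x₀, fun F h1 h2 h3 =>
      (e96_inj ((hb F h1 (by omega) h3).trans hb₀.symm)).1⟩, x₀, hx₀, fun F h1 h2 h3 =>
      (e96_inj ((hb F h1 h2 h3).trans hb₀.symm)).2⟩

/-- Sums of at most five terms. -/
theorem main3 (l1 : TJ.StL1) (l3 : TJ.StL3) (l4 : TJ.StL4) (l5 : TJ.StL5) (hw : TJ.StW)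
    (cs : TJ.StCS) (f1 : TJ.StF1) (f2 : TJ.StF2) (f3 : TJ.StF3) {X : Set ℕ} (hX : X.Infinite)
    (hpos : ∀ x ∈ X, 0 < x)
    (hc : ∃ b, ∀ F : Finset ℕ, F.Nonempty → F.card ≤ 5 → (↑F : Set ℕ) ⊆ X →
      e96 (∑ x ∈ F, x) = b) (T : Set ℕ) (Q : ℕ → ℕ → ℕ → ℕ → Bool)
    (hQ : Computable fun t : ℕ × ℕ × ℕ × ℕ => Q t.1 t.2.1 t.2.2.1 t.2.2.2)
    (hT : ∀ n, n ∈ T ↔ ∃ s, ∀ t, ∃ u, Q n s t u = true) : Nat.RecursiveIn {chi X} (chi T) := by
  classical
  obtain ⟨hm, x₀, -, hcol⟩ := base_mono hX (by norm_num : 4 ≤ 5) hc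
  obtain ⟨two, far⟩ := base hX hpos hm
  have h0 : 0 ∉ X := fun h => lt_irrefl _ (hpos 0 h)
  have hyp : HypVn 1 R₀ X := by
    refine ⟨h0, far, colV R₀ x₀, fun f hf hf5 => ?_⟩
    have e : ∑ x ∈ (bits f).toFinset, x = S f := by
      rw [List.sum_toFinset _ (nodup_bits f)]
      simp [S]
    have h1 := hcol (bits f).toFinset (by
      rw [List.toFinset_nonempty_iff]
      exact bits_ne_nil hf.1) (by
      rw [List.toFinset_card_of_nodup (nodup_bits f)]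
      exact hf5) (by
      intro i hi
      rw [List.coe_toFinset] at hi
      exact hf.2 i hi)
    rw [e] at h1
    exact h1.2
  have hcl := TJ.iCLVn 1 l1 l4 l5 hw cs R₀ X f1.1 hyp
  have h5 := TJ.iF7 l1 l3 l4 f1 f2 f3 X two far h0 (fun l σ hσ x hx hl e he => by
    have e1 : S (2 ^ x) = x := by
      unfold S
      rw [bits_two_pow]
      simp
    refine hcl l σ hσ (2 ^ x) ⟨by positivity, fun i hi => ?_⟩ ?_ ?_ e ?_
    · rw [bits_two_pow, List.mem_singleton] at hi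
      rw [hi]
      exact hx
    · rw [bits_two_pow]
      simp
    · unfold lam
      rw [e1]
      exact hl
    · unfold mu
      rw [e1]
      exact he)
  obtain ⟨e, he⟩ := f1.2.2 T Q hQ hT
  have h6 := comp_rec h5 (g := fun n => Nat.pair e n + 1)
    (Primrec.succ.comp (Primrec₂.natPair.comp (Primrec.const e) Primrec.id))
  refine h6.of_eq (fun n => ?_)
  unfold chi
  simp only [he n, Set.mem_ofPred_eq]

/-- Sums of at most `N₀ + 1` terms. -/
theorem main5 (hK : StK) (hM : StM) {X : Set ℕ} (hX : X.Infinite) (hpos : ∀ x ∈ X, 0 < x)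
    (hc : ∃ b, ∀ F : Finset ℕ, F.Nonempty → F.card ≤ N₀ + 1 → (↑F : Set ℕ) ⊆ X →
      e96 (∑ x ∈ F, x) = b) : Concl X := by
  obtain ⟨hm, x₀, -, hcol⟩ := base_mono hX (by unfold N₀; omega : 4 ≤ N₀ + 1) hc
  obtain ⟨-, far⟩ := base hX hpos hm
  refine hM X X (hK X hX hpos (fun B => ?_) ⟨c5 x₀, fun F h1 h2 h3 => (hcol F h1 h2 h3).1⟩)
  obtain ⟨x, hx, -, hd⟩ := far B
  exact ⟨x, hx, hpos x hx, hd⟩

end Pool.Agent.Work.MP_69fea5_lc.S5
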