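import Pool.Agent.Work.MP_69fea5_lc.TJ.Final
import Pool.Agent.Work.MP_69fea5_lc.TJ.I_PA
import Pool.Agent.Work.MP_69fea5_lc.TJ.I_PO
import Pool.Agent.Work.MP_69fea5_lc.TJ.I_PR1
import Pool.Agent.Work.MP_69fea5_lc.S5.Main
import Pool.Agent.Work.MP_69fea5_lc.S5.I_AD
import Pool.Agent.Work.MP_69fea5_lc.S5.I_BK
import Pool.Agent.Work.MP_69fea5_lc.S5.I_BL
import Pool.Agent.Work.MP_69fea5_lc.S5.I_C
import Pool.Agent.Work.MP_69fea5_lc.S5.I_EC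
import Pool.Agent.Work.MP_69fea5_lc.S5.I_EI
import Pool.Agent.Work.MP_69fea5_lc.S5.I_GN
import Pool.Agent.Work.MP_69fea5_lc.S5.I_GS
import Pool.Agent.Work.MP_69fea5_lc.S5.I_GT
import Pool.Agent.Work.MP_69fea5_lc.S5.I_H
import Pool.Agent.Work.MP_69fea5_lc.S5.I_I
import Pool.Agent.Work.MP_69fea5_lc.S5.I_J
import Pool.Agent.Work.MP_69fea5_lc.S5.I_K
import Pool.Agent.Work.MP_69fea5_lc.S5.I_LA
import Pool.Agent.Work.MP_69fea5_lc.S5.I_LBC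
import Pool.Agent.Work.MP_69fea5_lc.S5.I_LD
import Pool.Agent.Work.MP_69fea5_lc.S5.I_LE
import Pool.Agent.Work.MP_69fea5_lc.S5.I_LF
import Pool.Agent.Work.MP_69fea5_lc.S5.I_LG
import Pool.Agent.Work.MP_69fea5_lc.S5.I_M
import Pool.Agent.Work.MP_69fea5_lc.S5.I_PH
import Pool.Agent.Work.MP_69fea5_lc.S5.I_PM
import Pool.Agent.Work.MP_69fea5_lc.S5.I_PT
import Pool.Agent.Work.MP_69fea5_lc.S5.I_SL
import Pool.Agent.Work.MP_69fea5_lc.S5.I_SQ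

set_option autoImplicit false

/-! No `Σ⁰₅` solutions: all lemmas plugged in. -/

namespace Pool.Agent.Work.MP_69fea5_lc.S5

open Pool.Agent.Work.MP_69fea5_lc.DJ (chi)

theorem m_final : StM := by
  have hPH := iPH TJ.iPA TJ.iPO iAD
  have hBK := iBK TJ.iPA TJ.iPO hPH
  have hBL := iBL TJ.iPO
  have hEC := iEC hBK hBL
  have hEI := iEI iAD hBL iPM
  have hPT := iPT hBK hEC hEI iSL
  have hLE := iLE iLD
  have hSQ := iSQ iLA (iLB iLA) iLC (iLF iLA iLD hLE) (iLG iLA iLD hLE)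
  exact iM (iH (iC hPT iLA hSQ) (S4.e_of S4.d1 S4.d2) S4.f1) (iI S4.f2) (iJ S4.f2) S4.j2

theorem gt_final : StGT := iGT (iGS TJ.iPR1 (iGN S4.g1)) S4.g4

theorem pr_final : Primrec e96 := pr_e96 TJ.iPR2 TJ.iF1 gt_final

/-- Sums of at most five terms. -/
theorem final3 {X : Set ℕ} (hX : X.Infinite) (hpos : ∀ x ∈ X, 0 < x)
    (hc : ∃ b, ∀ F : Finset ℕ, F.Nonempty → F.card ≤ 5 → (↑F : Set ℕ) ⊆ X →
      e96 (∑ x ∈ F, x) = b) (T : Set ℕ) (Q : ℕ → ℕ → ℕ → ℕ → Bool)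
    (hQ : Computable fun t : ℕ × ℕ × ℕ × ℕ => Q t.1 t.2.1 t.2.2.1 t.2.2.2)
    (hT : ∀ n, n ∈ T ↔ ∃ s, ∀ t, ∃ u, Q n s t u = true) : Nat.RecursiveIn {chi X} (chi T) :=
  main3 TJ.iL1 TJ.iL3 (TJ.iL4 TJ.iL1 (TJ.iL2 TJ.iL1))
    (TJ.iL5 TJ.iL1 (TJ.iL2 TJ.iL1) (TJ.iL4 TJ.iL1 (TJ.iL2 TJ.iL1))) TJ.iW TJ.iCS TJ.iF1
    (TJ.iF2 TJ.iF1 TJ.iPR2) TJ.iF3 hX hpos hc T Q hQ hT

/-- Sums of at most `N₀ + 1` terms. -/
theorem final5 {X : Set ℕ} (hX : X.Infinite) (hpos : ∀ x ∈ X, 0 < x)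
    (hc : ∃ b, ∀ F : Finset ℕ, F.Nonempty → F.card ≤ N₀ + 1 → (↑F : Set ℕ) ⊆ X →
      e96 (∑ x ∈ F, x) = b) : Concl X :=
  main5 iK m_final hX hpos hc

end Pool.Agent.Work.MP_69fea5_lc.S5
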