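import Pool.Agent.Work.MP_69fea5_lc.S5.Stmts

set_option autoImplicit false

/-! No `Σ⁰₅` solutions, item EC: the value of a chain, constant depth. -/

namespace Pool.Agent.Work.MP_69fea5_lc.S5

open Pool.Agent.Work.MP_69fea5_lc.DJ (bits lo hi dec chi)
open Pool.Agent.Work.MP_69fea5_lc.TJ (A fT eT R1 spl FT node opn Dec join)
open Pool.Agent.Work.MP_69fea5_lc.S4 (gg co lst Lst)

namespace EC_aux

theorem key (hK : StBK) (hL : StBL) (g : ℕ → ℕ → Bool) (δ : ℕ → ℕ → ℕ) (hG : TJ.Good g δ)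
    (w : ℕ → List ℕ) (c κ : ℕ → ℕ) (hF : Fm g δ w c κ) (i : ℕ) (hκ : ∀ a, κ a = i) (d₀ x : A)
    (z n : ℕ) (s : List ℕ) (h : Chn (QC g δ w c i d₀ x) z n s) : 0 < n →
    (∀ a ≤ z, node g δ (c a) (join w c s) = FT (κ a) (tp g δ (join w c s))) ∧
    tp g δ (join w c s) (i + 1) = x ∧
    tp g δ (join w c s) 0 = if Even n then eT (fT x) - x else d₀ := by
  have hmono : Monotone κ := by
    intro a b _
    rw [hκ, hκ]
  obtain ⟨Ph, hPh⟩ := hK g δ hG w c κ hF hmono
  obtain ⟨L1, L2, L3, L4, L5⟩ := hL g δ hG w c κ hF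
  induction h with
  | nil z => intro h; omega
  | cons z n a₁ a₂ a₃ a₄ s h1 h2 h3 h4 hq hc ih =>
    intro _
    obtain ⟨e1, e2, e3, e4, e5⟩ := hq
    have hB : Blk g c z a₄ (pr4 w c a₁ a₂ a₃ a₄) :=
      L2 z a₂ a₄ _ _ (L1 z a₁ a₂ h1 (by omega) e1) (L1 a₂ a₃ a₄ h3 (by omega) e3)
    have hP := hPh z a₄ _ hB
    rcases Nat.eq_zero_or_pos n with rfl | hn
    · cases hc
      rw [L4]
      refine ⟨fun a ha => hP.nod a ha, e5, ?_⟩
      simp [e4]
    · obtain ⟨i1, i2, i3⟩ := ih hn
      have hs : ∃ b s', s = b :: s' ∧ a₄ + 1 < b := by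
        cases hc with
        | nil => omega
        | cons _ _ b₁ b₂ b₃ b₄ s' hb _ _ _ _ _ => exact ⟨b₁, _, rfl, hb⟩
      obtain ⟨b, s', rfl, hb⟩ := hs
      have hsort : (b :: s').Pairwise (· < ·) := (List.pairwise_cons.1 hc.sorted).2
      have hW : ∀ x ∈ join w c (b :: s'), g (c a₄) x = true := L5 a₄ b s' (by omega) hsort
      rw [L3]
      have happ := hP.app _ hW
      have hN := i1 a₄ le_rfl
      rw [hκ] at hN
      have hex := hP.exact (node g δ (c a₄) (join w c (b :: s'))) (by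
        intro q hq
        rw [hκ] at hq
        rw [hN]
        unfold FT
        rw [if_neg (by omega)])
      rw [hex, hN] at happ
      refine ⟨fun a ha => hP.nodW a ha _ hW, ?_, ?_⟩
      · rw [happ, Pi.add_apply, e5]
        unfold FT
        rw [if_neg (by omega), add_zero]
      · rw [happ, Pi.add_apply, e4]
        unfold FT
        rw [if_pos (Nat.zero_le _), i2, i3]
        have h2 := TJ.table_2
        by_cases he : Even n
        · have hne : ¬ Even (n + 1) := by rw [Nat.even_add_one]; exact not_not.2 he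
          rw [if_pos he, if_neg hne]
          have e : d₀ + (eT (fT x) - x - x + eT (fT x)) =
              d₀ + ((eT (fT x) + eT (fT x)) - (x + x)) := by abel
          rw [e, h2, h2, sub_zero, add_zero]
        · have hne : Even (n + 1) := by rw [Nat.even_add_one]; exact he
          rw [if_neg he, if_pos hne]
          have e : d₀ + (d₀ - x + eT (fT x)) = (d₀ + d₀) + (eT (fT x) - x) := by abel
          rw [e, h2, zero_add]

end EC_aux

theorem iEC (hK : StBK) (hL : StBL) : StEC := by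
  intro g δ hG w c κ hF i hκ d₀ x z n s hs hn h0
  obtain ⟨-, -, h⟩ := EC_aux.key hK hL g δ hG w c κ hF i hκ d₀ x z n s hs h0
  rw [h, if_pos hn]
  have hneg : eT (fT x) - x = x - eT (fT x) := by
    have h2 := TJ.table_2
    have e : eT (fT x) - x = (x - eT (fT x)) + ((eT (fT x) + eT (fT x)) - (x + x)) := by abel
    rw [e, h2, h2, sub_zero, add_zero]
  rw [hneg]
  exact TJ.table_c x

end Pool.Agent.Work.MP_69fea5_lc.S5
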