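import Pool.Agent.Work.MP_69fea5_lc.S5.Stmts

set_option autoImplicit false

/-! Items LB, LC. -/

namespace Pool.Agent.Work.MP_69fea5_lc.S5

open Pool.Agent.Work.MP_69fea5_lc.DJ (bits lo hi dec hi_append)

namespace LBC_aux

theorem asymm (hA : StLA) {x y : ℕ} (h1 : gt x y = true) (h2 : gt y x = true) : False := by
  have h3 := hA.1.trans x y x h1 h2
  rw [hA.1.irrefl x] at h3
  exact Bool.noConfusion h3

/-- The fold step. -/
def stepF (h : ℕ → ℕ → ℕ → ℕ) (a m s : ℕ) : ℕ :=
  if a < s ∧ gt (cd h s) m = true then cd h s else m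

theorem inv (hA : StLA) (h : ℕ → ℕ → ℕ → ℕ) (a b : ℕ) (hab : a < b) :
    ∀ n ≤ b, (∃ s, a < s ∧ s ≤ b ∧ (List.range n).foldl (stepF h a) (cd h b) = cd h s) ∧
      (∀ s, a < s → s < n → cd h s = (List.range n).foldl (stepF h a) (cd h b) ∨
        gt ((List.range n).foldl (stepF h a) (cd h b)) (cd h s) = true) ∧
      (cd h b = (List.range n).foldl (stepF h a) (cd h b) ∨
        gt ((List.range n).foldl (stepF h a) (cd h b)) (cd h b) = true) := by
  intro n
  induction n with
  | zero =>
    intro _
    exact ⟨⟨b, hab, le_refl _, rfl⟩, fun s _ h2 => absurd h2 (Nat.not_lt_zero _), Or.inl rfl⟩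
  | succ n ih =>
    intro hn
    obtain ⟨i1, i2, i3⟩ := ih (by omega)
    rw [List.range_succ, List.foldl_append]
    show (∃ s, a < s ∧ s ≤ b ∧ stepF h a ((List.range n).foldl (stepF h a) (cd h b)) n = cd h s) ∧
      (∀ s, a < s → s < n + 1 →
        cd h s = stepF h a ((List.range n).foldl (stepF h a) (cd h b)) n ∨
        gt (stepF h a ((List.range n).foldl (stepF h a) (cd h b)) n) (cd h s) = true) ∧
      (cd h b = stepF h a ((List.range n).foldl (stepF h a) (cd h b)) n ∨
        gt (stepF h a ((List.range n).foldl (stepF h a) (cd h b)) n) (cd h b) = true)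
    generalize (List.range n).foldl (stepF h a) (cd h b) = F at i1 i2 i3 ⊢
    unfold stepF
    by_cases hc : a < n ∧ gt (cd h n) F = true
    · rw [if_pos hc]
      refine ⟨⟨n, hc.1, by omega, rfl⟩, ?_, ?_⟩
      · intro s h1 h2
        rcases Nat.lt_succ_iff_lt_or_eq.mp h2 with h3 | h3
        · rcases i2 s h1 h3 with h4 | h4
          · right; rw [h4]; exact hc.2
          · right; exact hA.1.trans _ _ _ hc.2 h4
        · left; rw [h3]
      · rcases i3 with h4 | h4
        · right; rw [h4]; exact hc.2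
        · right; exact hA.1.trans _ _ _ hc.2 h4
    · rw [if_neg hc]
      refine ⟨i1, ?_, i3⟩
      intro s h1 h2
      rcases Nat.lt_succ_iff_lt_or_eq.mp h2 with h3 | h3
      · exact i2 s h1 h3
      · subst h3
        by_cases h4 : cd h s = F
        · exact Or.inl h4
        · rcases hA.1.total _ _ h4 with h5 | h5
          · exact absurd ⟨h1, h5⟩ hc
          · exact Or.inr h5

theorem ltr_eq (h : ℕ → ℕ → ℕ → ℕ) (a b : ℕ) :
    ltr h a b = (List.range b).foldl (stepF h a) (cd h b) := rfl

theorem p1 (hA : StLA) (h : ℕ → ℕ → ℕ → ℕ) (a b : ℕ) (hab : a < b) :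
    (∃ s, a < s ∧ s ≤ b ∧ ltr h a b = cd h s) ∧
      ∀ s, a < s → s ≤ b → cd h s = ltr h a b ∨ gt (ltr h a b) (cd h s) = true := by
  obtain ⟨i1, i2, i3⟩ := inv hA h a b hab b (le_refl _)
  rw [ltr_eq]
  refine ⟨i1, fun s h1 h2 => ?_⟩
  rcases Nat.lt_or_eq_of_le h2 with h3 | h3
  · exact i2 s h1 h3
  · rw [h3]; exact i3

end LBC_aux

theorem iLB (hA : StLA) : StLB := by
  intro h
  refine ⟨fun a b hab => LBC_aux.p1 hA h a b hab, ?_, ?_⟩
  · rintro a e ⟨⟨s, hs, hes⟩, he⟩
    refine ⟨s, fun b hb => ?_⟩
    obtain ⟨⟨s', h1, h2, h3⟩, h4⟩ := LBC_aux.p1 hA h a b (by omega)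
    rcases h4 s hs hb with h5 | h5
    · rw [hes]; exact h5.symm
    · rcases he s' h1 with h6 | h6
      · rw [h3]; exact h6
      · exfalso
        rw [← h3] at h6
        rw [← hes] at h5
        exact LBC_aux.asymm hA h5 h6
  · rintro a e e' ⟨⟨s, hs, hes⟩, he⟩ ⟨⟨s', hs', hes'⟩, he'⟩
    rcases he s' hs' with h1 | h1
    · rw [hes']; exact h1.symm
    · rcases he' s hs with h2 | h2
      · rw [hes]; exact h2
      · exfalso
        rw [← hes'] at h1
        rw [← hes] at h2
        exact LBC_aux.asymm hA h1 h2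

theorem iLC : StLC := by
  intro h
  constructor
  · intro L M hL hM
    induction L with
    | nil => exact absurd rfl hL
    | cons a L ih =>
      cases L with
      | nil =>
        cases M with
        | nil => exact absurd rfl hM
        | cons b M => simp [wrd, hi, lo]
      | cons b L =>
        have h1 : hi (a :: b :: L) = hi (b :: L) := by
          simp [hi]
        have := ih (by simp)
        rw [List.cons_append] at this
        rw [List.cons_append, List.cons_append, wrd, this, wrd, h1]
        rfl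
  · intro L
    induction L with
    | nil => intro _ x hx; simp [wrd] at hx
    | cons a L ih =>
      cases L with
      | nil => intro _ x hx; simp [wrd] at hx
      | cons b L =>
        intro hp x hx
        rw [List.pairwise_cons] at hp
        rw [wrd, List.mem_cons] at hx
        rcases hx with hx | hx
        · exact ⟨a, by simp, b, by simp, hp.1 b (by simp), hx⟩
        · obtain ⟨a', h1, b', h2, h3, h4⟩ := ih hp.2 x hx
          exact ⟨a', List.mem_cons_of_mem _ h1, b', List.mem_cons_of_mem _ h2, h3, h4⟩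

end Pool.Agent.Work.MP_69fea5_lc.S5
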