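import Pool.Agent.Work.MP_69fea5_lc.S5.Stmts

set_option autoImplicit false

/-! No `Σ⁰₅` solutions, item SQ: a sequence of elements of `Y` which is good for finitely many
tests. -/

namespace Pool.Agent.Work.MP_69fea5_lc.S5

open Pool.Agent.Work.MP_69fea5_lc.DJ (bits lo hi dec bits_add bits_ne_nil lo_mem hi_mem lo_append
  le_of_mem_bits sorted_bits)
open Pool.Agent.Work.MP_69fea5_lc.TJ (join)

namespace SQ_aux

lemma exists_lim (hF : StLF) (hG : StLG) (h : ℕ → ℕ → ℕ → ℕ) (hM : Mo h) :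
    ∃ (e d : ℕ → ℕ) (a₀ : ℕ), Lim h e d a₀ ∧
      ((Gd h ∧ ∀ m, ∃ a₁, ∀ a, a₁ ≤ a → m ≤ d a) ∨ (¬ Gd h ∧ ∀ a, a₀ ≤ a → d a = d a₀)) := by
  by_cases hg : Gd h
  · obtain ⟨e, d, a₀, h1, h2⟩ := hG h hM hg
    exact ⟨e, d, a₀, h1, Or.inl ⟨hg, h2⟩⟩
  · obtain ⟨e, d, a₀, i, h1, h2⟩ := hF h hM hg
    refine ⟨e, d, a₀, h1, Or.inr ⟨hg, fun a ha => ?_⟩⟩
    rw [h2 a ha, h2 a₀ le_rfl]

lemma bits_sum (y : ℕ → ℕ) (hdiv : ∀ a b, a < b → 2 ^ y a ∣ y b) (b : ℕ) (s : List ℕ)
    (hs : (b :: s).Pairwise (· < ·)) :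
    bits (((b :: s).map y).sum) = bits (y b) ++ bits ((s.map y).sum) := by
  rw [List.map_cons, List.sum_cons]
  refine bits_add (k := y b) Nat.lt_two_pow_self ?_
  apply List.dvd_sum
  intro x hx
  obtain ⟨a, ha, rfl⟩ := List.mem_map.1 hx
  exact hdiv b a (List.rel_of_pairwise_cons hs ha)

lemma wrd_sum (hC : StLC) (h : ℕ → ℕ → ℕ → ℕ) (y : ℕ → ℕ) (hpos : ∀ a, 0 < y a)
    (hdiv : ∀ a b, a < b → 2 ^ y a ∣ y b) (c : ℕ → ℕ)
    (hc : ∀ a b, a < b → ltr h (hi (bits (y a))) (lo (bits (y b))) = c a) :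
    ∀ s : List ℕ, s ≠ [] → s.Pairwise (· < ·) →
      wrd h (bits ((s.map y).sum)) = join (fun a => wrd h (bits (y a))) c s := by
  intro s
  induction s with
  | nil => intro h1; exact absurd rfl h1
  | cons a s ih =>
    intro _ hs
    cases s with
    | nil => simp [join]
    | cons b s =>
      have hs2 : (b :: s).Pairwise (· < ·) := (List.pairwise_cons.1 hs).2
      have hab : a < b := List.rel_of_pairwise_cons hs (List.mem_cons_self)
      have e1 := bits_sum y hdiv a (b :: s) hs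
      have e2 := bits_sum y hdiv b s hs2
      have n2 : bits (((b :: s).map y).sum) ≠ [] := by
        rw [e2]
        simp [bits_ne_nil (hpos b)]
      rw [e1, (hC h).1 _ _ (bits_ne_nil (hpos a)) n2, ih (by simp) hs2, e2,
        lo_append (bits_ne_nil (hpos b)), hc a b hab]
      rfl

end SQ_aux

open SQ_aux in
theorem iSQ (hA : StLA) (hB : StLB) (hC : StLC) (hF : StLF) (hG : StLG) : StSQ := by
  intro K h hM Y hY B
  have _ := hA
  choose e d a₀ hL hcase using fun k => exists_lim hF hG (h k) (hM k)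
  -- bounds
  have hb1 : ∀ k p, ∃ b, a₀ k ≤ p → ∀ s, b ≤ s →
      gt (e k p) (cd (h k) s) = true ∧ dl (e k p) (e k s) = d k p := by
    intro k p
    by_cases hp : a₀ k ≤ p
    · obtain ⟨b, hb⟩ := (hL k).2 p hp
      exact ⟨b, fun _ => hb⟩
    · exact ⟨0, fun hc => absurd hc hp⟩
  choose B1 hB1 using hb1
  have hb2 : ∀ k p, ∃ b, a₀ k ≤ p → ∀ s, b ≤ s → ltr (h k) p s = e k p := by
    intro k p
    by_cases hp : a₀ k ≤ p
    · obtain ⟨b, hb⟩ := (hB (h k)).2.1 p (e k p) ((hL k).1 p hp)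
      exact ⟨b, fun _ => hb⟩
    · exact ⟨0, fun hc => absurd hc hp⟩
  choose B2 hB2 using hb2
  have hb3 : ∀ k p, ∃ b, Gd (h k) → ∀ s, b ≤ s → d k p + 1 ≤ d k s := by
    intro k p
    rcases hcase k with ⟨hg, hd⟩ | ⟨hg, -⟩
    · obtain ⟨b, hb⟩ := hd (d k p + 1)
      exact ⟨b, fun _ => hb⟩
    · exact ⟨0, fun hc => absurd hc hg⟩
  choose B3 hB3 using hb3
  set T' := B + ∑ k ∈ Finset.range K, a₀ k with hT'
  have hTk : ∀ k < K, a₀ k ≤ T' := by
    intro k hk
    have := Finset.single_le_sum (f := a₀) (fun i _ => Nat.zero_le _) (Finset.mem_range.2 hk)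
    omega
  set Cc : ℕ → ℕ := fun y => ∑ k ∈ Finset.range K,
    (B1 k (hi (bits y)) + B2 k (hi (bits y)) + B3 k (hi (bits y))) with hCc
  have hCk : ∀ k < K, ∀ y, B1 k (hi (bits y)) + B2 k (hi (bits y)) + B3 k (hi (bits y)) ≤ Cc y := by
    intro k hk y
    exact Finset.single_le_sum
      (f := fun k => B1 k (hi (bits y)) + B2 k (hi (bits y)) + B3 k (hi (bits y)))
      (fun i _ => Nat.zero_le _) (Finset.mem_range.2 hk)
  -- the sequence
  choose nx hnxY hnx0 hnxd using hY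
  let y : ℕ → ℕ := fun n => Nat.rec (nx T') (fun _ p => nx (p + Cc p)) n
  have yY : ∀ n, y n ∈ Y := by
    intro n
    cases n with
    | zero => exact hnxY _
    | succ n => exact hnxY _
  have ypos : ∀ n, 0 < y n := by
    intro n
    cases n with
    | zero => exact hnx0 _
    | succ n => exact hnx0 _
  have ydv1 : ∀ n, 2 ^ (y n + Cc (y n)) ∣ y (n + 1) := fun n => hnxd _
  have lt_of_dvd : ∀ m n, 0 < n → 2 ^ m ∣ n → m < n := by
    intro m n hn hd
    exact lt_of_lt_of_le Nat.lt_two_pow_self (Nat.le_of_dvd hn hd)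
  have ydv : ∀ i j, i < j → 2 ^ (y i + Cc (y i)) ∣ y j := by
    intro i j hij
    induction j, hij using Nat.le_induction with
    | base => exact ydv1 i
    | succ j hj ih =>
      have h := lt_of_dvd _ _ (ypos j) ih
      exact (pow_dvd_pow 2 (by omega)).trans (ydv1 j)
  have yT : ∀ n, 2 ^ T' ∣ y n := by
    intro n
    cases n with
    | zero => exact hnxd _
    | succ n =>
      have h0 : 2 ^ T' ∣ y 0 := hnxd _
      have h := lt_of_dvd _ _ (ypos 0) h0
      exact (pow_dvd_pow 2 (by omega)).trans (ydv 0 (n + 1) (by omega))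
  have hHi : ∀ k < K, ∀ a, a₀ k ≤ hi (bits (y a)) := by
    intro k hk a
    have h1 := le_of_mem_bits (yT a) (hi_mem (bits_ne_nil (ypos a)))
    have h2 := hTk k hk
    omega
  have hfar : ∀ k < K, ∀ a b, a < b → ∀ i ∈ bits (y b),
      B1 k (hi (bits (y a))) ≤ i ∧ B2 k (hi (bits (y a))) ≤ i ∧ B3 k (hi (bits (y a))) ≤ i := by
    intro k hk a b hab i hi'
    have h1 := le_of_mem_bits (ydv a b hab) hi'
    have h2 := hCk k hk (y a)
    omega
  refine ⟨y, fun k a => e k (hi (bits (y a))), fun k a => d k (hi (bits (y a))), ?_, ?_, ?_⟩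
  · intro a
    exact ⟨yY a, ypos a, (pow_dvd_pow 2 (by omega)).trans (yT a)⟩
  · intro a b hab
    exact (pow_dvd_pow 2 (by omega)).trans (ydv a b hab)
  intro k hk
  refine ⟨⟨?_, ?_⟩, ?_, ?_⟩
  · -- joints
    intro a b hab
    have h1 := hfar k hk a b hab _ (hi_mem (bits_ne_nil (ypos b)))
    obtain ⟨⟨s, hs1, hs2⟩, -⟩ := (hL k).1 _ (hHi k hk b)
    refine ⟨?_, (hB1 k _ (hHi k hk a) _ h1.1).2⟩
    show gt (e k (hi (bits (y a)))) (e k (hi (bits (y b)))) = true
    rw [hs2]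
    exact (hB1 k _ (hHi k hk a) s (by omega)).1
  · -- letters of blocks
    intro a b hab x hx
    obtain ⟨p, hp, q, hq, hpq, rfl⟩ := (hC (h k)).2 _ (sorted_bits (y b)) x hx
    obtain ⟨s, hs1, hs2, hs3⟩ := ((hB (h k)).1 p q hpq).1
    show gt (e k (hi (bits (y a)))) (ltr (h k) p q) = true
    rw [hs3]
    have h1 := hfar k hk a b hab p hp
    exact (hB1 k _ (hHi k hk a) s (by omega)).1
  · rcases hcase k with ⟨hg, -⟩ | ⟨hg, hd⟩
    · refine Or.inl ⟨hg, strictMono_nat_of_lt_succ (fun a => ?_)⟩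
      have h1 := hfar k hk a (a + 1) (by omega) _ (hi_mem (bits_ne_nil (ypos (a + 1))))
      have h2 := hB3 k (hi (bits (y a))) hg _ h1.2.2
      show d k (hi (bits (y a))) < d k (hi (bits (y (a + 1))))
      omega
    · refine Or.inr ⟨hg, fun a => ?_⟩
      show d k (hi (bits (y a))) = d k (hi (bits (y 0)))
      rw [hd _ (hHi k hk a), hd _ (hHi k hk 0)]
  · refine wrd_sum hC (h k) y ypos (fun a b hab => (pow_dvd_pow 2 (by omega)).trans (ydv a b hab))
      _ (fun a b hab => ?_)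
    have h1 := hfar k hk a b hab _ (lo_mem (bits_ne_nil (ypos b)))
    exact hB2 k _ (hHi k hk a) _ h1.2.1

end Pool.Agent.Work.MP_69fea5_lc.S5
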