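import Pool.Agent.Work.MP_69fea5_lc.S5.Defs

set_option autoImplicit false

/-! No `Σ⁰₅` solutions: statements of the lemmas. The proof is note 4268 on MP_69fea5_lc. -/

namespace Pool.Agent.Work.MP_69fea5_lc.S5

open Pool.Agent.Work.MP_69fea5_lc.DJ (bits lo hi dec chi)
open Pool.Agent.Work.MP_69fea5_lc.TJ (A fT eT R1 spl FT node opn Dec join)
open Pool.Agent.Work.MP_69fea5_lc.S4 (gg co lst Lst)

/-! ### The painter -/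

/-- AD: adjacency. -/
def StAD : Prop := (∀ G G', Adj G G' → fT (G 0) ≠ fT (G' 0)) ∧
  (∀ p G G', Adj G G' → Adj (FT p G) (FT p G')) ∧
  (∀ H G G', Adj G G' → Adj (H + G) (H + G')) ∧
  (∀ d (a b : Fin 8), a ≠ b → Adj (pt d a) (pt d b)) ∧
  ∀ d (r : Fin 8), R1 r → Adj (pt d r) 0

/-- PH: the dependence of the value on the value of a late marked node. -/
def StPH : Prop := ∀ (g : ℕ → ℕ → Bool) (δ : ℕ → ℕ → ℕ), TJ.Good g δ →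
  ∀ (v : List ℕ) (c : ℕ), Even (opn g c v) → ∃ Φ : (ℕ → A) → ℕ → A,
    (∀ W, (∀ x ∈ W, g c x = true) → TJ.M g δ (v ++ c :: W) = Φ (node g δ c W)) ∧
    Φ 0 = TJ.M g δ v ∧
    (∀ G G', Adj G G' → Adj (Φ G) (Φ G')) ∧
    (∀ i, (∀ x ∈ v, g x c = true → i ≤ δ x c) → ∀ G, ∀ q ≤ i,
      Φ G q - Φ G i = (TJ.M g δ v q - TJ.M g δ v i) + (G q - G i)) ∧
    ∀ i, (∀ x ∈ v, g x c = true → i ≤ δ x c) → ∀ G, (∀ q, i < q → G q = 0) →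
      Φ G = TJ.M g δ v + G

/-- BK: the data of a block. `Φ` depends on the block and on the joint only. -/
def StBK : Prop := ∀ (g : ℕ → ℕ → Bool) (δ : ℕ → ℕ → ℕ), TJ.Good g δ →
  ∀ (w : ℕ → List ℕ) (c κ : ℕ → ℕ), Fm g δ w c κ → Monotone κ →
    ∃ Ph : ℕ → List ℕ → (ℕ → A) → ℕ → A, ∀ z b X, Blk g c z b X → BkP g δ c κ z b X (Ph b X)

/-- BL: pairs and quadruples are blocks. -/
def StBL : Prop := ∀ (g : ℕ → ℕ → Bool) (δ : ℕ → ℕ → ℕ), TJ.Good g δ →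
  ∀ (w : ℕ → List ℕ) (c κ : ℕ → ℕ), Fm g δ w c κ →
    (∀ z a b, z + 1 < a → a < b → par g w c a = par g w c b → Blk g c z b (pr2 w c a b)) ∧
    (∀ z b b' X Y, Blk g c z b X → Blk g c b b' Y → Blk g c z b' (X ++ c b :: Y)) ∧
    (∀ a₁ a₂ a₃ a₄ b s, join w c (a₁ :: a₂ :: a₃ :: a₄ :: b :: s) =
      pr4 w c a₁ a₂ a₃ a₄ ++ c a₄ :: join w c (b :: s)) ∧
    (∀ a₁ a₂ a₃ a₄, join w c [a₁, a₂, a₃, a₄] = pr4 w c a₁ a₂ a₃ a₄) ∧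
    ∀ a b s, a < b → (b :: s).Pairwise (· < ·) → ∀ x ∈ join w c (b :: s), g (c a) x = true

/-- The property of the quadruples, families with constant depth. -/
def QC (g : ℕ → ℕ → Bool) (δ : ℕ → ℕ → ℕ) (w : ℕ → List ℕ) (c : ℕ → ℕ) (i : ℕ) (d₀ x : A)
    (_z a₁ a₂ a₃ a₄ : ℕ) : Prop :=
  par g w c a₁ = par g w c a₂ ∧ par g w c a₂ = par g w c a₃ ∧ par g w c a₃ = par g w c a₄ ∧
  tp g δ (pr4 w c a₁ a₂ a₃ a₄) 0 = d₀ ∧ tp g δ (pr4 w c a₁ a₂ a₃ a₄) (i + 1) = x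

/-- EC: the value of a chain, constant depth. -/
def StEC : Prop := ∀ (g : ℕ → ℕ → Bool) (δ : ℕ → ℕ → ℕ), TJ.Good g δ →
  ∀ (w : ℕ → List ℕ) (c κ : ℕ → ℕ), Fm g δ w c κ → ∀ i, (∀ a, κ a = i) →
    ∀ (d₀ x : A) z n s, Chn (QC g δ w c i d₀ x) z n s → Even n → 0 < n →
      R1 (fT (tp g δ (join w c s) 0))

/-- The property of the quadruples, families with strictly increasing depth. -/
def QI (g : ℕ → ℕ → Bool) (δ : ℕ → ℕ → ℕ) (w : ℕ → List ℕ) (c κ : ℕ → ℕ)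
    (Ph : ℕ → List ℕ → (ℕ → A) → ℕ → A) (q₁ : Fin 8) (P : Fin 8 → Fin 8)
    (z a₁ a₂ a₃ a₄ : ℕ) : Prop :=
  par g w c a₁ = par g w c a₂ ∧ par g w c a₂ = par g w c a₃ ∧ par g w c a₃ = par g w c a₄ ∧
  fT (tp g δ (pr4 w c a₁ a₂ a₃ a₄) 0) = q₁ ∧
  (∀ q, fT (Ph a₄ (pr4 w c a₁ a₂ a₃ a₄) (pt (κ a₄) q) 0) = P q) ∧
  ∀ q ≤ κ z + 1, tp g δ (pr2 w c a₁ a₂) q - tp g δ (pr2 w c a₁ a₂) (κ z + 1) =
    tp g δ (pr2 w c a₃ a₄) q - tp g δ (pr2 w c a₃ a₄) (κ z + 1)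

/-- EI: the value of a chain, strictly increasing depth. -/
def StEI : Prop := ∀ (g : ℕ → ℕ → Bool) (δ : ℕ → ℕ → ℕ), TJ.Good g δ →
  ∀ (w : ℕ → List ℕ) (c κ : ℕ → ℕ), Fm g δ w c κ → StrictMono κ →
    ∀ Ph : ℕ → List ℕ → (ℕ → A) → ℕ → A,
    (∀ z b X, Blk g c z b X → BkP g δ c κ z b X (Ph b X)) →
    ∀ (q₁ : Fin 8) (P : Fin 8 → Fin 8) z n s, Chn (QI g δ w c κ Ph q₁ P) z n s →
      840 ∣ n → 0 < n → ¬ R1 (fT (tp g δ (join w c s) 0))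

/-- PM: a permutation of eight elements has period `840`. -/
def StPM : Prop := ∀ P : Fin 8 → Fin 8, Function.Injective P → ∀ n, 840 ∣ n → ∀ q, P^[n] q = q

/-- SL: selection of a chain of quadruples with equal data. -/
def StSL : Prop := ∀ (ρ β : Type) (γ : ℕ → Type), Finite ρ → Finite β → (∀ z, Finite (γ z)) →
  ∀ (p : ℕ → ρ) (D : ℕ → ℕ → ℕ → ℕ → β) (E : ∀ z, ℕ → ℕ → γ z), ∃ d, ∀ n z, ∃ s,
    Chn (fun z a₁ a₂ a₃ a₄ => (p a₁ = p a₂ ∧ p a₂ = p a₃ ∧ p a₃ = p a₄) ∧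
      D a₁ a₂ a₃ a₄ = d ∧ E z a₁ a₂ = E z a₃ a₄) z n s

/-- PT: finitely many families at once. -/
def StPT : Prop := ∀ (g : ℕ → ℕ → Bool) (δ : ℕ → ℕ → ℕ), TJ.Good g δ →
  ∀ (K : ℕ) (w : ℕ → ℕ → List ℕ) (c κ : ℕ → ℕ → ℕ),
    (∀ k < K, Fm g δ (w k) (c k) (κ k) ∧ ((∀ a, κ k a = κ k 0) ∨ StrictMono (κ k))) →
    ∃ s : List ℕ, s.length = N₀ ∧ s.Pairwise (· < ·) ∧
      ∀ k < K, (sta g δ (join (w k) (c k) s) = true ↔ StrictMono (κ k))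

/-! ### Letters -/

/-- LA: the order of the letters. -/
def StLA : Prop := TJ.Good gt dl ∧
  (∀ l l', lf l l' = true ↔ ∃ j, vl l j < vl l' j ∧ ∀ i < j, vl l i = vl l' i) ∧
  (∀ l l' j, vl l j ≠ vl l' j → (∀ i < j, vl l i = vl l' i) → dL l l' = j) ∧
  (∀ l l', (∀ j, vl l j = vl l' j) → l = l') ∧
  (∀ l, dec (Encodable.encode l) = l) ∧ ∀ x, Encodable.encode (dec x) = x

/-- LB: the letter of a gap. -/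
def StLB : Prop := ∀ h : ℕ → ℕ → ℕ → ℕ,
  (∀ a b, a < b → (∃ s, a < s ∧ s ≤ b ∧ ltr h a b = cd h s) ∧
    ∀ s, a < s → s ≤ b → cd h s = ltr h a b ∨ gt (ltr h a b) (cd h s) = true) ∧
  (∀ a e, Best h a e → ∃ b₀, ∀ b, b₀ ≤ b → ltr h a b = e) ∧
  ∀ a e e', Best h a e → Best h a e' → e = e'

/-- LC: words. -/
def StLC : Prop := ∀ h : ℕ → ℕ → ℕ → ℕ,
  (∀ L L' : List ℕ, L ≠ [] → L' ≠ [] → wrd h (L ++ L') = wrd h L ++ ltr h (hi L) (lo L') :: wrd h L')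
  ∧ ∀ L : List ℕ, L.Pairwise (· < ·) → ∀ x ∈ wrd h L, ∃ a ∈ L, ∃ b ∈ L, a < b ∧ x = ltr h a b

/-- The number of visits of `σ` before the stage `s`. -/
def vs (h : ℕ → ℕ → ℕ → ℕ) (s : ℕ) (σ : List ℕ) : ℕ :=
  ((List.range s).filter (fun s' => decide ((nu h s').take σ.length = σ))).length

/-- LD: the recursion of the nodes. -/
def StLD : Prop := ∀ (h : ℕ → ℕ → ℕ → ℕ) (s : ℕ), ∃ σ, nu h s = σ ++ [0] ∧ 0 ∉ σ ∧ σ.length ≤ s ∧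
  (∀ s' < s, ¬ σ <+: nu h s') ∧ (∀ τ, τ <+: σ → τ ≠ σ → ∃ s' < s, τ <+: nu h s') ∧
  ∀ τ v, τ ++ [v] <+: σ →
    (∃ b < s, v = b + 1 ∧ vs h s (τ ++ [b + 1]) < h τ.length b s ∧
      ∀ b' < b, h τ.length b' s ≤ vs h s (τ ++ [b' + 1])) ∨
    (v = s + 1 ∧ ∀ b' < s, h τ.length b' s ≤ vs h s (τ ++ [b' + 1]))

/-- `σ` is visited infinitely often. -/
def IV (h : ℕ → ℕ → ℕ → ℕ) (σ : List ℕ) : Prop := ∀ S, ∃ s, S ≤ s ∧ σ <+: nu h s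

/-- `σ` is visited finitely often. -/
def FV (h : ℕ → ℕ → ℕ → ℕ) (σ : List ℕ) : Prop := ∃ S, ∀ s, S ≤ s → ¬ σ <+: nu h s

/-- LE: visits. -/
def StLE : Prop := ∀ h : ℕ → ℕ → ℕ → ℕ, Mo h →
  (∀ σ, FV h (σ ++ [0])) ∧
  (∀ σ b, (∃ B, ∀ t, h σ.length b t ≤ B) → FV h (σ ++ [b + 1])) ∧
  IV h [] ∧
  (∀ σ b, 0 ∉ σ → IV h σ → (∀ b' < b, ∃ B, ∀ t, h σ.length b' t ≤ B) →
    (∀ B, ∃ t, B < h σ.length b t) → IV h (σ ++ [b + 1])) ∧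
  ∀ σ, 0 ∉ σ → IV h σ → ∃ s, nu h s = σ ++ [0]

/-- The conclusion about the letters: `e a` is the best letter after `a`, the depth is `d a`. -/
def Lim (h : ℕ → ℕ → ℕ → ℕ) (e d : ℕ → ℕ) (a₀ : ℕ) : Prop :=
  (∀ a, a₀ ≤ a → Best h a (e a)) ∧
  ∀ a, a₀ ≤ a → ∃ b₀, ∀ s, b₀ ≤ s → gt (e a) (cd h s) = true ∧ dl (e a) (e s) = d a

/-- LF: the limits of the letters if the test fails. -/
def StLF : Prop := ∀ h : ℕ → ℕ → ℕ → ℕ, Mo h → ¬ Gd h →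
  ∃ (e d : ℕ → ℕ) (a₀ i : ℕ), Lim h e d a₀ ∧ ∀ a, a₀ ≤ a → d a = i

/-- LG: the limits of the letters if the test succeeds. -/
def StLG : Prop := ∀ h : ℕ → ℕ → ℕ → ℕ, Mo h → Gd h →
  ∃ (e d : ℕ → ℕ) (a₀ : ℕ), Lim h e d a₀ ∧ ∀ m, ∃ a₁, ∀ a, a₁ ≤ a → m ≤ d a

/-- SQ: a sequence of elements of `Y` which is good for finitely many tests. -/
def StSQ : Prop := ∀ (K : ℕ) (h : ℕ → ℕ → ℕ → ℕ → ℕ), (∀ k, Mo (h k)) → ∀ Y : Set ℕ,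
  (∀ B, ∃ y ∈ Y, 0 < y ∧ 2 ^ B ∣ y) → ∀ B, ∃ (y : ℕ → ℕ) (c κ : ℕ → ℕ → ℕ),
    (∀ a, y a ∈ Y ∧ 0 < y a ∧ 2 ^ B ∣ y a) ∧ (∀ a b, a < b → 2 ^ y a ∣ y b) ∧
    ∀ k < K, Fm gt dl (fun a => wrd (h k) (bits (y a))) (c k) (κ k) ∧
      ((Gd (h k) ∧ StrictMono (κ k)) ∨ (¬ Gd (h k) ∧ ∀ a, κ k a = κ k 0)) ∧
      ∀ s : List ℕ, s ≠ [] → s.Pairwise (· < ·) →
        wrd (h k) (bits ((s.map y).sum)) = join (fun a => wrd (h k) (bits (y a))) (c k) s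

/-- C: finitely many tests can be answered correctly by one sum of `N₀` elements. -/
def StC : Prop := ∀ (K : ℕ) (h : ℕ → ℕ → ℕ → ℕ → ℕ), (∀ k, Mo (h k)) → ∀ Y : Set ℕ,
  (∀ B, ∃ y ∈ Y, 0 < y ∧ 2 ^ B ∣ y) → ∀ B, ∃ L, Far Y B L ∧
    ∀ k < K, (stat (h k) L.sum = true ↔ Gd (h k))

/-! ### The diagonalisation -/

/-- H: the key theorem. -/
def StH : Prop := ∀ X Y : Set ℕ, Env X Y →
  ∀ e, (∃ k, Gd (hh e k)) → ∃ k, Gd (hh e k) ∧ ¬ Lst X e k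

/-- I: the lists from a `Σ⁰₅` set. -/
def StI : Prop := ∀ (X : Set ℕ), X.Infinite → (∀ x ∈ X, 0 < x) →
  ∀ R : ℕ → ℕ → ℕ → ℕ → ℕ → ℕ → Bool,
  (Computable fun t : ℕ × ℕ × ℕ × ℕ × ℕ × ℕ =>
    R t.1 t.2.1 t.2.2.1 t.2.2.2.1 t.2.2.2.2.1 t.2.2.2.2.2) →
  (∀ n, n ∈ X ↔ ∃ i, ∀ p, ∃ b, ∀ u, ∃ l, R n i p b u l = true) →
  ∃ e, (∃ k, Gd (hh e k)) ∧ ∀ k, Gd (hh e k) → Lst X e k

/-- J: indices for the sections of a `Σ⁰₅` relation. -/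
def StJ : Prop := ∀ R : ℕ → ℕ → ℕ → ℕ → ℕ → ℕ → ℕ → Bool,
  (Computable fun t : ℕ × ℕ × ℕ × ℕ × ℕ × ℕ × ℕ =>
    R t.1 t.2.1 t.2.2.1 t.2.2.2.1 t.2.2.2.2.1 t.2.2.2.2.2.1 t.2.2.2.2.2.2) →
  ∃ E : ℕ → ℕ, Primrec E ∧ ∀ n y i, Gd (hh (E n) (Nat.pair y i)) ↔
    ∀ p, ∃ b, ∀ u, ∃ l, R n y i p b u l = true

/-- K: a set homogeneous for sums of at most `N₀ + 1` terms. -/
def StK : Prop := ∀ X : Set ℕ, X.Infinite → (∀ x ∈ X, 0 < x) →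
  (∀ B, ∃ x ∈ X, 0 < x ∧ 2 ^ B ∣ x) →
  (∃ b, ∀ F : Finset ℕ, F.Nonempty → F.card ≤ N₀ + 1 → (↑F : Set ℕ) ⊆ X → c5 (∑ x ∈ F, x) = b) →
  Env X X

/-- The conclusion about a set `X`: it is not `Σ⁰₅`, and it computes functions which avoid the
partial functions with a `Σ⁰₅` graph. -/
def Concl (X : Set ℕ) : Prop :=
  (¬ ∃ R : ℕ → ℕ → ℕ → ℕ → ℕ → ℕ → Bool,
    (Computable fun t : ℕ × ℕ × ℕ × ℕ × ℕ × ℕ =>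
      R t.1 t.2.1 t.2.2.1 t.2.2.2.1 t.2.2.2.2.1 t.2.2.2.2.2) ∧
    ∀ n, n ∈ X ↔ ∃ i, ∀ p, ∃ b, ∀ u, ∃ l, R n i p b u l = true) ∧
  ∀ R : ℕ → ℕ → ℕ → ℕ → ℕ → ℕ → ℕ → Bool,
    (Computable fun t : ℕ × ℕ × ℕ × ℕ × ℕ × ℕ × ℕ =>
      R t.1 t.2.1 t.2.2.1 t.2.2.2.1 t.2.2.2.2.1 t.2.2.2.2.2.1 t.2.2.2.2.2.2) →
    ∃ f : ℕ → ℕ, Nat.RecursiveIn {chi X} (fun n => Part.some (f n)) ∧
      ∀ n, ¬ ∀ y, (∃ i, ∀ p, ∃ b, ∀ u, ∃ l, R n y i p b u l = true) ↔ y = f n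

/-- M: the final theorem about one set. -/
def StM : Prop := ∀ X Y : Set ℕ, Env X Y → Concl X

/-! ### Computability -/

/-- GN: the nodes are primitive recursive. -/
def StGN : Prop := Primrec₂ gt ∧ Primrec₂ dl ∧
  Primrec fun t : (ℕ × ℕ) × ℕ => nu (hh t.1.1 t.1.2) t.2

/-- GS: the statistic is primitive recursive. -/
def StGS : Prop := Primrec fun t : (ℕ × ℕ) × ℕ => stat (hh t.1.1 t.1.2) t.2

/-- GT: the colouring is primitive recursive. -/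
def StGT : Prop := Primrec c5

end Pool.Agent.Work.MP_69fea5_lc.S5
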